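import Pool.Agent.Helper91.US.Defs2

/-!
# Module A4 MAX: the one-sided weighted maximal inequality
-/

set_option autoImplicit false

namespace Pool.Agent.US

open Finset Filter Topology MeasureTheory

theorem Mx_nonneg (m f : ℕ → ℝ) (i : ℕ) (hm : ∀ j ≤ i, 0 < m j) : 0 ≤ Mx m f i := by
  unfold Mx
  refine le_trans ?_ (Finset.le_sup' (s := Finset.range (i + 1)) _
    (Finset.mem_range.2 (Nat.succ_pos i)))
  refine div_nonneg (Finset.sum_nonneg fun j hj => ?_) (Finset.sum_nonneg fun j hj => ?_)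
  · exact mul_nonneg (hm j (Finset.mem_Icc.1 hj).2).le (abs_nonneg _)
  · exact (hm j (Finset.mem_Icc.1 hj).2).le

theorem sum_Icc_pos (m : ℕ → ℝ) {k i : ℕ} (hki : k ≤ i) (hm : ∀ j ≤ i, 0 < m j) :
    0 < ∑ j ∈ Finset.Icc k i, m j :=
  Finset.sum_pos (fun j hj => hm j (Finset.mem_Icc.1 hj).2) ⟨k, Finset.mem_Icc.2 ⟨le_refl _, hki⟩⟩

/-- `M_i > t` gives an interval with large average -/
theorem exists_of_lt_Mx {m f : ℕ → ℝ} {i : ℕ} (hm : ∀ j ≤ i, 0 < m j) {t : ℝ}
    (h : t < Mx m f i) :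
    ∃ k ≤ i, 0 < ∑ j ∈ Finset.Icc k i, m j * (|f j| - t) := by
  unfold Mx at h
  obtain ⟨k, hk, h1⟩ := (Finset.lt_sup'_iff _).1 h
  have hki : k ≤ i := by have := Finset.mem_range.1 hk; omega
  refine ⟨k, hki, ?_⟩
  rw [lt_div_iff₀ (sum_Icc_pos m hki hm)] at h1
  have h2 : ∑ j ∈ Finset.Icc k i, m j * (|f j| - t)
      = ∑ j ∈ Finset.Icc k i, m j * |f j| - t * ∑ j ∈ Finset.Icc k i, m j := by
    rw [Finset.mul_sum, ← Finset.sum_sub_distrib]
    exact Finset.sum_congr rfl fun j _ => by ring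
  rw [h2]; linarith

theorem le_of_Mx_le {m f : ℕ → ℝ} {i : ℕ} (hm : ∀ j ≤ i, 0 < m j) {t : ℝ}
    (h : Mx m f i ≤ t) {k : ℕ} (hki : k ≤ i) :
    ∑ j ∈ Finset.Icc k i, m j * (|f j| - t) ≤ 0 := by
  unfold Mx at h
  have h1 := (Finset.sup'_le_iff _ _).1 h k (Finset.mem_range.2 (by omega))
  rw [div_le_iff₀ (sum_Icc_pos m hki hm)] at h1
  have h2 : ∑ j ∈ Finset.Icc k i, m j * (|f j| - t)
      = ∑ j ∈ Finset.Icc k i, m j * |f j| - t * ∑ j ∈ Finset.Icc k i, m j := by
    rw [Finset.mul_sum, ← Finset.sum_sub_distrib]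
    exact Finset.sum_congr rfl fun j _ => by ring
  rw [h2]; linarith

theorem sum_range_sub_eq (a : ℕ → ℝ) {k i : ℕ} (hki : k ≤ i) :
    ∑ j ∈ range (i + 1), a j - ∑ j ∈ range k, a j = ∑ j ∈ Finset.Icc k i, a j := by
  have h := Finset.sum_range_add_sum_Ico a (Nat.le_succ_of_le hki)
  have h2 : Finset.Ico k (i + 1) = Finset.Icc k i := by
    ext j; simp only [Finset.mem_Ico, Finset.mem_Icc]; omega
  rw [h2] at h
  linarith

/-- the weak type inequality -/
theorem weak_type (m f : ℕ → ℝ) (n : ℕ) (hm : ∀ i < n, 0 < m i) (t : ℝ) :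
    ∀ k ≤ n, ∑ j ∈ range n, m j * (|f j| - t) - ∑ j ∈ range k, m j * (|f j| - t) ≤
      ∑ j ∈ range n, (if t < Mx m f j then m j * (|f j| - t) else 0) := by
  induction n with
  | zero =>
    intro k hk
    have : k = 0 := by omega
    subst this
    simp
  | succ n ih =>
    have hm' : ∀ i < n, 0 < m i := fun i hi => hm i (by omega)
    have hmn : ∀ j ≤ n, 0 < m j := fun j hj => hm j (by omega)
    have ih' := ih hm'
    have hB : 0 ≤ ∑ j ∈ range n, (if t < Mx m f j then m j * (|f j| - t) else 0) := by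
      have := ih' n (le_refl _)
      linarith
    intro k hk
    by_cases hc : t < Mx m f n
    · rw [Finset.sum_range_succ (fun j => if t < Mx m f j then m j * (|f j| - t) else 0),
        if_pos hc]
      rcases Nat.lt_or_ge n k with hnk | hnk
      · have hk' : k = n + 1 := by omega
        subst hk'
        obtain ⟨k', hk', hpos⟩ := exists_of_lt_Mx hmn hc
        have h1 := ih' k' hk'
        rw [← sum_range_sub_eq _ hk', Finset.sum_range_succ] at hpos
        linarith
      · have h1 := ih' k hnk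
        rw [Finset.sum_range_succ (fun j => m j * (|f j| - t))]
        linarith
    · rw [Finset.sum_range_succ (fun j => if t < Mx m f j then m j * (|f j| - t) else 0),
        if_neg hc, add_zero]
      rcases Nat.lt_or_ge n k with hnk | hnk
      · have hk' : k = n + 1 := by omega
        subst hk'
        rw [sub_self]; exact hB
      · rw [sum_range_sub_eq _ hnk]
        exact le_trans (le_of_Mx_le hmn (not_lt.1 hc) hnk) hB

theorem weak_type' (m f : ℕ → ℝ) (n : ℕ) (hm : ∀ i < n, 0 < m i) (t : ℝ) :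
    0 ≤ ∑ j ∈ range n, (if t < Mx m f j then m j * (|f j| - t) else 0) := by
  have := weak_type m f n hm t n (le_refl _)
  linarith

/-- integral of one term -/
theorem integral_term {q : ℝ} (hq : 1 < q) (c M T : ℝ) (hM : 0 ≤ M) (hMT : M ≤ T) :
    ∫ t in (0 : ℝ)..T, (if t < M then c * t ^ (q - 2) - t ^ (q - 1) else 0)
      = c * (M ^ (q - 1) / (q - 1)) - M ^ q / q := by
  have hI1 : IntervalIntegrable (fun t : ℝ => c * t ^ (q - 2) - t ^ (q - 1)) volume 0 M :=
    ((intervalIntegral.intervalIntegrable_rpow' (by linarith)).const_mul c).sub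
      (intervalIntegral.intervalIntegrable_rpow' (by linarith))
  have h1 : ∫ t in (0 : ℝ)..T, (if t < M then c * t ^ (q - 2) - t ^ (q - 1) else 0)
      = ∫ t in (0 : ℝ)..M, (c * t ^ (q - 2) - t ^ (q - 1)) := by
    rw [intervalIntegral.integral_of_le (le_trans hM hMT), intervalIntegral.integral_of_le hM]
    have h2 : (fun t : ℝ => (if t < M then c * t ^ (q - 2) - t ^ (q - 1) else 0))
        = (Set.Iio M).indicator (fun t : ℝ => c * t ^ (q - 2) - t ^ (q - 1)) := by
      ext t
      simp only [Set.indicator_apply, Set.mem_Iio]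
    rw [h2, setIntegral_indicator measurableSet_Iio]
    have h3 : Set.Ioc 0 T ∩ Set.Iio M = Set.Ioo 0 M := by
      ext t
      simp only [Set.mem_inter_iff, Set.mem_Ioc, Set.mem_Iio, Set.mem_Ioo]
      constructor
      · rintro ⟨⟨h1, h2⟩, h3⟩; exact ⟨h1, h3⟩
      · rintro ⟨h1, h2⟩; exact ⟨⟨h1, by linarith⟩, h2⟩
    rw [h3, integral_Ioc_eq_integral_Ioo]
  rw [h1, intervalIntegral.integral_sub
    ((intervalIntegral.intervalIntegrable_rpow' (by linarith)).const_mul c)
    (intervalIntegral.intervalIntegrable_rpow' (by linarith)),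
    intervalIntegral.integral_const_mul, integral_rpow (Or.inl (by linarith)),
    integral_rpow (Or.inl (by linarith))]
  have e1 : q - 2 + 1 = q - 1 := by ring
  have e2 : q - 1 + 1 = q := by ring
  rw [e1, e2, Real.zero_rpow (by linarith), Real.zero_rpow (by linarith), sub_zero, sub_zero]

theorem integrable_term {q : ℝ} (hq : 1 < q) (c M T : ℝ) (hT : 0 ≤ T) :
    IntervalIntegrable (fun t : ℝ => (if t < M then c * t ^ (q - 2) - t ^ (q - 1) else 0))
      volume 0 T := by
  have hI1 : IntervalIntegrable (fun t : ℝ => c * t ^ (q - 2) - t ^ (q - 1)) volume 0 T :=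
    ((intervalIntegral.intervalIntegrable_rpow' (by linarith)).const_mul c).sub
      (intervalIntegral.intervalIntegrable_rpow' (by linarith))
  have h2 : (fun t : ℝ => (if t < M then c * t ^ (q - 2) - t ^ (q - 1) else 0))
      = (Set.Iio M).indicator (fun t : ℝ => c * t ^ (q - 2) - t ^ (q - 1)) := by
    ext t
    simp only [Set.indicator_apply, Set.mem_Iio]
  rw [h2, intervalIntegrable_iff_integrableOn_Ioc_of_le hT]
  rw [intervalIntegrable_iff_integrableOn_Ioc_of_le hT] at hI1
  exact hI1.indicator measurableSet_Iio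

/-- the strong type inequality before absorption -/
theorem strong_type {q : ℝ} (hq : 1 < q) (m f : ℕ → ℝ) (n : ℕ) (hm : ∀ i < n, 0 < m i) :
    ∑ i ∈ range n, m i * (Mx m f i) ^ q ≤
      ∑ i ∈ range n, m i * (q / (q - 1) * |f i| * (Mx m f i) ^ (q - 1)) := by
  have hMnn : ∀ i < n, 0 ≤ Mx m f i := fun i hi =>
    Mx_nonneg m f i fun j hj => hm j (by omega)
  -- an upper bound
  obtain ⟨T, hT⟩ : ∃ T : ℝ, 0 ≤ T ∧ ∀ i < n, Mx m f i ≤ T := by
    refine ⟨∑ i ∈ range n, Mx m f i,
      Finset.sum_nonneg fun i hi => hMnn i (Finset.mem_range.1 hi), fun i hi => ?_⟩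
    exact Finset.single_le_sum (f := fun i => Mx m f i)
      (fun j hj => hMnn j (Finset.mem_range.1 hj)) (Finset.mem_range.2 hi)
  have h0 : 0 ≤ ∫ t in (0 : ℝ)..T, ∑ i ∈ range n,
      m i * (if t < Mx m f i then |f i| * t ^ (q - 2) - t ^ (q - 1) else 0) := by
    rw [intervalIntegral.integral_of_le hT.1]
    refine setIntegral_nonneg measurableSet_Ioc fun t ht => ?_
    have htpos : 0 < t := ht.1
    have e1 : ∀ i, m i * (if t < Mx m f i then |f i| * t ^ (q - 2) - t ^ (q - 1) else 0)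
        = t ^ (q - 2) * (if t < Mx m f i then m i * (|f i| - t) else 0) := by
      intro i
      have e2 : t ^ (q - 1) = t * t ^ (q - 2) := by
        rw [← Real.rpow_one_add' htpos.le (by linarith)]
        congr 1; ring
      split_ifs
      · rw [e2]; ring
      · ring
    rw [Finset.sum_congr rfl fun i _ => e1 i, ← Finset.mul_sum]
    exact mul_nonneg (Real.rpow_nonneg htpos.le _) (weak_type' m f n hm t)
  rw [intervalIntegral.integral_finsetSum (fun i hi =>
    (integrable_term hq _ _ _ hT.1).const_mul (m i))] at h0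
  have h1 : ∑ i ∈ range n, ∫ t in (0 : ℝ)..T,
      m i * (if t < Mx m f i then |f i| * t ^ (q - 2) - t ^ (q - 1) else 0)
      = ∑ i ∈ range n, m i * (|f i| * ((Mx m f i) ^ (q - 1) / (q - 1)) - (Mx m f i) ^ q / q) := by
    refine Finset.sum_congr rfl fun i hi => ?_
    rw [intervalIntegral.integral_const_mul,
      integral_term hq _ _ _ (hMnn i (Finset.mem_range.1 hi)) (hT.2 i (Finset.mem_range.1 hi))]
  rw [h1] at h0
  have h2 : 0 ≤ q * ∑ i ∈ range n,
      m i * (|f i| * ((Mx m f i) ^ (q - 1) / (q - 1)) - (Mx m f i) ^ q / q) :=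
    mul_nonneg (by linarith) h0
  rw [Finset.mul_sum] at h2
  rw [← sub_nonneg, ← Finset.sum_sub_distrib]
  refine h2.trans (le_of_eq ?_)
  refine Finset.sum_congr rfl fun i _ => ?_
  have hq0 : q ≠ 0 := by linarith
  have hq1 : q - 1 ≠ 0 := by linarith
  field_simp

theorem max_ineq (q : ℝ) (hq : 1 < q) : ∃ C : ℝ, 0 ≤ C ∧ ∀ (n : ℕ) (m f : ℕ → ℝ),
    (∀ i < n, 0 < m i) →
    ∑ i ∈ range n, m i * (Mx m f i) ^ q ≤ C * ∑ i ∈ range n, m i * |f i| ^ q := by
  set c : ℝ := q / (q - 1) with hc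
  have hq1 : 0 < q - 1 := by linarith
  have hcpos : 0 < c := by rw [hc]; positivity
  refine ⟨(2 * c) ^ q, by positivity, fun n m f hm => ?_⟩
  have hMnn : ∀ i < n, 0 ≤ Mx m f i := fun i hi =>
    Mx_nonneg m f i fun j hj => hm j (by omega)
  have hpt : ∀ a M : ℝ, 0 ≤ a → 0 ≤ M →
      c * a * M ^ (q - 1) ≤ M ^ q / 2 + (2 * c) ^ q * a ^ q / 2 := by
    intro a M ha hM
    rcases le_total (2 * c * a) M with h | h
    · have e1 : M ^ q = M * M ^ (q - 1) := by
        rcases eq_or_lt_of_le hM with h0 | h0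
        · rw [← h0, Real.zero_rpow (by linarith), zero_mul]
        · rw [← Real.rpow_one_add' hM (by linarith)]
          congr 1; ring
      have e2 : c * a * M ^ (q - 1) ≤ M / 2 * M ^ (q - 1) :=
        mul_le_mul_of_nonneg_right (by linarith) (Real.rpow_nonneg hM _)
      have e3 : 0 ≤ (2 * c) ^ q * a ^ q / 2 := by positivity
      rw [e1]; linarith
    · have h2 : 0 ≤ 2 * c * a := by positivity
      have e1 : (2 * c) ^ q * a ^ q = (2 * c * a) * (2 * c * a) ^ (q - 1) := by
        rw [← Real.mul_rpow (by positivity) ha]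
        rcases eq_or_lt_of_le h2 with h0 | h0
        · rw [← h0, Real.zero_rpow (by linarith), zero_mul]
        · rw [← Real.rpow_one_add' h2 (by linarith)]
          congr 1; ring
      have e2 : M ^ (q - 1) ≤ (2 * c * a) ^ (q - 1) := Real.rpow_le_rpow hM h hq1.le
      have e3 : c * a * M ^ (q - 1) ≤ c * a * (2 * c * a) ^ (q - 1) :=
        mul_le_mul_of_nonneg_left e2 (by positivity)
      have e4 : 0 ≤ M ^ q / 2 := by positivity
      rw [e1]; nlinarith
  have h1 := strong_type hq m f n hm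
  have h2 : ∑ i ∈ range n, m i * (q / (q - 1) * |f i| * (Mx m f i) ^ (q - 1)) ≤
      ∑ i ∈ range n, m i * ((Mx m f i) ^ q / 2 + (2 * c) ^ q * |f i| ^ q / 2) := by
    refine Finset.sum_le_sum fun i hi => ?_
    exact mul_le_mul_of_nonneg_left
      (hpt _ _ (abs_nonneg _) (hMnn i (Finset.mem_range.1 hi))) (hm i (Finset.mem_range.1 hi)).le
  have h3 : ∑ i ∈ range n, m i * ((Mx m f i) ^ q / 2 + (2 * c) ^ q * |f i| ^ q / 2)
      = (∑ i ∈ range n, m i * (Mx m f i) ^ q) / 2
        + (2 * c) ^ q * (∑ i ∈ range n, m i * |f i| ^ q) / 2 := by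
    rw [Finset.mul_sum, Finset.sum_div, Finset.sum_div, ← Finset.sum_add_distrib]
    exact Finset.sum_congr rfl fun i _ => by ring
  rw [h3] at h2
  linarith

end Pool.Agent.US
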