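import Pool.Agent.Helper91.US.Defs2

set_option autoImplicit false

namespace Pool.Agent.US

open Finset Filter Topology
open scoped ContDiff

/-! ### derivatives of `log (A + t A')` at `0` -/

theorem loglin_deriv1 {A B : ℝ} (hA : 0 < A) :
    deriv (fun t : ℝ => Real.log (A + t * B)) =ᶠ[𝓝 0] fun t => B / (A + t * B) := by
  have h0 : ∀ᶠ t : ℝ in 𝓝 0, 0 < A + t * B := by
    have : ContinuousAt (fun t : ℝ => A + t * B) 0 := by fun_prop
    have h1 := this.eventually (lt_mem_nhds (a := 0) (b := A + 0 * B) (by simpa using hA))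
    exact h1
  filter_upwards [h0] with t ht
  have h1 : HasDerivAt (fun t : ℝ => A + t * B) B t := by
    simpa using ((hasDerivAt_id t).mul_const B).const_add A
  exact (h1.log ht.ne').deriv

theorem loglin_deriv2 {A B : ℝ} (hA : 0 < A) :
    deriv (fun t : ℝ => B / (A + t * B)) =ᶠ[𝓝 0] fun t => -(B / (A + t * B)) ^ 2 := by
  have h0 : ∀ᶠ t : ℝ in 𝓝 0, 0 < A + t * B := by
    have : ContinuousAt (fun t : ℝ => A + t * B) 0 := by fun_prop
    have h1 := this.eventually (lt_mem_nhds (a := 0) (b := A + 0 * B) (by simpa using hA))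
    exact h1
  filter_upwards [h0] with t ht
  have h1 : HasDerivAt (fun t : ℝ => A + t * B) B t := by
    simpa using ((hasDerivAt_id t).mul_const B).const_add A
  have h2 := ((hasDerivAt_const t B).div h1 ht.ne').deriv
  have h3 : (fun t : ℝ => B / (A + t * B)) = ((fun _ : ℝ => B) / fun t => A + t * B) := by
    ext; rfl
  rw [h3, h2]
  field_simp
  ring

theorem loglin_deriv3 {A B : ℝ} (hA : 0 < A) :
    deriv (fun t : ℝ => -(B / (A + t * B)) ^ 2) =ᶠ[𝓝 0] fun t => 2 * (B / (A + t * B)) ^ 3 := by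
  have h0 : ∀ᶠ t : ℝ in 𝓝 0, 0 < A + t * B := by
    have : ContinuousAt (fun t : ℝ => A + t * B) 0 := by fun_prop
    have h1 := this.eventually (lt_mem_nhds (a := 0) (b := A + 0 * B) (by simpa using hA))
    exact h1
  filter_upwards [h0] with t ht
  have h1 : HasDerivAt (fun t : ℝ => A + t * B) B t := by
    simpa using ((hasDerivAt_id t).mul_const B).const_add A
  have h2 := (hasDerivAt_const t B).div h1 ht.ne'
  have h4 := (h2.pow 2).neg.deriv
  have h3 : (fun t : ℝ => -(B / (A + t * B)) ^ 2) = -(((fun _ : ℝ => B) / fun t => A + t * B) ^ 2) := by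
    ext; simp
  rw [h3, h4]
  have ht' : A + t * B ≠ 0 := ht.ne'
  simp only [Pi.div_apply, Nat.cast_ofNat, Nat.add_one_sub_one, pow_one, zero_mul, zero_sub]
  generalize A + t * B = s at ht'
  field_simp

theorem loglin_it {A B : ℝ} (hA : 0 < A) :
    iteratedDeriv 1 (fun t : ℝ => Real.log (A + t * B)) 0 = B / A ∧
    iteratedDeriv 2 (fun t : ℝ => Real.log (A + t * B)) 0 = -(B / A) ^ 2 ∧
    iteratedDeriv 3 (fun t : ℝ => Real.log (A + t * B)) 0 = 2 * (B / A) ^ 3 := by
  have e1 := loglin_deriv1 (B := B) hA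
  have e2 := loglin_deriv2 (B := B) hA
  have e3 := loglin_deriv3 (B := B) hA
  have e12 := e1.deriv.trans e2
  have e123 := e12.deriv.trans e3
  refine ⟨?_, ?_, ?_⟩
  · rw [iteratedDeriv_one, e1.eq_of_nhds]; simp
  · rw [iteratedDeriv_succ', iteratedDeriv_one, e12.eq_of_nhds]; simp
  · rw [iteratedDeriv_succ', iteratedDeriv_succ', iteratedDeriv_one, e123.eq_of_nhds]; simp

theorem loglin_contDiffAt {A B : ℝ} (hA : 0 < A) :
    ContDiffAt ℝ 3 (fun t : ℝ => Real.log (A + t * B)) 0 := by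
  have h1 : ContDiffAt ℝ 3 (fun t : ℝ => A + t * B) 0 := by fun_prop
  exact h1.log (by simpa using hA.ne')

theorem F_line (m g : ℕ → ℝ) (t : ℝ) (k : ℕ) :
    F (fun j => m j * (1 + t * g j)) k = F m k + t * F (fun j => m j * g j) k := by
  unfold F
  rw [Finset.mul_sum, ← Finset.sum_add_distrib]
  exact Finset.sum_congr rfl (fun j _ => by ring)

theorem F_sub (m : ℕ → ℝ) {k i : ℕ} (hk : k ≤ i) :
    F m (i + 1) - F m k = ∑ j ∈ Finset.Icc k i, m j := by
  unfold F
  rw [Finset.range_eq_Ico, Finset.range_eq_Ico, ← Finset.sum_Ico_consecutive m (Nat.zero_le k) (by omega : k ≤ i + 1)]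
  have : Finset.Ico k (i + 1) = Finset.Icc k i := by
    ext j
    simp only [Finset.mem_Ico, Finset.mem_Icc]
    omega
  rw [this]; ring

theorem abs_div_le_Mx {m g : ℕ → ℝ} {k i : ℕ} (hm : ∀ j ≤ i, 0 < m j) (hk : k ≤ i) :
    |(F (fun j => m j * g j) (i + 1) - F (fun j => m j * g j) k) / (F m (i + 1) - F m k)| ≤
      Mx m g i := by
  have hpos : 0 < ∑ j ∈ Finset.Icc k i, m j := by
    refine Finset.sum_pos (fun j hj => hm j (Finset.mem_Icc.1 hj).2) ⟨k, ?_⟩
    exact Finset.mem_Icc.2 ⟨le_rfl, hk⟩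
  have h1 : (∑ j ∈ Finset.Icc k i, m j * |g j|) / (∑ j ∈ Finset.Icc k i, m j) ≤ Mx m g i := by
    unfold Mx
    exact Finset.le_sup' (f := fun k => (∑ j ∈ Finset.Icc k i, m j * |g j|) / (∑ j ∈ Finset.Icc k i, m j))
      (Finset.mem_range.2 (by omega))
  refine le_trans ?_ h1
  rw [F_sub _ hk, F_sub _ hk, abs_div, abs_of_pos hpos]
  apply div_le_div_of_nonneg_right _ hpos.le
  refine (Finset.abs_sum_le_sum_abs _ _).trans (Finset.sum_le_sum (fun j hj => ?_))
  rw [abs_mul, abs_of_pos (hm j (Finset.mem_Icc.1 hj).2)]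

/-- Module A5: the statement `V_line` from the statement `G_deriv_bound` (module A3). -/
theorem V_line_of
    (hGD : ∃ C : ℝ, 0 ≤ C ∧ ∀ (n : ℕ) (y : ℕ → ℝ → ℝ) (a : ℝ), 0 ≤ a →
      (∀ j ≤ n, ContDiffAt ℝ 3 (y j) 0) →
      (∀ j < n, y j 0 ≤ y (j + 1) 0) →
      (∀ j ≤ n, |iteratedDeriv 1 (y j) 0| ≤ 2 * a) →
      (∀ j ≤ n, |iteratedDeriv 2 (y j) 0| ≤ 2 * a ^ 2) →
      (∀ j ≤ n, |iteratedDeriv 3 (y j) 0| ≤ 4 * a ^ 3) →
      ContDiffAt ℝ 3 (fun t => G n (fun j => y j t) 0) 0 ∧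
      ∀ r : ℕ, 1 ≤ r → r ≤ 3 →
        |iteratedDeriv r (fun t => G n (fun j => y j t) 0) 0| ≤ C * a ^ r) :
    ∃ C : ℝ, 0 ≤ C ∧ ∀ (i : ℕ) (m g : ℕ → ℝ), (∀ j ≤ i, 0 < m j) →
    ContDiffAt ℝ 3 (fun t : ℝ => V i (fun j => m j * (1 + t * g j))) 0 ∧
    ∀ r : ℕ, 1 ≤ r → r ≤ 3 →
      |iteratedDeriv r (fun t : ℝ => V i (fun j => m j * (1 + t * g j))) 0| ≤
        C * (Mx m g i) ^ r := by
  obtain ⟨C, hC, hG⟩ := hGD
  refine ⟨C, hC, fun i m g hm => ?_⟩
  set A : ℝ := F m (i + 1) with hAdef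
  set A' : ℝ := F (fun j => m j * g j) (i + 1) with hA'def
  set B : ℕ → ℝ := fun k => F m (i + 1) - F m k with hBdef
  set B' : ℕ → ℝ := fun k => F (fun j => m j * g j) (i + 1) - F (fun j => m j * g j) k with hB'def
  set y : ℕ → ℝ → ℝ := fun k t => Real.log (A + t * A') - Real.log (B k + t * B' k) with hydef
  have hBpos : ∀ k ≤ i, 0 < B k := by
    intro k hk
    simp only [hBdef]
    rw [F_sub _ hk]
    refine Finset.sum_pos (fun j hj => hm j (Finset.mem_Icc.1 hj).2) ⟨k, ?_⟩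
    exact Finset.mem_Icc.2 ⟨le_rfl, hk⟩
  have hAB : A = B 0 := by simp [hBdef, hAdef, F]
  have hA'B : A' = B' 0 := by simp [hB'def, hA'def, F]
  have hApos : 0 < A := by rw [hAB]; exact hBpos 0 (Nat.zero_le _)
  set a : ℝ := Mx m g i with hadef
  have hb : ∀ k ≤ i, |B' k / B k| ≤ a := fun k hk => abs_div_le_Mx hm hk
  have ha' : |A' / A| ≤ a := by rw [hAB, hA'B]; exact hb 0 (Nat.zero_le _)
  have ha : 0 ≤ a := (abs_nonneg _).trans ha'
  have hfun : (fun t : ℝ => V i (fun j => m j * (1 + t * g j))) =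
      fun t => G i (fun j => y j t) 0 - 1 := by
    ext t
    unfold V
    congr 2
    ext k
    simp only [Y, F_line, hydef, hAdef, hA'def, hBdef, hB'def]
    congr 2
    ring
  have hcd : ∀ j ≤ i, ContDiffAt ℝ 3 (y j) 0 := fun j hj =>
    (loglin_contDiffAt hApos).sub (loglin_contDiffAt (hBpos j hj))
  have hit : ∀ r : ℕ, r ≤ 3 → ∀ j ≤ i, iteratedDeriv r (y j) 0 =
      iteratedDeriv r (fun t : ℝ => Real.log (A + t * A')) 0 -
      iteratedDeriv r (fun t : ℝ => Real.log (B j + t * B' j)) 0 := by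
    intro r hr j hj
    have h1 : ContDiffAt ℝ r (fun t : ℝ => Real.log (A + t * A')) 0 :=
      (loglin_contDiffAt hApos).of_le (by exact_mod_cast hr)
    have h2 : ContDiffAt ℝ r (fun t : ℝ => Real.log (B j + t * B' j)) 0 :=
      (loglin_contDiffAt (hBpos j hj)).of_le (by exact_mod_cast hr)
    have := iteratedDeriv_sub h1 h2
    exact this
  obtain ⟨hc1, hc2⟩ := hG i y a ha hcd
    (by
      intro j hj
      simp only [hydef]
      have h1 : Real.log (B (j + 1)) ≤ Real.log (B j) := by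
        apply Real.log_le_log (hBpos (j + 1) (by omega))
        simp only [hBdef]
        have : F m (j + 1) = F m j + m j := by simp [F, Finset.sum_range_succ]
        rw [this]
        linarith [hm j (by omega)]
      simp only [zero_mul, add_zero]
      linarith)
    (by
      intro j hj
      rw [hit 1 (by norm_num) j hj, (loglin_it hApos).1, (loglin_it (hBpos j hj)).1]
      have := hb j hj
      rw [abs_le] at *
      constructor <;> linarith [this.1, this.2, ha'.1, ha'.2])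
    (by
      intro j hj
      rw [hit 2 (by norm_num) j hj, (loglin_it hApos).2.1, (loglin_it (hBpos j hj)).2.1]
      have h1 : (B' j / B j) ^ 2 ≤ a ^ 2 := sq_le_sq' (abs_le.1 (hb j hj)).1 (abs_le.1 (hb j hj)).2
      have h2 : (A' / A) ^ 2 ≤ a ^ 2 := sq_le_sq' (abs_le.1 ha').1 (abs_le.1 ha').2
      have h3 := sq_nonneg (B' j / B j)
      have h4 := sq_nonneg (A' / A)
      rw [abs_le]
      constructor <;> nlinarith)
    (by
      intro j hj
      rw [hit 3 (by norm_num) j hj, (loglin_it hApos).2.2, (loglin_it (hBpos j hj)).2.2]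
      have h1 : |(B' j / B j) ^ 3| ≤ a ^ 3 := by
        rw [abs_pow]; exact pow_le_pow_left₀ (abs_nonneg _) (hb j hj) 3
      have h2 : |(A' / A) ^ 3| ≤ a ^ 3 := by
        rw [abs_pow]; exact pow_le_pow_left₀ (abs_nonneg _) ha' 3
      rw [abs_le] at *
      constructor <;> linarith [h1.1, h1.2, h2.1, h2.2])
  rw [hfun]
  refine ⟨hc1.sub contDiffAt_const, fun r hr1 hr3 => ?_⟩
  have hsub : iteratedDeriv r (fun t => G i (fun j => y j t) 0 - 1) 0 =
      iteratedDeriv r (fun t => G i (fun j => y j t) 0) 0 := by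
    have h1 : ContDiffAt ℝ r (fun t => G i (fun j => y j t) 0) 0 :=
      hc1.of_le (by exact_mod_cast hr3)
    have h2 : ContDiffAt ℝ r (fun _ : ℝ => (1 : ℝ)) 0 := contDiffAt_const
    have := iteratedDeriv_sub h1 h2
    have e : (fun t => G i (fun j => y j t) 0 - 1) =
      ((fun t => G i (fun j => y j t) 0) - fun _ => (1 : ℝ)) := by ext; rfl
    rw [e, this, iteratedDeriv_const]
    rw [if_neg (by omega)]
    simp
  rw [hsub]
  exact hc2 r hr1 hr3

end Pool.Agent.US
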