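import Pool.Agent.Helper91.US.Defs2

/-!
# Smooth family of critical points of `⟨u, m⟩ - P(m)` on the open orthant
-/

set_option autoImplicit false

namespace Pool.Agent.US

open Finset Filter Topology
open scoped ContDiff

namespace LegAux

variable {n : ℕ} {Φ : (Fin n → ℝ) → ℝ} {C β : ℝ}

theorem isOpen_orth (n : ℕ) : IsOpen {m : Fin n → ℝ | ∀ i, 0 < m i} := by
  have h : {m : Fin n → ℝ | ∀ i, 0 < m i} = ⋂ i, {m : Fin n → ℝ | 0 < m i} := by ext m; simp
  rw [h]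
  exact isOpen_iInter_of_finite fun i => isOpen_lt continuous_const (continuous_apply i)

theorem orth_mem_nhds {m : Fin n → ℝ} (hm : ∀ i, 0 < m i) :
    {m : Fin n → ℝ | ∀ i, 0 < m i} ∈ 𝓝 m := (isOpen_orth n).mem_nhds hm

theorem good_contDiffAt (hG : Good n Φ C) {m : Fin n → ℝ} (hm : ∀ i, 0 < m i) :
    ContDiffAt ℝ ∞ Φ m := hG.smooth.contDiffAt (orth_mem_nhds hm)

theorem contDiffAt_PP (hG : Good n Φ C) {m : Fin n → ℝ} (hm : ∀ i, 0 < m i) :
    ContDiffAt ℝ ∞ (PP β n Φ) m := by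
  unfold PP
  refine ContDiffAt.add (ContDiffAt.sum fun i _ => ?_) (contDiffAt_const.mul (good_contDiffAt hG hm))
  have h1 : ContDiffAt ℝ ∞ (fun m : Fin n → ℝ => m i) m := (contDiff_apply ℝ ℝ i).contDiffAt
  exact (h1.mul (h1.log (hm i).ne')).sub h1

theorem hasFDerivAt_PP (hG : Good n Φ C) {m : Fin n → ℝ} (hm : ∀ i, 0 < m i) :
    HasFDerivAt (PP β n Φ)
      (∑ i, Real.log (m i) • (ContinuousLinearMap.proj i : (Fin n → ℝ) →L[ℝ] ℝ) +
        β • fderiv ℝ Φ m) m := by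
  unfold PP
  refine HasFDerivAt.add (HasFDerivAt.fun_sum fun i _ => ?_) ?_
  · have h1 : HasDerivAt (fun x : ℝ => x * Real.log x - x) (Real.log (m i)) (m i) := by
      have := (Real.hasDerivAt_mul_log (hm i).ne').fun_sub (hasDerivAt_id' (m i))
      simpa using this
    exact h1.comp_hasFDerivAt m (ContinuousLinearMap.proj (R := ℝ) (φ := fun _ : Fin n => ℝ) i).hasFDerivAt
  · exact (((good_contDiffAt hG hm).differentiableAt (by simp)).hasFDerivAt).const_mul β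

theorem hasFDerivAt_fderiv_PP (hG : Good n Φ C) {m : Fin n → ℝ} (hm : ∀ i, 0 < m i) :
    HasFDerivAt (fderiv ℝ (PP β n Φ))
      (∑ i, ((m i)⁻¹ • (ContinuousLinearMap.proj i : (Fin n → ℝ) →L[ℝ] ℝ)).smulRight
          (ContinuousLinearMap.proj i : (Fin n → ℝ) →L[ℝ] ℝ) +
        β • fderiv ℝ (fderiv ℝ Φ) m) m := by
  have h1 : fderiv ℝ (PP β n Φ) =ᶠ[𝓝 m] fun m =>
      ∑ i, Real.log (m i) • (ContinuousLinearMap.proj i : (Fin n → ℝ) →L[ℝ] ℝ) +
        β • fderiv ℝ Φ m := by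
    filter_upwards [orth_mem_nhds hm] with m' hm'
    exact (hasFDerivAt_PP hG hm').fderiv
  refine HasFDerivAt.congr_of_eventuallyEq ?_ h1
  refine HasFDerivAt.add (HasFDerivAt.fun_sum fun i _ => ?_) ?_
  · have h2 : HasFDerivAt (fun m : Fin n → ℝ => Real.log (m i))
        ((m i)⁻¹ • (ContinuousLinearMap.proj i : (Fin n → ℝ) →L[ℝ] ℝ)) m :=
      (ContinuousLinearMap.proj (R := ℝ) (φ := fun _ : Fin n => ℝ) i).hasFDerivAt.log (hm i).ne'
    exact h2.smul_const (ContinuousLinearMap.proj i : (Fin n → ℝ) →L[ℝ] ℝ)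
  · have h2 : ContDiffAt ℝ ∞ (fderiv ℝ Φ) m := (good_contDiffAt hG hm).fderiv_right (by simp)
    exact (h2.differentiableAt (by simp)).hasFDerivAt.const_smul β

theorem fderiv2_PP (hG : Good n Φ C) {m : Fin n → ℝ} (hm : ∀ i, 0 < m i) (d d' : Fin n → ℝ) :
    fderiv ℝ (fderiv ℝ (PP β n Φ)) m d d' =
      ∑ i, (m i)⁻¹ * d i * d' i + β * fderiv ℝ (fderiv ℝ Φ) m d d' := by
  rw [(hasFDerivAt_fderiv_PP hG hm).fderiv]
  simp [ContinuousLinearMap.smulRight_apply]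

/-- the second derivative is positive definite -/
theorem fderiv2_PP_ge (hG : Good n Φ C) (hβ : 0 ≤ β) (hβC : β * C ≤ 1 / 3) {m : Fin n → ℝ}
    (hm : ∀ i, 0 < m i) (d : Fin n → ℝ) :
    2 / 3 * ∑ i, d i ^ 2 / m i ≤ fderiv ℝ (fderiv ℝ (PP β n Φ)) m d d := by
  rw [fderiv2_PP hG hm]
  have h1 := hG.h2 m hm (fun i => d i / m i)
  have h2 : (fun i => m i * (d i / m i)) = d := by
    funext i; field_simp [(hm i).ne']
  have h3 : ∑ i, m i * (d i / m i) ^ 2 = ∑ i, d i ^ 2 / m i := by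
    refine Finset.sum_congr rfl fun i _ => ?_
    have := (hm i).ne'
    field_simp
  have h4 : ∑ i, (m i)⁻¹ * d i * d i = ∑ i, d i ^ 2 / m i := by
    refine Finset.sum_congr rfl fun i _ => ?_
    have := (hm i).ne'
    field_simp
  rw [h2, h3] at h1
  rw [h4]
  have h5 : 0 ≤ ∑ i, d i ^ 2 / m i :=
    Finset.sum_nonneg fun i _ => div_nonneg (sq_nonneg _) (hm i).le
  have h6 := mul_le_mul_of_nonneg_left (abs_le.1 h1).1 hβ
  have h7 := mul_le_mul_of_nonneg_right hβC h5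
  nlinarith

theorem fderiv2_PP_pos (hG : Good n Φ C) (hβ : 0 ≤ β) (hβC : β * C ≤ 1 / 3) {m : Fin n → ℝ}
    (hm : ∀ i, 0 < m i) {d : Fin n → ℝ} (hd : d ≠ 0) :
    0 < fderiv ℝ (fderiv ℝ (PP β n Φ)) m d d := by
  refine lt_of_lt_of_le ?_ (fderiv2_PP_ge hG hβ hβC hm d)
  obtain ⟨i, hi⟩ := Function.ne_iff.1 hd
  have h1 : 0 < d i ^ 2 / m i := div_pos (by simpa [sq_pos_iff] using hi) (hm i)
  have h2 : 0 < ∑ i, d i ^ 2 / m i :=
    Finset.sum_pos' (fun i _ => div_nonneg (sq_nonneg _) (hm i).le) ⟨i, mem_univ i, h1⟩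
  positivity

/-- the gradient map -/
noncomputable def grad (β : ℝ) (n : ℕ) (Φ : (Fin n → ℝ) → ℝ) (m : Fin n → ℝ) : Fin n → ℝ :=
  fun i => fderiv ℝ (PP β n Φ) m (Pi.single i 1)

theorem fderiv_apply_eq_sum (f : (Fin n → ℝ) →L[ℝ] ℝ) (a : Fin n → ℝ) :
    f a = ∑ i, f (Pi.single i 1) * a i := by
  conv_lhs => rw [pi_eq_sum_univ' a]
  rw [map_sum]
  refine Finset.sum_congr rfl fun i _ => ?_
  rw [map_smul, smul_eq_mul, mul_comm]

theorem grad_apply_sum (m a : Fin n → ℝ) :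
    fderiv ℝ (PP β n Φ) m a = ∑ i, grad β n Φ m i * a i :=
  fderiv_apply_eq_sum _ _

theorem contDiffAt_fderiv_PP (hG : Good n Φ C) {m : Fin n → ℝ} (hm : ∀ i, 0 < m i) :
    ContDiffAt ℝ ∞ (fderiv ℝ (PP β n Φ)) m :=
  (contDiffAt_PP hG hm).fderiv_right (by simp)

theorem contDiffAt_grad (hG : Good n Φ C) {m : Fin n → ℝ} (hm : ∀ i, 0 < m i) :
    ContDiffAt ℝ ∞ (grad β n Φ) m := by
  unfold grad
  rw [contDiffAt_pi]
  intro i
  exact (contDiffAt_fderiv_PP hG hm).clm_apply contDiffAt_const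

theorem hasFDerivAt_grad (hG : Good n Φ C) {m : Fin n → ℝ} (hm : ∀ i, 0 < m i) :
    HasFDerivAt (grad β n Φ) (fderiv ℝ (grad β n Φ) m) m :=
  ((contDiffAt_grad hG hm).differentiableAt (by simp)).hasFDerivAt

theorem fderiv_grad_apply (hG : Good n Φ C) {m : Fin n → ℝ} (hm : ∀ i, 0 < m i)
    (d : Fin n → ℝ) (i : Fin n) :
    fderiv ℝ (grad β n Φ) m d i = fderiv ℝ (fderiv ℝ (PP β n Φ)) m d (Pi.single i 1) := by
  have h1 : HasFDerivAt (fun m => grad β n Φ m i)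
      ((ContinuousLinearMap.proj i : (Fin n → ℝ) →L[ℝ] ℝ).comp (fderiv ℝ (grad β n Φ) m)) m :=
    (ContinuousLinearMap.proj (R := ℝ) (φ := fun _ : Fin n => ℝ) i).hasFDerivAt.comp m
      (hasFDerivAt_grad hG hm)
  have h2 : HasFDerivAt (fun m => fderiv ℝ (PP β n Φ) m (Pi.single i 1))
      ((fderiv ℝ (fderiv ℝ (PP β n Φ)) m).flip (Pi.single i 1)) m := by
    have h3 : HasFDerivAt (fderiv ℝ (PP β n Φ)) (fderiv ℝ (fderiv ℝ (PP β n Φ)) m) m :=
      ((contDiffAt_fderiv_PP hG hm).differentiableAt (by simp)).hasFDerivAt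
    have h4 := h3.clm_apply (hasFDerivAt_const (Pi.single i (1 : ℝ)) m)
    simpa using h4
  have h5 := congrArg (fun f : (Fin n → ℝ) →L[ℝ] ℝ => f d) (h1.unique h2)
  simpa using h5

theorem fderiv_grad_injective (hG : Good n Φ C) (hβ : 0 ≤ β) (hβC : β * C ≤ 1 / 3)
    {m : Fin n → ℝ} (hm : ∀ i, 0 < m i) :
    Function.Injective (fderiv ℝ (grad β n Φ) m : (Fin n → ℝ) →ₗ[ℝ] (Fin n → ℝ)) := by
  rw [injective_iff_map_eq_zero]
  intro d hd
  by_contra hne
  have h1 := fderiv2_PP_pos hG hβ hβC hm hne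
  rw [fderiv_apply_eq_sum (fderiv ℝ (fderiv ℝ (PP β n Φ)) m d) d] at h1
  have h2 : ∀ i, fderiv ℝ (fderiv ℝ (PP β n Φ)) m d (Pi.single i 1) = 0 := by
    intro i
    rw [← fderiv_grad_apply hG hm]
    exact congrFun hd i
  simp [h2] at h1

theorem exists_equiv_grad (hG : Good n Φ C) (hβ : 0 ≤ β) (hβC : β * C ≤ 1 / 3)
    {m : Fin n → ℝ} (hm : ∀ i, 0 < m i) :
    ∃ A : (Fin n → ℝ) ≃L[ℝ] (Fin n → ℝ), HasFDerivAt (grad β n Φ)
      (A : (Fin n → ℝ) →L[ℝ] (Fin n → ℝ)) m := by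
  refine ⟨(LinearEquiv.ofInjectiveEndo _ (fderiv_grad_injective hG hβ hβC hm)).toContinuousLinearEquiv,
    ?_⟩
  have h1 := hasFDerivAt_grad (β := β) hG hm
  have h2 : ((LinearEquiv.ofInjectiveEndo _
      (fderiv_grad_injective hG hβ hβC hm)).toContinuousLinearEquiv :
      (Fin n → ℝ) →L[ℝ] (Fin n → ℝ)) = fderiv ℝ (grad β n Φ) m := by
    ext d i
    rfl
  rw [h2]
  exact h1

theorem grad_injOn (hG : Good n Φ C) (hβ : 0 ≤ β) (hβC : β * C ≤ 1 / 3) {m m' : Fin n → ℝ}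
    (hm : ∀ i, 0 < m i) (hm' : ∀ i, 0 < m' i) (h : grad β n Φ m = grad β n Φ m') : m = m' := by
  by_contra hne
  set d : Fin n → ℝ := m' - m with hd
  have hd0 : d ≠ 0 := sub_ne_zero.2 (Ne.symm hne)
  have hseg : ∀ t ∈ Set.Icc (0 : ℝ) 1, ∀ i, 0 < (m + t • d) i := by
    intro t ht i
    have : (m + t • d) i = (1 - t) * m i + t * m' i := by
      simp [hd]; ring
    rw [this]
    rcases eq_or_lt_of_le ht.1 with h0 | h0
    · rw [← h0]; simpa using hm i
    · have h1 := mul_pos h0 (hm' i)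
      have h2 := mul_nonneg (sub_nonneg.2 ht.2) (hm i).le
      linarith
  have hder : ∀ t ∈ Set.Icc (0 : ℝ) 1, HasDerivAt (fun t : ℝ => fderiv ℝ (PP β n Φ) (m + t • d) d)
      (fderiv ℝ (fderiv ℝ (PP β n Φ)) (m + t • d) d d) t := by
    intro t ht
    have h1 : HasDerivAt (fun t : ℝ => m + t • d) d t := by
      have := ((hasDerivAt_id t).smul_const d).const_add m
      simpa using this
    have h2 : HasFDerivAt (fderiv ℝ (PP β n Φ)) (fderiv ℝ (fderiv ℝ (PP β n Φ)) (m + t • d))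
        (m + t • d) :=
      ((contDiffAt_fderiv_PP hG (hseg t ht)).differentiableAt (by simp)).hasFDerivAt
    have h3 := h2.comp_hasDerivAt t h1
    have h4 := h3.clm_apply (hasDerivAt_const t d)
    simpa using h4
  have hmono : StrictMonoOn (fun t : ℝ => fderiv ℝ (PP β n Φ) (m + t • d) d) (Set.Icc 0 1) := by
    refine strictMonoOn_of_deriv_pos (convex_Icc 0 1)
      (fun t ht => (hder t ht).continuousAt.continuousWithinAt) ?_
    intro t ht
    have ht' : t ∈ Set.Icc (0 : ℝ) 1 := interior_subset ht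
    rw [(hder t ht').deriv]
    exact fderiv2_PP_pos hG hβ hβC (hseg t ht') hd0
  have h1 := hmono (Set.left_mem_Icc.2 zero_le_one) (Set.right_mem_Icc.2 zero_le_one) one_pos
  have e0 : m + (0 : ℝ) • d = m := by simp
  have e1 : m + (1 : ℝ) • d = m' := by simp [hd]
  simp only [e0, e1] at h1
  rw [grad_apply_sum, grad_apply_sum, h] at h1
  exact lt_irrefl _ h1

theorem grad_apply (hG : Good n Φ C) {m : Fin n → ℝ} (hm : ∀ i, 0 < m i) (i : Fin n) :
    grad β n Φ m i = Real.log (m i) + β * fderiv ℝ Φ m (Pi.single i 1) := by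
  unfold grad
  rw [(hasFDerivAt_PP hG hm).fderiv]
  simp [Pi.single_apply]

theorem isOpen_range_grad (hG : Good n Φ C) (hβ : 0 ≤ β) (hβC : β * C ≤ 1 / 3) :
    IsOpen (grad β n Φ '' {m | ∀ i, 0 < m i}) := by
  rw [isOpen_iff_mem_nhds]
  rintro _ ⟨m, hm, rfl⟩
  obtain ⟨A, hA⟩ := exists_equiv_grad hG hβ hβC hm
  have h1 : HasStrictFDerivAt (grad β n Φ) (A : (Fin n → ℝ) →L[ℝ] (Fin n → ℝ)) m :=
    (contDiffAt_grad hG hm).hasStrictFDerivAt' hA (by simp)
  rw [← h1.map_nhds_eq_of_equiv]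
  exact Filter.image_mem_map (orth_mem_nhds hm)

theorem isClosed_range_grad (hG : Good n Φ C) (hβ : 0 ≤ β) :
    IsClosed (grad β n Φ '' {m | ∀ i, 0 < m i}) := by
  obtain ⟨K, hK⟩ := hG.grad
  rw [← isSeqClosed_iff_isClosed]
  intro x u hx hxu
  choose m hm hmx using hx
  -- the compact box
  set B : Set (Fin n → ℝ) := Set.Icc (fun i => Real.exp (u i - 1 - β * K))
    (fun i => Real.exp (u i + 1 + β * K)) with hB
  have hBc : IsCompact B := isCompact_Icc
  have hBO : ∀ m ∈ B, ∀ i, 0 < m i := fun m hm i =>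
    lt_of_lt_of_le (Real.exp_pos _) (hm.1 i)
  have hcont : ContinuousOn (grad β n Φ) B := fun m hm =>
    (contDiffAt_grad hG (hBO m hm)).continuousAt.continuousWithinAt
  have hcl : IsClosed (grad β n Φ '' B) := (hBc.image_of_continuousOn hcont).isClosed
  have hev : ∀ᶠ k in atTop, x k ∈ grad β n Φ '' B := by
    have h1 : ∀ᶠ k in atTop, dist (x k) u < 1 :=
      hxu.eventually (Metric.ball_mem_nhds u one_pos)
    filter_upwards [h1] with k hk
    refine ⟨m k, ?_, hmx k⟩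
    have h2 : ∀ i, |Real.log (m k i) - u i| ≤ 1 + β * K := by
      intro i
      have h3 := grad_apply (β := β) hG (hm k) i
      rw [hmx k] at h3
      have h4 : |x k i - u i| ≤ 1 := by
        have := (dist_pi_lt_iff one_pos).1 hk i
        rw [Real.dist_eq] at this
        exact this.le
      have h5 := abs_le.1 (hK (m k) (hm k) i)
      have h6 := abs_le.1 h4
      have h7 := mul_le_mul_of_nonneg_left h5.1 hβ
      have h8 := mul_le_mul_of_nonneg_left h5.2 hβ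
      rw [abs_le]
      constructor <;> linarith
    constructor
    · intro i
      show Real.exp (u i - 1 - β * K) ≤ m k i
      rw [← Real.le_log_iff_exp_le (hm k i)]
      linarith [(abs_le.1 (h2 i)).1]
    · intro i
      show m k i ≤ Real.exp (u i + 1 + β * K)
      rw [← Real.log_le_iff_le_exp (hm k i)]
      linarith [(abs_le.1 (h2 i)).2]
  obtain ⟨m', hm', hmu⟩ := hcl.mem_of_tendsto hxu hev
  exact ⟨m', hBO m' hm', hmu⟩

theorem grad_surj (hG : Good n Φ C) (hβ : 0 ≤ β) (hβC : β * C ≤ 1 / 3) (u : Fin n → ℝ) :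
    ∃ m, (∀ i, 0 < m i) ∧ grad β n Φ m = u := by
  have h1 : grad β n Φ '' {m | ∀ i, 0 < m i} = Set.univ :=
    IsClopen.eq_univ ⟨isClosed_range_grad hG hβ, isOpen_range_grad hG hβ hβC⟩
      ⟨_, fun _ => 1, fun _ => one_pos, rfl⟩
  have h2 : u ∈ grad β n Φ '' {m | ∀ i, 0 < m i} := h1 ▸ Set.mem_univ u
  obtain ⟨m, hm, h⟩ := h2
  exact ⟨m, hm, h⟩

end LegAux

open LegAux in
theorem leg_exists {n : ℕ} {Φ : (Fin n → ℝ) → ℝ} {C β : ℝ} (hG : Good n Φ C) (hβ : 0 ≤ β)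
    (hβC : β * C ≤ 1 / 3) : ∃ M, IsLeg β n Φ M := by
  choose M hM hMu using grad_surj hG hβ hβC
  refine ⟨M, hM, ?_, fun u a => ?_⟩
  · rw [contDiff_iff_contDiffAt]
    intro u
    obtain ⟨A, hA⟩ := exists_equiv_grad hG hβ hβC (hM u)
    have hc := contDiffAt_grad (β := β) hG (hM u)
    have hn : (∞ : WithTop ℕ∞) ≠ 0 := by simp
    have h1 := hc.to_localInverse hA hn
    rw [hMu u] at h1
    refine h1.congr_of_eventuallyEq ?_
    have hs : HasStrictFDerivAt (grad β n Φ) (A : (Fin n → ℝ) →L[ℝ] (Fin n → ℝ)) (M u) :=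
      hc.hasStrictFDerivAt' hA hn
    have h2 : ∀ᶠ v in 𝓝 (grad β n Φ (M u)), grad β n Φ (hc.localInverse hA hn v) = v :=
      hs.eventually_right_inverse
    have h3 : ∀ᶠ v in 𝓝 (grad β n Φ (M u)), ∀ i, 0 < hc.localInverse hA hn v i := by
      have h4 : ContinuousAt (hc.localInverse hA hn) (grad β n Φ (M u)) :=
        (hc.to_localInverse hA hn).continuousAt
      have h5 : hc.localInverse hA hn (grad β n Φ (M u)) = M u := hc.localInverse_apply_image hA hn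
      exact h4.eventually (by rw [h5]; exact orth_mem_nhds (hM u))
    rw [hMu u] at h2 h3
    filter_upwards [h2, h3] with v hv hv'
    exact grad_injOn hG hβ hβC (hM v) hv' (by rw [hMu v, hv])
  · rw [grad_apply_sum, hMu]

end Pool.Agent.US
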