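import Pool.Agent.Helper91.US.Defs2

set_option autoImplicit false

/-! # Module B2 (LEGB): convexity estimates for the entropy functional -/

namespace Pool.Agent.US

open Finset Filter Topology
open scoped ContDiff

namespace LegB

theorem isOpen_orth (n : ℕ) : IsOpen {m : Fin n → ℝ | ∀ i, 0 < m i} := by
  have : {m : Fin n → ℝ | ∀ i, 0 < m i} = ⋂ i, {m : Fin n → ℝ | 0 < m i} := by
    ext m; simp
  rw [this]
  exact isOpen_iInter_of_finite (fun i => isOpen_lt continuous_const (continuous_apply i))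

/-- the entropy -/
noncomputable def E {n : ℕ} (m : Fin n → ℝ) : ℝ := ∑ i, (m i * Real.log (m i) - m i)

theorem continuous_E {n : ℕ} : Continuous (E : (Fin n → ℝ) → ℝ) := by
  unfold E
  refine continuous_finsetSum _ (fun i _ => ?_)
  exact (Real.continuous_mul_log.comp (continuous_apply i)).sub (continuous_apply i)

variable {n : ℕ} {Φ : (Fin n → ℝ) → ℝ} {C β : ℝ}

theorem smoothAt (hG : Good n Φ C) {m : Fin n → ℝ} (hm : ∀ i, 0 < m i) : ContDiffAt ℝ ∞ Φ m :=
  hG.smooth.contDiffAt ((isOpen_orth n).mem_nhds hm)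

theorem diffAt (hG : Good n Φ C) {m : Fin n → ℝ} (hm : ∀ i, 0 < m i) :
    DifferentiableAt ℝ Φ m :=
  (smoothAt hG hm).differentiableAt (by simp)

theorem diffAt2 (hG : Good n Φ C) {m : Fin n → ℝ} (hm : ∀ i, 0 < m i) :
    DifferentiableAt ℝ (fderiv ℝ Φ) m := by
  have h : ContDiffAt ℝ 1 (fderiv ℝ Φ) m :=
    (smoothAt hG hm).fderiv_right (m := 1) (by norm_cast)
  exact h.differentiableAt (by norm_num)

/-- derivative of the entropy along a line -/
theorem hasDerivAt_E (m d : Fin n → ℝ) (t : ℝ) (ht : ∀ i, 0 < m i + t * d i) :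
    HasDerivAt (fun s : ℝ => E (fun i => m i + s * d i))
      (∑ i, Real.log (m i + t * d i) * d i) t := by
  unfold E
  have h1 : ∀ i ∈ (univ : Finset (Fin n)), HasDerivAt
      (fun s : ℝ => (m i + s * d i) * Real.log (m i + s * d i) - (m i + s * d i))
      (Real.log (m i + t * d i) * d i) t := by
    intro i _
    have hl : HasDerivAt (fun s : ℝ => m i + s * d i) (d i) t := by
      simpa using ((hasDerivAt_id t).mul_const (d i)).const_add (m i)
    have hml : HasDerivAt (fun x : ℝ => x * Real.log x) (Real.log (m i + t * d i) + 1)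
        (m i + t * d i) := Real.hasDerivAt_mul_log (ht i).ne'
    have := (hml.comp t hl).sub hl
    refine this.congr_deriv ?_
    ring
  exact HasDerivAt.fun_sum h1

theorem hasDerivAt_E' (m d : Fin n → ℝ) (t : ℝ) (ht : ∀ i, 0 < m i + t * d i) :
    HasDerivAt (fun s : ℝ => ∑ i, Real.log (m i + s * d i) * d i)
      (∑ i, d i ^ 2 / (m i + t * d i)) t := by
  have h1 : ∀ i ∈ (univ : Finset (Fin n)), HasDerivAt
      (fun s : ℝ => Real.log (m i + s * d i) * d i)
      (d i ^ 2 / (m i + t * d i)) t := by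
    intro i _
    have hl : HasDerivAt (fun s : ℝ => m i + s * d i) (d i) t := by
      simpa using ((hasDerivAt_id t).mul_const (d i)).const_add (m i)
    have := (hl.log (ht i).ne').mul_const (d i)
    refine this.congr_deriv ?_
    ring
  exact HasDerivAt.fun_sum h1

theorem hasDerivAt_line (m d : Fin n → ℝ) (t : ℝ) :
    HasDerivAt (fun s : ℝ => (fun i => m i + s * d i : Fin n → ℝ)) d t := by
  rw [hasDerivAt_pi]
  intro i
  simpa using ((hasDerivAt_id t).mul_const (d i)).const_add (m i)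

theorem hasDerivAt_Phi (hG : Good n Φ C) (m d : Fin n → ℝ) (t : ℝ)
    (ht : ∀ i, 0 < m i + t * d i) :
    HasDerivAt (fun s : ℝ => Φ (fun i => m i + s * d i))
      (fderiv ℝ Φ (fun i => m i + t * d i) d) t :=
  (diffAt hG ht).hasFDerivAt.comp_hasDerivAt t (hasDerivAt_line m d t)

theorem hasDerivAt_Phi' (hG : Good n Φ C) (m d : Fin n → ℝ) (t : ℝ)
    (ht : ∀ i, 0 < m i + t * d i) :
    HasDerivAt (fun s : ℝ => fderiv ℝ Φ (fun i => m i + s * d i) d)
      (fderiv ℝ (fderiv ℝ Φ) (fun i => m i + t * d i) d d) t := by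
  have h := (diffAt2 hG ht).hasFDerivAt.comp_hasDerivAt t (hasDerivAt_line m d t)
  have h2 : HasDerivAt (fun s : ℝ => fderiv ℝ Φ (fun i => m i + s * d i) d)
      (fderiv ℝ (fderiv ℝ Φ) (fun i => m i + t * d i) d d
        + fderiv ℝ Φ (fun i => m i + t * d i) 0) t :=
    HasDerivAt.clm_apply (c := fun s : ℝ => fderiv ℝ Φ (fun i => m i + s * d i))
      (u := fun _ : ℝ => d) h (hasDerivAt_const t d)
  simpa using h2

theorem second_nonneg (hG : Good n Φ C) {a b : ℝ} (hab : |b| * C ≤ a) {m : Fin n → ℝ}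
    (hm : ∀ i, 0 < m i) (d : Fin n → ℝ) :
    0 ≤ a * ∑ i, d i ^ 2 / m i + b * fderiv ℝ (fderiv ℝ Φ) m d d := by
  have h := hG.h2 m hm (fun i => d i / m i)
  have e1 : (fun i => m i * (d i / m i)) = d := by
    ext i
    have := (hm i).ne'
    field_simp
  rw [e1] at h
  have e2 : ∑ i, m i * (d i / m i) ^ 2 = ∑ i, d i ^ 2 / m i := by
    refine Finset.sum_congr rfl (fun i _ => ?_)
    have := (hm i).ne'
    field_simp
  rw [e2] at h
  have hs : 0 ≤ ∑ i, d i ^ 2 / m i :=
    Finset.sum_nonneg (fun i _ => div_nonneg (sq_nonneg _) (hm i).le)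
  have h3 : |b * fderiv ℝ (fderiv ℝ Φ) m d d| ≤ a * ∑ i, d i ^ 2 / m i := by
    rw [abs_mul]
    calc |b| * |fderiv ℝ (fderiv ℝ Φ) m d d| ≤ |b| * (C * ∑ i, d i ^ 2 / m i) :=
          mul_le_mul_of_nonneg_left h (abs_nonneg b)
      _ = (|b| * C) * ∑ i, d i ^ 2 / m i := by ring
      _ ≤ a * ∑ i, d i ^ 2 / m i := mul_le_mul_of_nonneg_right hab hs
  have := (abs_le.1 h3).1
  linarith

/-- the convexity inequality, interior case -/
theorem conv_int (hG : Good n Φ C) {a b : ℝ} (hab : |b| * C ≤ a) {m m' : Fin n → ℝ}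
    (hm : ∀ i, 0 < m i) (hm' : ∀ i, 0 < m' i) :
    a * E m + b * Φ m + (a * ∑ i, Real.log (m i) * (m' i - m i)
      + b * fderiv ℝ Φ m (fun i => m' i - m i)) ≤ a * E m' + b * Φ m' := by
  set d : Fin n → ℝ := fun i => m' i - m i with hd
  have hpos : ∀ t ∈ Set.Icc (0 : ℝ) 1, ∀ i, 0 < m i + t * d i := by
    intro t ht i
    have h1 : m i + t * d i = (1 - t) * m i + t * m' i := by simp only [hd]; ring
    rw [h1]
    rcases eq_or_lt_of_le ht.1 with h0 | h0
    · rw [← h0]; simpa using hm i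
    · have h2 : 0 ≤ (1 - t) * m i := mul_nonneg (by linarith [ht.2]) (hm i).le
      have h3 : 0 < t * m' i := mul_pos h0 (hm' i)
      linarith
  set q : ℝ → ℝ := fun t => a * E (fun i => m i + t * d i) + b * Φ (fun i => m i + t * d i) with hq
  set q' : ℝ → ℝ := fun t => a * (∑ i, Real.log (m i + t * d i) * d i)
    + b * fderiv ℝ Φ (fun i => m i + t * d i) d with hq'
  set q'' : ℝ → ℝ := fun t => a * (∑ i, d i ^ 2 / (m i + t * d i))
    + b * fderiv ℝ (fderiv ℝ Φ) (fun i => m i + t * d i) d d with hq''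
  have h1 : ∀ t ∈ Set.Icc (0 : ℝ) 1, HasDerivAt q (q' t) t := fun t ht =>
    ((hasDerivAt_E m d t (hpos t ht)).const_mul a).add
      ((hasDerivAt_Phi hG m d t (hpos t ht)).const_mul b)
  have h2 : ∀ t ∈ Set.Icc (0 : ℝ) 1, HasDerivAt q' (q'' t) t := fun t ht =>
    ((hasDerivAt_E' m d t (hpos t ht)).const_mul a).add
      ((hasDerivAt_Phi' hG m d t (hpos t ht)).const_mul b)
  have h3 : ∀ t ∈ Set.Icc (0 : ℝ) 1, 0 ≤ q'' t := fun t ht =>
    second_nonneg hG hab (hpos t ht) d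
  -- monotonicity of q'
  have hmono : MonotoneOn q' (Set.Icc 0 1) := by
    refine monotoneOn_of_deriv_nonneg (convex_Icc 0 1)
      (fun t ht => (h2 t ht).continuousAt.continuousWithinAt)
      (fun t ht => ?_) (fun t ht => ?_)
    · rw [interior_Icc] at ht
      exact (h2 t ⟨ht.1.le, ht.2.le⟩).differentiableAt.differentiableWithinAt
    · rw [interior_Icc] at ht
      rw [(h2 t ⟨ht.1.le, ht.2.le⟩).deriv]
      exact h3 t ⟨ht.1.le, ht.2.le⟩
  obtain ⟨ξ, hξ, hξ2⟩ := exists_hasDerivAt_eq_slope q q' (zero_lt_one)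
    (fun t ht => (h1 t ht).continuousAt.continuousWithinAt)
    (fun t ht => h1 t ⟨ht.1.le, ht.2.le⟩)
  have h4 : q' 0 ≤ q' ξ := hmono ⟨le_refl _, zero_le_one⟩ ⟨hξ.1.le, hξ.2.le⟩ hξ.1.le
  have h5 : q' 0 ≤ q 1 - q 0 := by
    rw [hξ2] at h4
    simpa using h4
  have e0 : (fun i => m i + (0 : ℝ) * d i) = m := by ext i; simp
  have e1 : (fun i => m i + (1 : ℝ) * d i) = m' := by ext i; simp [hd]
  have hq0 : q 0 = a * E m + b * Φ m := by simp only [hq, e0]
  have hq1 : q 1 = a * E m' + b * Φ m' := by simp only [hq, e1]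
  have hq'0 : q' 0 = a * (∑ i, Real.log (m i) * d i) + b * fderiv ℝ Φ m d := by
    simp only [hq', e0]
    simp
  rw [hq0, hq1, hq'0] at h5
  have e6 : ∑ i, Real.log (m i) * d i = ∑ i, Real.log (m i) * (m' i - m i) := rfl
  rw [e6] at h5
  linarith

/-- the convexity inequality, with the second point in the closed orthant -/
theorem conv_clo (hG : Good n Φ C) {a b : ℝ} (hab : |b| * C ≤ a) {m m' : Fin n → ℝ}
    (hm : ∀ i, 0 < m i) (hm' : ∀ i, 0 ≤ m' i) :
    a * E m + b * Φ m + (a * ∑ i, Real.log (m i) * (m' i - m i)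
      + b * fderiv ℝ Φ m (fun i => m' i - m i)) ≤ a * E m' + b * Φ m' := by
  have hline : Tendsto (fun s : ℝ => (fun i => m' i + s * 1 : Fin n → ℝ)) (𝓝[>] 0) (𝓝 m') := by
    have h0 : Tendsto (fun s : ℝ => (fun i => m' i + s * 1 : Fin n → ℝ)) (𝓝 0)
        (𝓝 (fun i => m' i + 0 * 1)) := by
      have hc : Continuous (fun s : ℝ => (fun i => m' i + s * 1 : Fin n → ℝ)) := by fun_prop
      exact hc.tendsto 0
    have e : (fun i => m' i + 0 * 1 : Fin n → ℝ) = m' := by ext i; simp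
    rw [e] at h0
    exact h0.mono_left nhdsWithin_le_nhds
  have hmem : ∀ᶠ s in 𝓝[>] (0 : ℝ), ∀ i, 0 < m' i + s * 1 := by
    filter_upwards [self_mem_nhdsWithin] with s hs i
    have : (0 : ℝ) < s := hs
    have := hm' i
    linarith
  have hR : Tendsto (fun s : ℝ => a * E (fun i => m' i + s * 1) + b * Φ (fun i => m' i + s * 1))
      (𝓝[>] 0) (𝓝 (a * E m' + b * Φ m')) := by
    refine ((continuous_E.continuousAt.tendsto.comp hline).const_mul a).add (Tendsto.const_mul b ?_)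
    have hcw : ContinuousWithinAt Φ {m | ∀ i, 0 ≤ m i} m' := hG.cont m' hm'
    refine hcw.tendsto.comp ?_
    rw [tendsto_nhdsWithin_iff]
    refine ⟨hline, ?_⟩
    filter_upwards [hmem] with s hs i
    exact (hs i).le
  have hL : Tendsto (fun s : ℝ => a * E m + b * Φ m
      + (a * ∑ i, Real.log (m i) * ((m' i + s * 1) - m i)
      + b * fderiv ℝ Φ m (fun i => (m' i + s * 1) - m i)))
      (𝓝[>] 0) (𝓝 (a * E m + b * Φ m + (a * ∑ i, Real.log (m i) * (m' i - m i)
      + b * fderiv ℝ Φ m (fun i => m' i - m i)))) := by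
    have hc : Continuous (fun x : Fin n → ℝ => a * E m + b * Φ m
        + (a * ∑ i, Real.log (m i) * (x i - m i)
        + b * fderiv ℝ Φ m (fun i => x i - m i))) := by
      have : Continuous (fun x : Fin n → ℝ => (fun i => x i - m i : Fin n → ℝ)) := by fun_prop
      have h2 : Continuous (fun x : Fin n → ℝ => fderiv ℝ Φ m (fun i => x i - m i)) :=
        (fderiv ℝ Φ m).continuous.comp this
      fun_prop
    exact (hc.tendsto m').comp hline
  refine le_of_tendsto_of_tendsto hL hR ?_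
  filter_upwards [hmem] with s hs
  exact conv_int hG hab hm hs

theorem fderiv_PP (hG : Good n Φ C) {m : Fin n → ℝ} (hm : ∀ i, 0 < m i) (d : Fin n → ℝ) :
    fderiv ℝ (PP β n Φ) m d = ∑ i, Real.log (m i) * d i + β * fderiv ℝ Φ m d := by
  have hdE : DifferentiableAt ℝ (fun m : Fin n → ℝ => ∑ i, (m i * Real.log (m i) - m i)) m := by
    have h1 : ∀ i ∈ (univ : Finset (Fin n)), DifferentiableAt ℝ
        (fun m : Fin n → ℝ => m i * Real.log (m i) - m i) m := by
      intro i _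
      have hi : DifferentiableAt ℝ (fun m : Fin n → ℝ => m i) m := by fun_prop
      exact (hi.mul (hi.log (hm i).ne')).sub hi
    exact DifferentiableAt.fun_sum h1
  have hdP : DifferentiableAt ℝ (PP β n Φ) m := by
    unfold PP
    exact hdE.add ((diffAt hG hm).const_mul β)
  have hl := hasDerivAt_line m d 0
  have e0 : (fun i => m i + (0 : ℝ) * d i) = m := by ext i; simp
  have h1 : HasDerivAt (fun s : ℝ => PP β n Φ (fun i => m i + s * d i)) (fderiv ℝ (PP β n Φ) m d) 0 := by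
    have hdP' : DifferentiableAt ℝ (PP β n Φ) (fun i => m i + (0 : ℝ) * d i) := by rw [e0]; exact hdP
    have := hdP'.hasFDerivAt.comp_hasDerivAt 0 hl
    rw [e0] at this
    exact this
  have hpos : ∀ i, 0 < m i + (0 : ℝ) * d i := fun i => by simpa using hm i
  have h2 : HasDerivAt (fun s : ℝ => PP β n Φ (fun i => m i + s * d i))
      (∑ i, Real.log (m i + 0 * d i) * d i
        + β * fderiv ℝ Φ (fun i => m i + (0 : ℝ) * d i) d) 0 :=
    (hasDerivAt_E m d 0 hpos).add ((hasDerivAt_Phi hG m d 0 hpos).const_mul β)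
  rw [h1.unique h2, e0]
  simp

theorem PP_eq (m : Fin n → ℝ) : PP β n Φ m = E m + β * Φ m := rfl

end LegB

theorem leg_lower {n : ℕ} {Φ : (Fin n → ℝ) → ℝ} {C β : ℝ} (hG : Good n Φ C) (hβ : 0 ≤ β)
    (hβC : β * C ≤ 1 / 3) {m m' : Fin n → ℝ} (hm : ∀ i, 0 < m i) (hm' : ∀ i, 0 ≤ m' i) :
    PP β n Φ m + fderiv ℝ (PP β n Φ) m (fun i => m' i - m i) ≤ PP β n Φ m' := by
  have h := LegB.conv_clo hG (a := 1) (b := β) (by rw [abs_of_nonneg hβ]; linarith) hm hm'
  rw [LegB.fderiv_PP hG hm, LegB.PP_eq, LegB.PP_eq]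
  linarith

theorem leg_upper {n : ℕ} {Φ : (Fin n → ℝ) → ℝ} {C β : ℝ} (hG : Good n Φ C) (hβ : 0 ≤ β)
    (hβC : β * C ≤ 1 / 3) {m m' : Fin n → ℝ} (hm : ∀ i, 0 < m i) (hm' : ∀ i, 0 ≤ m' i) :
    PP β n Φ m' ≤ PP β n Φ m + fderiv ℝ (PP β n Φ) m (fun i => m' i - m i)
      + 4 / 3 * ∑ i, (m' i * Real.log (m' i / m i) - m' i + m i) := by
  have h := LegB.conv_clo hG (a := 1 / 3) (b := -β)
    (by rw [abs_neg, abs_of_nonneg hβ]; linarith) hm hm'
  rw [LegB.fderiv_PP hG hm, LegB.PP_eq, LegB.PP_eq]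
  have e : ∑ i, (m' i * Real.log (m' i / m i) - m' i + m i)
      = LegB.E m' - LegB.E m - ∑ i, Real.log (m i) * (m' i - m i) := by
    unfold LegB.E
    rw [← Finset.sum_sub_distrib, ← Finset.sum_sub_distrib]
    refine Finset.sum_congr rfl (fun i _ => ?_)
    rcases eq_or_lt_of_le (hm' i) with h0 | h0
    · rw [← h0]; simp; ring
    · rw [Real.log_div h0.ne' (hm i).ne']
      ring
  rw [e]
  linarith

theorem leg_euler {n : ℕ} {Φ : (Fin n → ℝ) → ℝ} {C β : ℝ} (hG : Good n Φ C)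
    {m : Fin n → ℝ} (hm : ∀ i, 0 < m i) :
    fderiv ℝ (PP β n Φ) m m = PP β n Φ m + ∑ i, m i := by
  have h1 : HasDerivAt (fun s : ℝ => Φ (fun i => m i + s * m i)) (fderiv ℝ Φ m m) 0 := by
    have hpos : ∀ i, 0 < m i + (0 : ℝ) * m i := fun i => by simpa using hm i
    have := LegB.hasDerivAt_Phi hG m m 0 hpos
    have e0 : (fun i => m i + (0 : ℝ) * m i) = m := by ext i; simp
    rw [e0] at this
    exact this
  have h2 : HasDerivAt (fun s : ℝ => Φ (fun i => m i + s * m i)) (Φ m) 0 := by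
    have h3 : HasDerivAt (fun s : ℝ => (1 + s) * Φ m) (Φ m) 0 := by
      simpa using ((hasDerivAt_id (0 : ℝ)).const_add 1).mul_const (Φ m)
    refine h3.congr_of_eventuallyEq ?_
    have hev : ∀ᶠ s in 𝓝 (0 : ℝ), (-1 : ℝ) < s := lt_mem_nhds (by norm_num)
    filter_upwards [hev] with s hs
    have := hG.hom m (fun i => (hm i).le) (1 + s) (by linarith)
    rw [← this]
    congr 1
    ext i
    ring
  have h3 := h1.unique h2
  rw [LegB.fderiv_PP hG hm, h3]
  unfold PP
  have : ∑ i, Real.log (m i) * m i = ∑ i, (m i * Real.log (m i) - m i) + ∑ i, m i := by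
    rw [← Finset.sum_add_distrib]
    refine Finset.sum_congr rfl (fun i _ => ?_)
    ring
  rw [this]
  ring

end Pool.Agent.US
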