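import Pool.Agent.Helper91.US.VMix

set_option autoImplicit false

namespace Pool.Agent.US

open Finset Filter Topology

theorem Dsum_nonneg {n : ℕ} {m : ℕ → ℝ} (hm : ∀ i, 0 ≤ m i) : 0 ≤ Dsum n m :=
  Finset.sum_nonneg (fun i _ => mul_nonneg (hm i) (V_nonneg i m))

theorem Dsum_extend {n n' : ℕ} {m : ℕ → ℝ} (hnn : n ≤ n') (hm : ∀ i, n ≤ i → m i = 0) :
    Dsum n' m = Dsum n m := by
  unfold Dsum
  symm
  refine Finset.sum_subset (Finset.range_mono hnn) (fun i _ hi => ?_)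
  rw [Finset.mem_range, not_lt] at hi
  rw [hm i hi, zero_mul]

theorem JJ_extend {β : ℝ} {n n' : ℕ} {m z : ℕ → ℝ} (hnn : n ≤ n') (hm : ∀ i, n ≤ i → m i = 0) :
    JJ β n' m z = JJ β n m z := by
  unfold JJ
  rw [Dsum_extend hnn hm]
  congr 1
  symm
  refine Finset.sum_subset (Finset.range_mono hnn) (fun i _ hi => ?_)
  rw [Finset.mem_range, not_lt] at hi
  rw [hm i hi]; simp

/-- the value does not depend on the cut-off. -/
theorem JJ_eq_of_supp {β : ℝ} {n n' : ℕ} {m z : ℕ → ℝ} (hm : ∀ i, n ≤ i → m i = 0)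
    (hm' : ∀ i, n' ≤ i → m i = 0) : JJ β n' m z = JJ β n m z := by
  rcases le_total n n' with h | h
  · exact JJ_extend h hm
  · exact (JJ_extend h hm').symm

theorem Adm_restrict {n n' : ℕ} {m z : ℕ → ℝ} (h : Adm n' m z) (hz : ∀ i, n ≤ i → z i = 0) :
    Adm n m z := ⟨h.1, h.2.1, fun i hi => h.2.1 i (hz i hi)⟩

theorem Adm_zero (n : ℕ) (z : ℕ → ℝ) : Adm n (fun _ => 0) z :=
  ⟨fun _ => le_rfl, fun _ _ => rfl, fun _ _ => rfl⟩

theorem JJ_zero (β : ℝ) (n : ℕ) (z : ℕ → ℝ) : JJ β n (fun _ => 0) z = 0 := by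
  unfold JJ Dsum; simp

theorem NN_le_of {β : ℝ} {n : ℕ} {z : ℕ → ℝ} (hz : ∀ i, n ≤ i → z i = 0) {B : ℝ}
    (h : ∀ m, Adm n m z → JJ β n m z ≤ B) : NN β z ≤ B := by
  refine csSup_le ⟨0, 0, fun _ => 0, Adm_zero 0 z, (JJ_zero β 0 z).symm⟩ ?_
  rintro r ⟨n', m, hm, rfl⟩
  have hm' := Adm_restrict hm hz
  rw [JJ_eq_of_supp hm'.2.2 hm.2.2]
  exact h m hm'

theorem term_le {a z : ℝ} (ha : 0 ≤ a) (hz : 0 ≤ z) (h : z = 0 → a = 0) :
    a * Real.log z - a * Real.log a + a ≤ z := by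
  rcases ha.eq_or_lt with h0 | h0
  · rw [← h0]; simpa using hz
  · have hz' : 0 < z := by
      rcases hz.eq_or_lt with h1 | h1
      · exact absurd (h h1.symm) h0.ne'
      · exact h1
    have h1 : Real.log (z / a) ≤ z / a - 1 := Real.log_le_sub_one_of_pos (div_pos hz' h0)
    rw [Real.log_div hz'.ne' h0.ne'] at h1
    have h2 : a * (Real.log z - Real.log a) ≤ a * (z / a - 1) :=
      mul_le_mul_of_nonneg_left h1 h0.le
    have h3 : a * (z / a - 1) = z - a := by field_simp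
    linarith

theorem JJ_le_sum {β : ℝ} (hβ : 0 ≤ β) {n : ℕ} {m z : ℕ → ℝ} (hz0 : ∀ i, 0 ≤ z i)
    (hm : Adm n m z) : JJ β n m z ≤ ∑ i ∈ range n, z i := by
  unfold JJ
  have h1 : ∑ i ∈ range n, (m i * Real.log (z i) - m i * Real.log (m i) + m i) ≤
      ∑ i ∈ range n, z i :=
    Finset.sum_le_sum (fun i _ => term_le (hm.1 i) (hz0 i) (hm.2.1 i))
  have h2 := mul_nonneg hβ (Dsum_nonneg (n := n) hm.1)
  linarith

theorem NN_bddAbove {β : ℝ} (hβ : 0 ≤ β) {n : ℕ} {z : ℕ → ℝ} (hz0 : ∀ i, 0 ≤ z i)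
    (hz : ∀ i, n ≤ i → z i = 0) :
    BddAbove {r : ℝ | ∃ (n : ℕ) (m : ℕ → ℝ), Adm n m z ∧ r = JJ β n m z} := by
  refine ⟨∑ i ∈ range n, z i, ?_⟩
  rintro r ⟨n', m, hm, rfl⟩
  have hm' := Adm_restrict hm hz
  rw [JJ_eq_of_supp hm'.2.2 hm.2.2]
  exact JJ_le_sum hβ hz0 hm'

theorem le_NN {β : ℝ} (hβ : 0 ≤ β) {n : ℕ} {m z : ℕ → ℝ} (hz0 : ∀ i, 0 ≤ z i)
    (hz : ∀ i, n ≤ i → z i = 0) (hm : Adm n m z) : JJ β n m z ≤ NN β z :=
  le_csSup (NN_bddAbove hβ hz0 hz) ⟨n, m, hm, rfl⟩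

theorem NN_nonneg (β : ℝ) (z : ℕ → ℝ) : 0 ≤ NN β z := by
  unfold NN
  by_cases h : BddAbove {r : ℝ | ∃ (n : ℕ) (m : ℕ → ℝ), Adm n m z ∧ r = JJ β n m z}
  · exact le_csSup h ⟨0, fun _ => 0, Adm_zero 0 z, (JJ_zero β 0 z).symm⟩
  · rw [Real.sSup_of_not_bddAbove h]

theorem NN_le_sum {β : ℝ} (hβ : 0 ≤ β) {n : ℕ} {z : ℕ → ℝ} (hz0 : ∀ i, 0 ≤ z i)
    (hz : ∀ i, n ≤ i → z i = 0) : NN β z ≤ ∑ i ∈ range n, z i :=
  NN_le_of hz (fun _ hm => JJ_le_sum hβ hz0 hm)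

theorem NN_mono {β : ℝ} (hβ : 0 ≤ β) {z z' : ℕ → ℝ} (hz0 : ∀ i, 0 ≤ z i)
    (hzz : ∀ i, z i ≤ z' i) (hz' : ∃ n, ∀ i, n ≤ i → z' i = 0) : NN β z ≤ NN β z' := by
  obtain ⟨n, hn⟩ := hz'
  have hz : ∀ i, n ≤ i → z i = 0 := fun i hi => le_antisymm ((hzz i).trans (hn i hi).le) (hz0 i)
  refine NN_le_of hz (fun m hm => ?_)
  have hm' : Adm n m z' := ⟨hm.1, fun i hi => hm.2.1 i
    (le_antisymm ((hzz i).trans hi.le) (hz0 i)), hm.2.2⟩
  refine le_trans ?_ (le_NN hβ (fun i => (hz0 i).trans (hzz i)) hn hm')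
  unfold JJ
  refine sub_le_sub_right (Finset.sum_le_sum (fun i _ => ?_)) _
  rcases (hm.1 i).eq_or_lt with h | h
  · rw [← h]; simp
  · have hzi : 0 < z i := by
      rcases (hz0 i).eq_or_lt with h1 | h1
      · exact absurd (hm.2.1 i h1.symm) h.ne'
      · exact h1
    have := mul_le_mul_of_nonneg_left (Real.log_le_log hzi (hzz i)) h.le
    linarith

theorem NN_zero (β : ℝ) : NN β (fun _ => 0) = 0 := by
  refine le_antisymm (NN_le_of (n := 0) (fun _ _ => rfl) (fun m hm => ?_)) (NN_nonneg _ _)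
  unfold JJ Dsum
  simp

/-- scaling of the functional. -/
theorem JJ_smul_mass {β : ℝ} {n : ℕ} {m : ℕ → ℝ} (hm : ∀ i, 0 ≤ m i) (z : ℕ → ℝ) {s : ℝ}
    (hs : 0 < s) : JJ β n (fun i => s * m i) z =
      s * JJ β n m z - s * Real.log s * ∑ i ∈ range n, m i := by
  unfold JJ Dsum
  have h1 : ∀ i, s * m i * V i (fun j => s * m j) = s * (m i * V i m) := by
    intro i
    rcases (hm i).eq_or_lt with h | h
    · rw [← h]; ring
    · rw [V_smul hm h hs]; ring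
  have h2 : ∀ i, s * m i * Real.log (z i) - s * m i * Real.log (s * m i) + s * m i =
      s * (m i * Real.log (z i) - m i * Real.log (m i) + m i) - s * Real.log s * m i := by
    intro i
    rcases (hm i).eq_or_lt with h | h
    · rw [← h]; ring
    · rw [Real.log_mul hs.ne' h.ne']; ring
  simp only [h1, h2]
  rw [Finset.sum_sub_distrib, ← Finset.mul_sum, ← Finset.mul_sum, ← Finset.mul_sum]
  ring

theorem JJ_smul_z {β : ℝ} {n : ℕ} {m z : ℕ → ℝ} {c : ℝ} (hc : 0 < c)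
    (hmz : ∀ i, z i = 0 → m i = 0) : JJ β n m (fun i => c * z i) =
      JJ β n m z + Real.log c * ∑ i ∈ range n, m i := by
  unfold JJ
  have h2 : ∀ i, m i * Real.log (c * z i) - m i * Real.log (m i) + m i =
      (m i * Real.log (z i) - m i * Real.log (m i) + m i) + Real.log c * m i := by
    intro i
    by_cases h : z i = 0
    · rw [hmz i h]; ring
    · rw [Real.log_mul hc.ne' h]; ring
  simp only [h2]
  rw [Finset.sum_add_distrib, ← Finset.mul_sum]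
  ring

theorem NN_smul_le {β : ℝ} (hβ : 0 ≤ β) {c : ℝ} (hc : 0 < c) {z : ℕ → ℝ} (hz0 : ∀ i, 0 ≤ z i)
    {n : ℕ} (hz : ∀ i, n ≤ i → z i = 0) : NN β (fun i => c * z i) ≤ c * NN β z := by
  refine NN_le_of (n := n) (fun i hi => by rw [hz i hi, mul_zero]) (fun m hm => ?_)
  -- m = c • m'
  have hm0 : ∀ i, z i = 0 → m i = 0 := fun i hi => hm.2.1 i (by show c * z i = 0; rw [hi, mul_zero])
  have hAdm : Adm n (fun i => c⁻¹ * m i) z :=
    ⟨fun i => mul_nonneg (inv_nonneg.2 hc.le) (hm.1 i),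
      fun i hi => by show c⁻¹ * m i = 0; rw [hm0 i hi, mul_zero],
      fun i hi => by show c⁻¹ * m i = 0; rw [hm.2.2 i hi, mul_zero]⟩
  have h1 := le_NN hβ hz0 hz hAdm
  rw [JJ_smul_mass hm.1 z (inv_pos.2 hc)] at h1
  rw [JJ_smul_z hc hm0]
  rw [Real.log_inv] at h1
  have h2 := mul_le_mul_of_nonneg_left h1 hc.le
  have h3 : c * (c⁻¹ * JJ β n m z - c⁻¹ * -Real.log c * ∑ i ∈ range n, m i) =
      JJ β n m z + Real.log c * ∑ i ∈ range n, m i := by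
    field_simp
    ring
  linarith

theorem NN_smul {β : ℝ} (hβ : 0 ≤ β) {c : ℝ} (hc : 0 ≤ c) {z : ℕ → ℝ} (hz0 : ∀ i, 0 ≤ z i)
    (hz : ∃ n, ∀ i, n ≤ i → z i = 0) : NN β (fun i => c * z i) = c * NN β z := by
  obtain ⟨n, hn⟩ := hz
  rcases hc.eq_or_lt with h | h
  · rw [← h]
    simp only [zero_mul]
    exact NN_zero β
  · refine le_antisymm (NN_smul_le hβ h hz0 hn) ?_
    have h1 := NN_smul_le (β := β) hβ (inv_pos.2 h) (z := fun i => c * z i)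
      (fun i => mul_nonneg hc (hz0 i)) (n := n) (fun i hi => by rw [hn i hi, mul_zero])
    have h2 : (fun i => c⁻¹ * (c * z i)) = z := by
      funext i
      rw [← mul_assoc, inv_mul_cancel₀ h.ne', one_mul]
    rw [h2] at h1
    calc c * NN β z ≤ c * (c⁻¹ * NN β fun i => c * z i) := mul_le_mul_of_nonneg_left h1 hc
      _ = NN β (fun i => c * z i) := by rw [← mul_assoc, mul_inv_cancel₀ h.ne', one_mul]

theorem le_NN_single {β : ℝ} (hβ : 0 ≤ β) {z : ℕ → ℝ} (hz0 : ∀ i, 0 ≤ z i)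
    (hz : ∃ n, ∀ i, n ≤ i → z i = 0) (i : ℕ) : z i ≤ NN β z := by
  obtain ⟨n, hn⟩ := hz
  set n' := max n (i + 1) with hn'
  have hAdm : Adm n' (fun j => if j = i then z i else 0) z := by
    refine ⟨fun j => ?_, fun j hj => ?_, fun j hj => ?_⟩ <;> beta_reduce
    · split_ifs
      · exact hz0 i
      · exact le_rfl
    · split_ifs with h
      · rw [← h]; exact hj
      · rfl
    · rw [if_neg (by omega)]
  have h1 := le_NN hβ hz0 (fun j hj => hn j (by omega)) hAdm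
  refine le_trans (le_of_eq ?_) h1
  unfold JJ Dsum
  have hi : i ∈ range n' := Finset.mem_range.2 (by omega)
  rw [Finset.sum_eq_single_of_mem i hi (fun j _ hj => by simp [hj]),
    Finset.sum_eq_single_of_mem i hi (fun j _ hj => by simp [hj])]
  simp only [if_true]
  rw [V_single (fun j hj => by rw [if_neg (by omega)])]
  ring

theorem pow4_fin {x : ℕ → ℝ} (hx : ∃ n, ∀ i, n ≤ i → x i = 0) :
    ∃ n, ∀ i, n ≤ i → x i ^ 4 = 0 := by
  obtain ⟨n, hn⟩ := hx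
  exact ⟨n, fun i hi => by rw [hn i hi]; norm_num⟩

theorem nrm_pow_four {β : ℝ} (hβ : 0 ≤ β) (x : ℕ → ℝ) (hx : ∃ n, ∀ i, n ≤ i → x i = 0) :
    nrm β x ^ 4 = NN β (fun i => x i ^ 4) := by
  unfold nrm
  rw [← Real.rpow_natCast, ← Real.rpow_mul (NN_nonneg _ _)]
  norm_num

theorem nrm_nonneg (β : ℝ) (x : ℕ → ℝ) : 0 ≤ nrm β x := Real.rpow_nonneg (NN_nonneg _ _) _

theorem nrm_zero (β : ℝ) : nrm β (fun _ => 0) = 0 := by
  unfold nrm
  have : (fun _ : ℕ => (0 : ℝ) ^ 4) = fun _ => 0 := by funext i; norm_num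
  rw [this, NN_zero, Real.zero_rpow (by norm_num)]

theorem nrm_mono {β : ℝ} (hβ : 0 ≤ β) {x y : ℕ → ℝ} (h : ∀ i, |x i| ≤ |y i|)
    (hy : ∃ n, ∀ i, n ≤ i → y i = 0) : nrm β x ≤ nrm β y := by
  unfold nrm
  refine Real.rpow_le_rpow (NN_nonneg _ _) ?_ (by norm_num)
  refine NN_mono hβ (fun i => by positivity) (fun i => ?_) (pow4_fin hy)
  have := pow_le_pow_left₀ (abs_nonneg _) (h i) 4
  rwa [show |x i| ^ 4 = x i ^ 4 from Even.pow_abs (by decide) _,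
    show |y i| ^ 4 = y i ^ 4 from Even.pow_abs (by decide) _] at this

theorem nrm_smul {β : ℝ} (hβ : 0 ≤ β) (c : ℝ) (x : ℕ → ℝ) (hx : ∃ n, ∀ i, n ≤ i → x i = 0) :
    nrm β (fun i => c * x i) = |c| * nrm β x := by
  unfold nrm
  have h1 : (fun i => (c * x i) ^ 4) = fun i => c ^ 4 * x i ^ 4 := by funext i; ring
  rw [h1, NN_smul hβ (by positivity) (fun i => by positivity) (pow4_fin hx),
    Real.mul_rpow (by positivity) (NN_nonneg _ _)]
  congr 1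
  rw [← Even.pow_abs (by decide) c, ← Real.rpow_natCast, ← Real.rpow_mul (abs_nonneg c)]
  norm_num

theorem abs_le_nrm {β : ℝ} (hβ : 0 ≤ β) (x : ℕ → ℝ) (hx : ∃ n, ∀ i, n ≤ i → x i = 0) (i : ℕ) :
    |x i| ≤ nrm β x := by
  have h1 := le_NN_single hβ (z := fun i => x i ^ 4) (fun i => by positivity) (pow4_fin hx) i
  rw [← nrm_pow_four hβ x hx] at h1
  rw [← Even.pow_abs (by decide) (x i)] at h1
  exact le_of_pow_le_pow_left₀ (by norm_num) (nrm_nonneg _ _) h1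

end Pool.Agent.US
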