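import Pool.Agent.Helper91.US.LegA
import Pool.Agent.Helper91.US.LegB
import Pool.Agent.Helper91.US.NNBasic

set_option autoImplicit false

/-! Module C2 TRIANGLE: `NN` as the Legendre transform, and the triangle inequality for `nrm`. -/

namespace Pool.Agent.US

open Finset Filter Topology
open scoped ContDiff

theorem tri_ext_apply {n : ℕ} (m' : Fin n → ℝ) (i : Fin n) : ext n m' i = m' i := by
  simp [ext]

theorem tri_JJ_ext (β : ℝ) {n : ℕ} (m' : Fin n → ℝ) (z : ℕ → ℝ) :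
    JJ β n (ext n m') z = ∑ i : Fin n, m' i * Real.log (z i) - PP β n (DF n) m' := by
  unfold JJ PP DF
  rw [Finset.sum_range]
  simp only [tri_ext_apply]
  rw [← sub_sub, ← Finset.sum_sub_distrib]
  congr 1
  apply Finset.sum_congr rfl
  intro i _
  ring

theorem tri_adm_ext {n : ℕ} {m' : Fin n → ℝ} {z : ℕ → ℝ} (h0 : ∀ i, 0 ≤ m' i)
    (hz : ∀ i : Fin n, z i = 0 → m' i = 0) : Adm n (ext n m') z := by
  refine ⟨fun i => ?_, fun i hi => ?_, fun i hi => ?_⟩
  · unfold ext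
    split_ifs with h
    · exact h0 _
    · exact le_rfl
  · unfold ext
    split_ifs with h
    · exact hz ⟨i, h⟩ hi
    · rfl
  · unfold ext
    rw [dif_neg (by omega)]

theorem tri_eq_ext_of_adm {n : ℕ} {m z : ℕ → ℝ} (h : Adm n m z) :
    m = ext n (fun i : Fin n => m i) := by
  funext j
  unfold ext
  split_ifs with hj
  · rfl
  · exact h.2.2 j (by omega)

theorem NN_leg {β C : ℝ} {n : ℕ} (hβ : 0 ≤ β) (hβC : β * C ≤ 1 / 3) (hG : Good n (DF n) C)
    {M : (Fin n → ℝ) → (Fin n → ℝ)} (hM : IsLeg β n (DF n) M) {z : ℕ → ℝ}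
    (hz : ∀ i < n, 0 < z i) (hz' : ∀ i, n ≤ i → z i = 0) :
    NN β z = ∑ i : Fin n, M (fun i => Real.log (z i)) i := by
  set u : Fin n → ℝ := fun i => Real.log (z i) with hu
  have hz0 : ∀ i, 0 ≤ z i := fun i => by
    rcases lt_or_ge i n with h | h
    · exact (hz i h).le
    · rw [hz' i h]
  have heul : ∑ i, u i * M u i = PP β n (DF n) (M u) + ∑ i, M u i := by
    have h1 := leg_euler (β := β) hG (m := M u) (hM.pos u)
    rw [hM.crit] at h1
    exact h1
  have hcomm : ∀ m' : Fin n → ℝ, ∑ i : Fin n, m' i * Real.log (z i) = ∑ i, u i * m' i :=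
    fun m' => Finset.sum_congr rfl (fun i _ => mul_comm _ _)
  apply le_antisymm
  · refine NN_le_of hz' (fun m hm => ?_)
    rw [tri_eq_ext_of_adm hm, tri_JJ_ext, hcomm]
    have h2 := leg_lower hG hβ hβC (hM.pos u) (m' := fun i : Fin n => m i) (fun i => hm.1 i)
    rw [hM.crit] at h2
    simp only [mul_sub, Finset.sum_sub_distrib] at h2
    linarith
  · have hval : JJ β n (ext n (M u)) z = ∑ i, M u i := by
      rw [tri_JJ_ext, hcomm]
      linarith
    rw [← hval]
    refine le_NN hβ hz0 hz' (tri_adm_ext (fun i => (hM.pos u i).le) (fun i hi => ?_))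
    exact absurd hi (hz i i.2).ne'

theorem tri_key_aux {β C : ℝ} {n : ℕ} (hβ : 0 ≤ β) (hβC : β * C ≤ 1 / 3) (hG : Good n (DF n) C)
    {M : (Fin n → ℝ) → (Fin n → ℝ)} (hM : IsLeg β n (DF n) M) {w : ℕ → ℝ}
    (hw : ∀ i < n, 0 < w i) (hw' : ∀ i, n ≤ i → w i = 0) {y : ℕ → ℝ}
    (hy : ∀ i, n ≤ i → y i = 0) {t : ℝ} (ht : 0 < t) :
    4 / 3 * (t ^ 3 * ∑ i : Fin n, M (fun i => Real.log (w i ^ 4)) i * (|y i| / w i) ^ 3) ≤
      t ^ 4 * nrm β y ^ 4 + 1 / 3 * nrm β w ^ 4 := by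
  set u : Fin n → ℝ := fun i => Real.log (w i ^ 4) with hu
  set m : Fin n → ℝ := M u with hm
  have hmpos : ∀ i, 0 < m i := hM.pos u
  set m' : Fin n → ℝ := fun i => m i * (t * |y i| / w i) ^ 3 with hm'
  have hwp : ∀ i : Fin n, 0 < w i := fun i => hw i i.2
  have hm'0 : ∀ i, 0 ≤ m' i := fun i =>
    mul_nonneg (hmpos i).le (pow_nonneg (div_nonneg (mul_nonneg ht.le (abs_nonneg _)) (hwp i).le) 3)
  have hsumm : nrm β w ^ 4 = ∑ i, m i := by
    rw [nrm_pow_four hβ w ⟨n, hw'⟩]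
    exact NN_leg hβ hβC hG hM (z := fun i => w i ^ 4) (fun i hi => pow_pos (hw i hi) 4)
      (fun i hi => by simp [hw' i hi])
  have hNNz : NN β (fun i => t ^ 4 * y i ^ 4) = t ^ 4 * nrm β y ^ 4 := by
    rw [nrm_pow_four hβ y ⟨n, hy⟩]
    exact NN_smul hβ (by positivity) (fun i => by positivity) ⟨n, fun i hi => by simp [hy i hi]⟩
  have hJ : JJ β n (ext n m') (fun i => t ^ 4 * y i ^ 4) ≤ t ^ 4 * nrm β y ^ 4 := by
    rw [← hNNz]
    refine le_NN hβ (fun i => by positivity) (fun i hi => by simp [hy i hi])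
      (tri_adm_ext hm'0 (fun i hi => ?_))
    have h4 : y i ^ 4 = 0 := by
      rcases mul_eq_zero.1 hi with h | h
      · exact absurd h (by positivity)
      · exact h
    have h5 : y i = 0 := by
      exact pow_eq_zero_iff (n := 4) (by norm_num) |>.1 h4
    simp [hm', h5]
  rw [tri_JJ_ext] at hJ
  have hup := leg_upper hG hβ hβC (β := β) hmpos hm'0
  have heul := leg_euler (β := β) hG hmpos
  have hcrit : ∀ a, fderiv ℝ (PP β n (DF n)) m a = ∑ i, u i * a i := hM.crit u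
  rw [hcrit] at hup heul
  have hlog : ∀ i : Fin n, m' i * Real.log (t ^ 4 * y i ^ 4) - u i * m' i
      = 4 / 3 * (m' i * Real.log (m' i / m i)) := by
    intro i
    by_cases h0 : y i = 0
    · simp [hm', h0]
    · have h1 : m' i / m i = (t * |y i| / w i) ^ 3 := by
        simp only [hm']
        field_simp [(hmpos i).ne']
      have hyp : 0 < |y i| := abs_pos.2 h0
      have h2 : Real.log (m' i / m i) = 3 * (Real.log t + Real.log |y i| - Real.log (w i)) := by
        rw [h1, Real.log_pow, Real.log_div (by positivity) (hwp i).ne',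
          Real.log_mul ht.ne' hyp.ne']
        norm_num
      have h3 : Real.log (t ^ 4 * y i ^ 4) = 4 * (Real.log t + Real.log |y i|) := by
        have : t ^ 4 * y i ^ 4 = (t * |y i|) ^ 4 := by
          rw [mul_pow]
          congr 1
          exact (Even.pow_abs (by decide) (y i)).symm
        rw [this, Real.log_pow, Real.log_mul ht.ne' hyp.ne']
        norm_num
      have h4 : u i = 4 * Real.log (w i) := by
        simp only [hu]
        rw [Real.log_pow]
        norm_num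
      rw [h2, h3, h4]
      ring
  have hsum : ∑ i, (m' i * Real.log (t ^ 4 * y i ^ 4)) - ∑ i, u i * m' i
      = 4 / 3 * ∑ i, (m' i * Real.log (m' i / m i)) := by
    rw [← Finset.sum_sub_distrib, Finset.mul_sum]
    exact Finset.sum_congr rfl (fun i _ => hlog i)
  have hR : ∑ i, m' i = t ^ 3 * ∑ i, m i * (|y i| / w i) ^ 3 := by
    rw [Finset.mul_sum]
    refine Finset.sum_congr rfl (fun i _ => ?_)
    simp only [hm']
    ring
  simp only [mul_sub, Finset.sum_sub_distrib, Finset.sum_add_distrib] at hup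
  rw [hsumm, ← hR]
  linarith

theorem key_K {β C : ℝ} {n : ℕ} (hβ : 0 ≤ β) (hβC : β * C ≤ 1 / 3) (hG : Good n (DF n) C)
    {M : (Fin n → ℝ) → (Fin n → ℝ)} (hM : IsLeg β n (DF n) M) {w : ℕ → ℝ}
    (hw : ∀ i < n, 0 < w i) (hw' : ∀ i, n ≤ i → w i = 0) {y : ℕ → ℝ}
    (hy : ∀ i, n ≤ i → y i = 0) :
    ∑ i : Fin n, M (fun i => Real.log (w i ^ 4)) i * (|y i| / w i) ^ 3 ≤
      nrm β w * nrm β y ^ 3 := by
  rcases Nat.eq_zero_or_pos n with hn | hn
  · subst hn
    simp only [Finset.univ_eq_empty, Finset.sum_empty]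
    exact mul_nonneg (nrm_nonneg _ _) (pow_nonneg (nrm_nonneg _ _) 3)
  have hW : 0 < nrm β w := by
    have h1 := abs_le_nrm hβ w ⟨n, hw'⟩ 0
    have h2 := hw 0 hn
    exact lt_of_lt_of_le (abs_pos.2 h2.ne') h1
  rcases (nrm_nonneg β y).eq_or_lt with h0 | hY
  · have hy0 : ∀ i, y i = 0 := fun i => by
      have h1 := abs_le_nrm hβ y ⟨n, hy⟩ i
      rw [← h0] at h1
      exact abs_nonpos_iff.1 h1
    rw [← h0]
    simp [hy0]
  · have h := tri_key_aux hβ hβC hG hM hw hw' hy (t := nrm β w / nrm β y) (div_pos hW hY)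
    set R := ∑ i : Fin n, M (fun i => Real.log (w i ^ 4)) i * (|y i| / w i) ^ 3 with hR
    have e1 : (nrm β w / nrm β y) ^ 4 * nrm β y ^ 4 = nrm β w ^ 4 := by
      field_simp
    rw [e1] at h
    have h2 : (nrm β w / nrm β y) ^ 3 * R ≤ nrm β w ^ 4 := by linarith
    have e2 : (nrm β w / nrm β y) ^ 3 * R = nrm β w ^ 3 * (R / nrm β y ^ 3) := by
      field_simp
    rw [e2] at h2
    have h3 : R / nrm β y ^ 3 ≤ nrm β w := by
      have e3 : nrm β w ^ 4 = nrm β w ^ 3 * nrm β w := by ring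
      rw [e3] at h2
      exact le_of_mul_le_mul_left h2 (pow_pos hW 3)
    rwa [div_le_iff₀ (pow_pos hY 3)] at h3

/-- the duality inequality `∑ m_i |v_i| / w_i ≤ ‖w‖³ ‖v‖`. -/
theorem tri_dual_le {β C : ℝ} {n : ℕ} (hβ : 0 ≤ β) (hβC : β * C ≤ 1 / 3) (hG : Good n (DF n) C)
    {M : (Fin n → ℝ) → (Fin n → ℝ)} (hM : IsLeg β n (DF n) M) {w : ℕ → ℝ} (hn : 0 < n)
    (hw : ∀ i < n, 0 < w i) (hw' : ∀ i, n ≤ i → w i = 0) {v : ℕ → ℝ}
    (hv : ∀ i, n ≤ i → v i = 0) :
    ∑ i : Fin n, M (fun i => Real.log (w i ^ 4)) i * (|v i| / w i) ≤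
      nrm β w ^ 3 * nrm β v := by
  have hW : 0 < nrm β w := by
    have h1 := abs_le_nrm hβ w ⟨n, hw'⟩ 0
    have h2 := hw 0 hn
    exact lt_of_lt_of_le (abs_pos.2 h2.ne') h1
  set m : Fin n → ℝ := M (fun i => Real.log (w i ^ 4)) with hm
  have hmpos : ∀ i, 0 < m i := hM.pos _
  have hsumm : nrm β w ^ 4 = ∑ i, m i := by
    rw [nrm_pow_four hβ w ⟨n, hw'⟩]
    exact NN_leg hβ hβC hG hM (z := fun i => w i ^ 4) (fun i hi => pow_pos (hw i hi) 4)
      (fun i hi => by simp [hw' i hi])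
  rcases (nrm_nonneg β v).eq_or_lt with h0 | hV
  · have hv0 : ∀ i, v i = 0 := fun i => by
      have h1 := abs_le_nrm hβ v ⟨n, hv⟩ i
      rw [← h0] at h1
      exact abs_nonpos_iff.1 h1
    rw [← h0]
    simp [hv0]
  · have hK := key_K hβ hβC hG hM hw hw' hv
    set t : ℝ := nrm β v / nrm β w with ht
    have htpos : 0 < t := div_pos hV hW
    have hvt : nrm β v = t * nrm β w := by rw [ht]; field_simp
    -- AM-GM : 3 t^2 a ≤ 2 t^3 + a^3
    have hamgm : ∀ a : ℝ, 0 ≤ a → 3 * t ^ 2 * a ≤ 2 * t ^ 3 + a ^ 3 := by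
      intro a ha
      nlinarith [mul_nonneg (add_nonneg ha (add_nonneg htpos.le htpos.le)) (sq_nonneg (a - t))]
    have hsum : ∑ i, m i * (3 * t ^ 2 * (|v i| / w i)) ≤
        ∑ i, m i * (2 * t ^ 3 + (|v i| / w i) ^ 3) :=
      Finset.sum_le_sum (fun i _ => mul_le_mul_of_nonneg_left
        (hamgm _ (div_nonneg (abs_nonneg _) (hw i i.2).le)) (hmpos i).le)
    have e1 : ∑ i, m i * (3 * t ^ 2 * (|v i| / w i)) = 3 * t ^ 2 * ∑ i, m i * (|v i| / w i) := by
      rw [Finset.mul_sum]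
      exact Finset.sum_congr rfl (fun i _ => by ring)
    have e2 : ∑ i, m i * (2 * t ^ 3 + (|v i| / w i) ^ 3) =
        2 * t ^ 3 * ∑ i, m i + ∑ i, m i * (|v i| / w i) ^ 3 := by
      rw [Finset.mul_sum, ← Finset.sum_add_distrib]
      exact Finset.sum_congr rfl (fun i _ => by ring)
    rw [e1, e2, ← hsumm] at hsum
    have h3 : 3 * t ^ 2 * ∑ i, m i * (|v i| / w i) ≤ 3 * t ^ 2 * (nrm β w ^ 3 * nrm β v) := by
      calc 3 * t ^ 2 * ∑ i, m i * (|v i| / w i)
          ≤ 2 * t ^ 3 * nrm β w ^ 4 + nrm β w * nrm β v ^ 3 := by linarith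
        _ = 3 * t ^ 2 * (nrm β w ^ 3 * nrm β v) := by rw [hvt]; ring
    exact le_of_mul_le_mul_left h3 (by positivity)

/-- the triangle inequality, given the existence of the Legendre selections. -/
theorem nrm_add_le_of_leg {β C : ℝ} (hβ : 0 ≤ β) (hβC : β * C ≤ 1 / 3)
    (hG : ∀ n, Good n (DF n) C) (hL : ∀ n, ∃ M, IsLeg β n (DF n) M)
    (x y : ℕ → ℝ) (hx : ∃ n, ∀ i, n ≤ i → x i = 0) (hy : ∃ n, ∀ i, n ≤ i → y i = 0) :
    nrm β (fun i => x i + y i) ≤ nrm β x + nrm β y := by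
  obtain ⟨n1, h1⟩ := hx
  obtain ⟨n2, h2⟩ := hy
  set n := max n1 n2 + 1 with hn
  have hx : ∀ i, n ≤ i → x i = 0 := fun i hi => h1 i (by omega)
  have hy : ∀ i, n ≤ i → y i = 0 := fun i hi => h2 i (by omega)
  have hnpos : 0 < n := by omega
  set e : ℕ → ℝ := fun i => if i < n then 1 else 0 with he
  have he' : ∀ i, n ≤ i → e i = 0 := fun i hi => by simp only [he]; rw [if_neg (by omega)]
  obtain ⟨M, hM⟩ := hL n
  -- the estimate for every `ε > 0`
  have main : ∀ ε : ℝ, 0 < ε →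
      nrm β (fun i => x i + y i) ≤ nrm β x + nrm β y + ε * nrm β e := by
    intro ε hε
    set w : ℕ → ℝ := fun i => |x i| + |y i| + ε * e i with hw
    have hwpos : ∀ i < n, 0 < w i := fun i hi => by
      simp only [hw, he, if_pos hi]
      have := abs_nonneg (x i)
      have := abs_nonneg (y i)
      linarith
    have hw' : ∀ i, n ≤ i → w i = 0 := fun i hi => by
      simp only [hw, hx i hi, hy i hi, he' i hi]
      simp
    have hW : 0 < nrm β w := by
      have h1 := abs_le_nrm hβ w ⟨n, hw'⟩ 0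
      exact lt_of_lt_of_le (abs_pos.2 (hwpos 0 hnpos).ne') h1
    have hle : nrm β (fun i => x i + y i) ≤ nrm β w := by
      refine nrm_mono hβ (fun i => ?_) ⟨n, hw'⟩
      have h0 : 0 ≤ ε * e i := by
        refine mul_nonneg hε.le ?_
        simp only [he]
        split_ifs <;> norm_num
      have hwi : 0 ≤ w i := by
        simp only [hw]
        have := abs_nonneg (x i)
        have := abs_nonneg (y i)
        linarith
      rw [abs_of_nonneg hwi]
      have := abs_add_le (x i) (y i)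
      simp only [hw]
      linarith
    refine hle.trans ?_
    have hX := tri_dual_le hβ hβC (hG n) hM hnpos hwpos hw' hx
    have hY := tri_dual_le hβ hβC (hG n) hM hnpos hwpos hw' hy
    have hE := tri_dual_le hβ hβC (hG n) hM hnpos hwpos hw' (v := fun i => ε * e i)
      (fun i hi => by simp [he' i hi])
    rw [nrm_smul hβ ε e ⟨n, he'⟩, abs_of_pos hε] at hE
    set m : Fin n → ℝ := M (fun i => Real.log (w i ^ 4)) with hm
    have hsumm : nrm β w ^ 4 = ∑ i, m i := by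
      rw [nrm_pow_four hβ w ⟨n, hw'⟩]
      exact NN_leg hβ hβC (hG n) hM (z := fun i => w i ^ 4) (fun i hi => pow_pos (hwpos i hi) 4)
        (fun i hi => by simp [hw' i hi])
    have hdec : ∑ i, m i = ∑ i : Fin n, m i * (|x i| / w i) + ∑ i : Fin n, m i * (|y i| / w i)
        + ∑ i : Fin n, m i * (|ε * e i| / w i) := by
      rw [← Finset.sum_add_distrib, ← Finset.sum_add_distrib]
      refine Finset.sum_congr rfl (fun i _ => ?_)
      have hwi := hwpos i i.2
      have h0 : |ε * e i| = ε * e i := by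
        refine abs_of_nonneg (mul_nonneg hε.le ?_)
        simp only [he]
        split_ifs <;> norm_num
      rw [h0, ← mul_add, ← mul_add, ← add_div, ← add_div]
      have : |x i| + |y i| + ε * e i = w i := rfl
      rw [this, div_self hwi.ne', mul_one]
    have hfin : nrm β w ^ 3 * nrm β w ≤ nrm β w ^ 3 * (nrm β x + nrm β y + ε * nrm β e) := by
      have e4 : nrm β w ^ 3 * nrm β w = nrm β w ^ 4 := by ring
      rw [e4, hsumm, hdec]
      calc _ ≤ nrm β w ^ 3 * nrm β x + nrm β w ^ 3 * nrm β y + nrm β w ^ 3 * (ε * nrm β e) := by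
            linarith
        _ = _ := by ring
    exact le_of_mul_le_mul_left hfin (pow_pos hW 3)
  refine le_of_forall_pos_le_add (fun δ hδ => ?_)
  have hc := nrm_nonneg β e
  have h := main (δ / (nrm β e + 1)) (by positivity)
  have h2 : δ / (nrm β e + 1) * nrm β e ≤ δ := by
    rw [div_mul_eq_mul_div, div_le_iff₀ (by positivity)]
    nlinarith
  linarith

theorem nrm_add_le {β C : ℝ} (hβ : 0 ≤ β) (hβC : β * C ≤ 1 / 3) (hG : ∀ n, Good n (DF n) C)
    (x y : ℕ → ℝ) (hx : ∃ n, ∀ i, n ≤ i → x i = 0) (hy : ∃ n, ∀ i, n ≤ i → y i = 0) :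
    nrm β (fun i => x i + y i) ≤ nrm β x + nrm β y :=
  nrm_add_le_of_leg hβ hβC hG (fun n => leg_exists (hG n) hβ hβC) x y hx hy

end Pool.Agent.US
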