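import Pool.Agent.Helper91.US.Rec

set_option autoImplicit false

namespace Pool.Agent.US

open Finset Filter Topology

theorem F_zero (m : ℕ → ℝ) : F m 0 = 0 := by simp [F]

theorem F_succ (m : ℕ → ℝ) (k : ℕ) : F m (k + 1) = F m k + m k := by
  unfold F; rw [Finset.sum_range_succ]

theorem F_mono {m : ℕ → ℝ} (hm : ∀ i, 0 ≤ m i) : Monotone (F m) :=
  monotone_nat_of_le_succ (fun k => by rw [F_succ]; linarith [hm k])

theorem F_nonneg {m : ℕ → ℝ} (hm : ∀ i, 0 ≤ m i) (k : ℕ) : 0 ≤ F m k :=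
  Finset.sum_nonneg (fun j _ => hm j)

theorem F_sub_pos {m : ℕ → ℝ} (hm : ∀ i, 0 ≤ m i) {i k : ℕ} (hk : k ≤ i) (hi : 0 < m i) :
    0 < F m (i + 1) - F m k := by
  rw [F_succ]
  linarith [F_mono hm hk]

theorem F_succ_pos {m : ℕ → ℝ} (hm : ∀ i, 0 ≤ m i) {i : ℕ} (hi : 0 < m i) :
    0 < F m (i + 1) := by
  rw [F_succ]; linarith [F_nonneg hm i]

theorem Y_zero (m : ℕ → ℝ) (i : ℕ) : Y m i 0 = 0 := by
  unfold Y; rw [F_zero, sub_zero, sub_self]

theorem Y_mono {m : ℕ → ℝ} (hm : ∀ i, 0 ≤ m i) {i k l : ℕ} (hkl : k ≤ l) (hl : l ≤ i)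
    (hi : 0 < m i) : Y m i k ≤ Y m i l := by
  unfold Y
  have h1 := F_sub_pos hm hl hi
  have h2 := F_mono hm hkl
  have := Real.log_le_log h1 (show F m (i + 1) - F m l ≤ F m (i + 1) - F m k by linarith)
  linarith

theorem Y_nonneg {m : ℕ → ℝ} (hm : ∀ i, 0 ≤ m i) {i k : ℕ} (hk : k ≤ i) (hi : 0 < m i) :
    0 ≤ Y m i k := by
  rw [← Y_zero m i]; exact Y_mono hm (Nat.zero_le k) hk hi

theorem F_tail_of_le {m : ℕ → ℝ} {a k : ℕ} (h : k ≤ a) : F (tail a m) k = 0 := by
  unfold F tail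
  refine Finset.sum_eq_zero (fun j hj => ?_)
  rw [Finset.mem_range] at hj
  rw [if_neg (by omega)]

theorem F_tail_of_ge {m : ℕ → ℝ} {a k : ℕ} (h : a ≤ k) : F (tail a m) k = F m k - F m a := by
  induction k, h using Nat.le_induction with
  | base => rw [F_tail_of_le le_rfl, sub_self]
  | succ k hk ih =>
    rw [F_succ, F_succ, ih]
    have : tail a m k = m k := by unfold tail; rw [if_pos hk]
    rw [this]; ring

theorem tail_nonneg {m : ℕ → ℝ} (hm : ∀ i, 0 ≤ m i) (a : ℕ) : ∀ i, 0 ≤ tail a m i := by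
  intro i; unfold tail; split_ifs
  · exact hm i
  · exact le_rfl

theorem tail_apply {m : ℕ → ℝ} {a i : ℕ} (h : a ≤ i) : tail a m i = m i := by
  unfold tail; rw [if_pos h]

theorem Y_tail_of_le {m : ℕ → ℝ} {a i k : ℕ} (hk : k ≤ a) : Y (tail a m) i k = 0 := by
  unfold Y; rw [F_tail_of_le hk, sub_zero, sub_self]

theorem Y_tail_of_ge {m : ℕ → ℝ} {a i k : ℕ} (hk : a ≤ k) (hai : a ≤ i) :
    Y (tail a m) i k = Y m i k - Y m i a := by
  unfold Y
  rw [F_tail_of_ge hk, F_tail_of_ge (show a ≤ i + 1 by omega)]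
  have : F m (i + 1) - F m a - (F m k - F m a) = F m (i + 1) - F m k := by ring
  rw [this]; ring

theorem Y_tail_le {m : ℕ → ℝ} (hm : ∀ i, 0 ≤ m i) {a i k : ℕ} (hk : k ≤ i) (hai : a ≤ i)
    (hi : 0 < m i) : Y (tail a m) i k ≤ Y m i k := by
  rcases le_total k a with h | h
  · rw [Y_tail_of_le h]; exact Y_nonneg hm hk hi
  · rw [Y_tail_of_ge h hai]; linarith [Y_nonneg hm hai hi]

theorem le_Y_tail_add {m : ℕ → ℝ} (hm : ∀ i, 0 ≤ m i) {a i k : ℕ} (hai : a ≤ i)
    (hi : 0 < m i) : Y m i k ≤ Y (tail a m) i k + Y m i a := by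
  rcases le_total k a with h | h
  · rw [Y_tail_of_le h, zero_add]; exact Y_mono hm h hai hi
  · rw [Y_tail_of_ge h hai]; linarith

theorem V_nonneg (i : ℕ) (m : ℕ → ℝ) : 0 ≤ V i m := by
  unfold V; linarith [one_le_G_zero i (Y m i)]

theorem V_le (i : ℕ) (m : ℕ → ℝ) : V i m ≤ i := by
  unfold V
  rcases G_le i (Y m i) 0 with h | h
  · push_cast at h; linarith
  · omega

theorem V_mono_tail {m : ℕ → ℝ} (hm : ∀ i, 0 ≤ m i) {a i : ℕ} (hai : a ≤ i) (hi : 0 < m i) :
    V i (tail a m) ≤ V i m := by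
  unfold V
  have := G_le_of_le (n := i) (y := Y (tail a m) i) (y' := Y m i)
    (fun j hj => Y_tail_le hm hj hai hi) (fun j hj => Y_mono hm (Nat.le_succ j) hj hi) 0
  linarith

theorem V_upper : ∃ A : ℕ → ℝ, Tendsto A atTop (𝓝 0) ∧ (∀ L, 0 ≤ A L) ∧
    ∀ (m : ℕ → ℝ) (L a i : ℕ), (∀ i, 0 ≤ m i) → (∀ j < L, m j = 0) → L ≤ a → a ≤ i → 0 < m i →
      V i m ≤ 1 + V i (tail a m) + A L * Y m i a := by
  obtain ⟨σ, hσ, hlip⟩ := exists_sg_lip
  refine ⟨fun L => 2 * σ / lam L, ?_, fun L => by have := lam_pos L; positivity, ?_⟩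
  · have h1 : Tendsto (fun L : ℕ => 2 * σ / (3 / 10) * ((1 / 2 : ℝ) ^ L)) atTop (𝓝 0) := by
      have := (tendsto_pow_atTop_nhds_zero_of_lt_one (by norm_num : (0 : ℝ) ≤ 1 / 2)
        (by norm_num : (1 / 2 : ℝ) < 1)).const_mul (2 * σ / (3 / 10))
      simpa using this
    refine h1.congr (fun L => ?_)
    unfold lam
    rw [one_div, inv_pow]
    field_simp
  · intro m L a i hm hL hLa hai hi
    have hF : ∀ j ≤ L, F m j = 0 := by
      intro j hj
      unfold F
      refine Finset.sum_eq_zero (fun l hl => ?_)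
      rw [Finset.mem_range] at hl
      exact hL l (by omega)
    have hY : ∀ j ≤ L, Y m i j = 0 := by
      intro j hj
      unfold Y; rw [hF j hj, sub_zero, sub_self]
    have h1 : G i (Y m i) 0 ≤ 1 + G i (Y m i) L :=
      G_zero_le (by omega) (fun j _ hj => by rw [hY j hj]; exact (lam_pos 0).le)
    have h2 := G_shift_aux hσ hlip (n := i) (y := Y (tail a m) i) (y' := Y m i) (s := Y m i a)
      (Y_nonneg hm hai hi) (fun j hj => Y_tail_le hm hj hai hi)
      (fun j _ => le_Y_tail_add hm hai hi) (fun j hj => Y_mono hm (Nat.le_succ j) hj hi) _ L rfl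
    have h3 := G_antitone i (Y (tail a m) i) (Nat.zero_le L)
    unfold V
    linarith

theorem V_gain {m : ℕ → ℝ} (hm : ∀ i, 0 ≤ m i) {M a i : ℕ} (hMa : M < a) (hai : a ≤ i)
    (hi : 0 < m i) (h1 : 2 * lam 0 ≤ Y m i M) (h2 : 2 * lam M ≤ Y m i a) :
    1 + V i (tail a m) ≤ V i m := by
  have hM : 0 < M := by
    rcases Nat.eq_zero_or_pos M with h | h
    · subst h
      rw [Y_zero] at h1
      linarith [lam_pos 0]
    · exact h
  have e1 : 1 + G i (Y m i) M ≤ G i (Y m i) 0 :=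
    le_G_of_zero hM (by omega) (fun j hj hj' => h1.trans (Y_mono hm hj hj' hi))
  have e2 : 1 + G i (Y m i) a ≤ G i (Y m i) M :=
    le_G_of_zero hMa hai (fun j hj hj' => h2.trans (Y_mono hm hj hj' hi))
  have e3 := G_le_of_le (n := i) (y := Y (tail a m) i) (y' := Y m i)
    (fun j hj => Y_tail_le hm hj hai hi) (fun j hj => Y_mono hm (Nat.le_succ j) hj hi) a
  have e4 : G i (Y (tail a m) i) 0 ≤ 1 + G i (Y (tail a m) i) a :=
    G_zero_le hai (fun j _ hj => by rw [Y_tail_of_le hj]; exact (lam_pos 0).le)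
  unfold V
  linarith

/-- `V i m` depends only on `m_0,…,m_i`. -/
theorem V_congr {i : ℕ} {m m' : ℕ → ℝ} (h : ∀ j ≤ i, m j = m' j) : V i m = V i m' := by
  have hF : ∀ k ≤ i + 1, F m k = F m' k := by
    intro k hk
    unfold F
    refine Finset.sum_congr rfl (fun j hj => ?_)
    rw [Finset.mem_range] at hj
    exact h j (by omega)
  have hY : ∀ k ≤ i, Y m i k = Y m' i k := by
    intro k hk
    unfold Y
    rw [hF _ le_rfl, hF k (by omega)]
  have hD : ∀ d k, i - k = d → D i (Y m i) k = D i (Y m' i) k := by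
    intro d
    induction d using Nat.strong_induction_on with
    | _ d ih =>
      intro k hk
      rw [D_eq, D_eq]
      congr 1
      refine Finset.sum_congr rfl (fun j hj => ?_)
      rw [Finset.mem_Ioc] at hj
      rw [hY j hj.2, ih (i - j) (by omega) j rfl]
  unfold V G
  congr 1
  exact Finset.sum_congr rfl (fun j _ => hD _ j rfl)

/-- scale invariance. -/
theorem V_smul {i : ℕ} {m : ℕ → ℝ} (hm : ∀ i, 0 ≤ m i) (hi : 0 < m i) {t : ℝ} (ht : 0 < t) :
    V i (fun j => t * m j) = V i m := by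
  have hF : ∀ k, F (fun j => t * m j) k = t * F m k := by
    intro k; unfold F; rw [Finset.mul_sum]
  have hY : ∀ k ≤ i, Y (fun j => t * m j) i k = Y m i k := by
    intro k hk
    unfold Y
    have h1 := F_sub_pos hm hk hi
    have h2 := F_succ_pos hm hi
    rw [hF, hF, ← mul_sub, Real.log_mul ht.ne' h2.ne', Real.log_mul ht.ne' h1.ne']
    ring
  have hD : ∀ d k, i - k = d → D i (Y (fun j => t * m j) i) k = D i (Y m i) k := by
    intro d
    induction d using Nat.strong_induction_on with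
    | _ d ih =>
      intro k hk
      rw [D_eq, D_eq]
      congr 1
      refine Finset.sum_congr rfl (fun j hj => ?_)
      rw [Finset.mem_Ioc] at hj
      rw [hY j hj.2, ih (i - j) (by omega) j rfl]
  unfold V G
  congr 1
  exact Finset.sum_congr rfl (fun j _ => hD _ j rfl)

/-- an isolated atom has depth zero. -/
theorem V_single {i : ℕ} {m : ℕ → ℝ} (h : ∀ j < i, m j = 0) : V i m = 0 := by
  have hY : ∀ k ≤ i, Y m i k = 0 := by
    intro k hk
    have : F m k = 0 := by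
      unfold F
      refine Finset.sum_eq_zero (fun l hl => ?_)
      rw [Finset.mem_range] at hl
      exact h l (by omega)
    unfold Y; rw [this, sub_zero, sub_self]
  have h1 := G_zero_le (n := i) (y := Y m i) (a := i) le_rfl
    (fun j _ hj => by rw [hY j hj]; exact (lam_pos 0).le)
  have h2 : G i (Y m i) 0 ≤ 1 := by
    rcases Nat.eq_zero_or_pos i with h0 | h0
    · subst h0
      rw [G_succ _ le_rfl, D_self, G_of_lt _ (by omega : 0 < 0 + 1)]; simp
    · rw [G_rec _ (Nat.zero_le i)]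
      have h3 : ∑ j ∈ Finset.Ioc 0 i, Sk 0 (Y m i j) * D i (Y m i) j =
          ∑ j ∈ Finset.Ioc 0 i, D i (Y m i) j := by
        refine Finset.sum_congr rfl (fun j hj => ?_)
        rw [Finset.mem_Ioc] at hj
        rw [Sk_eq_one (by rw [hY j hj.2]; exact (lam_pos 0).le), one_mul]
      rw [h3, sum_D_eq _ (Nat.zero_le i) le_rfl, G_of_lt _ (Nat.lt_succ_self i)]
      linarith
  have h3 := V_nonneg i m
  unfold V at h3 ⊢
  linarith

end Pool.Agent.US
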