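import Pool.Agent.Helper91.US.Defs2

/-!
# Module D1 CONVTAYLOR
-/

set_option autoImplicit false

namespace Pool.Agent.US

open Finset Filter Topology

section

variable {E : Type} [NormedAddCommGroup E] [NormedSpace ℝ E]

theorem ct_lin_scale (l : E →ₗ[ℝ] ℝ) {r M : ℝ} (hr : 0 < r)
    (h : ∀ k : E, ‖k‖ ≤ r → |l k| ≤ M) (k : E) : |l k| ≤ M / r * ‖k‖ := by
  rcases eq_or_ne k 0 with rfl | hk
  · simp
  have hk0 : 0 < ‖k‖ := norm_pos_iff.2 hk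
  have h1 : ‖(r / ‖k‖) • k‖ ≤ r := by
    rw [norm_smul, Real.norm_eq_abs, abs_of_pos (by positivity), div_mul_cancel₀ _ hk0.ne']
  have h2 := h _ h1
  rw [map_smul, smul_eq_mul, abs_mul, abs_of_pos (by positivity : 0 < r / ‖k‖)] at h2
  have h3 : |l k| = (‖k‖ / r) * (r / ‖k‖ * |l k|) := by
    field_simp
  rw [h3]
  calc (‖k‖ / r) * (r / ‖k‖ * |l k|) ≤ (‖k‖ / r) * M :=
        mul_le_mul_of_nonneg_left h2 (by positivity)
    _ = M / r * ‖k‖ := by ring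

theorem ct_quad_scale (D : E →ₗ[ℝ] E →ₗ[ℝ] ℝ) {r M : ℝ} (hr : 0 < r)
    (h : ∀ k : E, ‖k‖ ≤ r → |D k k| ≤ M) (k : E) : |D k k| ≤ M / r ^ 2 * ‖k‖ ^ 2 := by
  rcases eq_or_ne k 0 with rfl | hk
  · simp
  have hk0 : 0 < ‖k‖ := norm_pos_iff.2 hk
  have h1 : ‖(r / ‖k‖) • k‖ ≤ r := by
    rw [norm_smul, Real.norm_eq_abs, abs_of_pos (by positivity), div_mul_cancel₀ _ hk0.ne']
  have h2 := h _ h1
  have h2' : D ((r / ‖k‖) • k) ((r / ‖k‖) • k) = (r / ‖k‖) ^ 2 * D k k := by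
    rw [map_smul, map_smul, LinearMap.smul_apply, smul_eq_mul, smul_eq_mul]; ring
  rw [h2', abs_mul, abs_of_pos (by positivity : 0 < (r / ‖k‖) ^ 2)] at h2
  have h3 : |D k k| = (‖k‖ ^ 2 / r ^ 2) * ((r / ‖k‖) ^ 2 * |D k k|) := by
    field_simp
  rw [h3]
  calc (‖k‖ ^ 2 / r ^ 2) * ((r / ‖k‖) ^ 2 * |D k k|) ≤ (‖k‖ ^ 2 / r ^ 2) * M :=
        mul_le_mul_of_nonneg_left h2 (by positivity)
    _ = M / r ^ 2 * ‖k‖ ^ 2 := by ring

theorem ct_polar (D : E →ₗ[ℝ] E →ₗ[ℝ] ℝ) (hD : ∀ k l, D k l = D l k) {c : ℝ}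
    (hc : 0 ≤ c) (h : ∀ k : E, |D k k| ≤ c * ‖k‖ ^ 2) (k l : E) :
    |D k l| ≤ 2 * c * ‖k‖ * ‖l‖ := by
  have key : ∀ k l : E, ‖k‖ = 1 → ‖l‖ = 1 → |D k l| ≤ 2 * c := by
    intro k l hk hl
    have h1 : D (k + l) (k + l) - D (k - l) (k - l) = 4 * D k l := by
      simp only [map_add, map_sub, LinearMap.add_apply, LinearMap.sub_apply]
      rw [hD l k]; ring
    have h2 := h (k + l)
    have h3 := h (k - l)
    have h4 : ‖k + l‖ ≤ 2 := by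
      have := norm_add_le k l; linarith
    have h5 : ‖k - l‖ ≤ 2 := by
      have := norm_sub_le k l; linarith
    have h6 : c * ‖k + l‖ ^ 2 ≤ c * 4 := by
      refine mul_le_mul_of_nonneg_left ?_ hc
      nlinarith [norm_nonneg (k + l)]
    have h7 : c * ‖k - l‖ ^ 2 ≤ c * 4 := by
      refine mul_le_mul_of_nonneg_left ?_ hc
      nlinarith [norm_nonneg (k - l)]
    rw [abs_le] at h2 h3 ⊢
    constructor <;> linarith [h2.1, h2.2, h3.1, h3.2]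
  rcases eq_or_ne k 0 with rfl | hk
  · simp
  rcases eq_or_ne l 0 with rfl | hl
  · simp
  have hk0 : 0 < ‖k‖ := norm_pos_iff.2 hk
  have hl0 : 0 < ‖l‖ := norm_pos_iff.2 hl
  have h1 := key (‖k‖⁻¹ • k) (‖l‖⁻¹ • l)
    (by rw [norm_smul, norm_inv, norm_norm, inv_mul_cancel₀ hk0.ne'])
    (by rw [norm_smul, norm_inv, norm_norm, inv_mul_cancel₀ hl0.ne'])
  have h2 : D (‖k‖⁻¹ • k) (‖l‖⁻¹ • l) = ‖k‖⁻¹ * ‖l‖⁻¹ * D k l := by
    rw [map_smul, map_smul, LinearMap.smul_apply, smul_eq_mul, smul_eq_mul]; ring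
  rw [h2, abs_mul, abs_of_pos (by positivity : 0 < ‖k‖⁻¹ * ‖l‖⁻¹)] at h1
  have h3 : |D k l| = (‖k‖ * ‖l‖) * (‖k‖⁻¹ * ‖l‖⁻¹ * |D k l|) := by
    field_simp
  rw [h3]
  calc (‖k‖ * ‖l‖) * (‖k‖⁻¹ * ‖l‖⁻¹ * |D k l|) ≤ (‖k‖ * ‖l‖) * (2 * c) :=
        mul_le_mul_of_nonneg_left h1 (by positivity)
    _ = 2 * c * ‖k‖ * ‖l‖ := by ring

theorem converse_taylor (Φ : E → ℝ)
    (L : E → E →ₗ[ℝ] ℝ) (B : E → E →ₗ[ℝ] E →ₗ[ℝ] ℝ) (K : ℝ) (hK : 0 ≤ K)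
    (hB : ∀ x h k, B x h k = B x k h)
    (hQ : ∀ x h, |Φ (x + h) - Φ x - L x h - 1 / 2 * B x h h| ≤ K * (‖x‖ + ‖h‖) * ‖h‖ ^ 3) :
    ∃ K' : ℝ, 0 ≤ K' ∧
      (∀ x h k l, |B (x + h) k l - B x k l| ≤ K' * (‖x‖ + ‖h‖) * ‖h‖ * ‖k‖ * ‖l‖) ∧
      (∀ x h k, |L (x + h) k - L x k - B x h k| ≤ K' * (‖x‖ + ‖h‖) * ‖h‖ ^ 2 * ‖k‖) := by
  -- the combined estimate
  have comb : ∀ x h k : E, ‖k‖ ≤ ‖h‖ →
      |(L (x + h) k - L x k - B x h k) + 1 / 2 * (B (x + h) k k - B x k k)| ≤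
        19 * K * (‖x‖ + ‖h‖) * ‖h‖ ^ 3 := by
    intro x h k hk
    have hx := norm_nonneg x
    have hh := norm_nonneg h
    have hk0 := norm_nonneg k
    have h1 := hQ x (h + k)
    have h2 := hQ x h
    have h3 := hQ (x + h) k
    rw [← add_assoc] at h1
    have e1 : L x (h + k) = L x h + L x k := map_add _ _ _
    have e2 : B x (h + k) (h + k) = B x h h + 2 * B x h k + B x k k := by
      simp only [map_add, LinearMap.add_apply]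
      rw [hB x k h]; ring
    rw [e1, e2] at h1
    have b1 : K * (‖x‖ + ‖h + k‖) * ‖h + k‖ ^ 3 ≤ K * (2 * (‖x‖ + ‖h‖)) * (2 * ‖h‖) ^ 3 := by
      have t1 : ‖h + k‖ ≤ 2 * ‖h‖ := by
        have := norm_add_le h k; linarith
      have t2 : ‖x‖ + ‖h + k‖ ≤ 2 * (‖x‖ + ‖h‖) := by linarith
      gcongr
    have b3 : K * (‖x + h‖ + ‖k‖) * ‖k‖ ^ 3 ≤ K * (2 * (‖x‖ + ‖h‖)) * ‖h‖ ^ 3 := by
      have t1 : ‖x + h‖ + ‖k‖ ≤ 2 * (‖x‖ + ‖h‖) := by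
        have := norm_add_le x h; linarith
      gcongr
    rw [abs_le] at h1 h2 h3 ⊢
    constructor <;> nlinarith [h1.1, h1.2, h2.1, h2.2, h3.1, h3.2]
  refine ⟨76 * K, by positivity, ?_, ?_⟩
  · intro x h k l
    rcases eq_or_ne h 0 with rfl | hh
    · simp
    have hr : 0 < ‖h‖ := norm_pos_iff.2 hh
    set DD : E →ₗ[ℝ] E →ₗ[ℝ] ℝ := B (x + h) - B x with hDD
    have hDs : ∀ k l, DD k l = DD l k := by
      intro k l
      simp only [hDD, LinearMap.sub_apply]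
      rw [hB (x + h) k l, hB x k l]
    have hsmall : ∀ k : E, ‖k‖ ≤ ‖h‖ → |DD k k| ≤ 38 * K * (‖x‖ + ‖h‖) * ‖h‖ ^ 3 := by
      intro k hk
      have h1 := comb x h k hk
      have h2 := comb x h (-k) (by rwa [norm_neg])
      simp only [map_neg, LinearMap.neg_apply, neg_neg] at h2
      simp only [hDD, LinearMap.sub_apply]
      rw [abs_le] at h1 h2 ⊢
      constructor <;> linarith [h1.1, h1.2, h2.1, h2.2]
    have hq : ∀ k : E, |DD k k| ≤ (38 * K * (‖x‖ + ‖h‖) * ‖h‖) * ‖k‖ ^ 2 := by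
      intro k
      have h1 := ct_quad_scale DD hr hsmall k
      have h2 : 38 * K * (‖x‖ + ‖h‖) * ‖h‖ ^ 3 / ‖h‖ ^ 2 = 38 * K * (‖x‖ + ‖h‖) * ‖h‖ := by
        field_simp
      rwa [h2] at h1
    have h1 := ct_polar DD hDs (by positivity) hq k l
    have h2 : DD k l = B (x + h) k l - B x k l := by
      simp only [hDD, LinearMap.sub_apply]
    rw [h2] at h1
    refine h1.trans (le_of_eq ?_)
    ring
  · intro x h k
    rcases eq_or_ne h 0 with rfl | hh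
    · simp
    have hr : 0 < ‖h‖ := norm_pos_iff.2 hh
    set ll : E →ₗ[ℝ] ℝ := L (x + h) - L x - B x h with hll
    have hsmall : ∀ k : E, ‖k‖ ≤ ‖h‖ → |ll k| ≤ 19 * K * (‖x‖ + ‖h‖) * ‖h‖ ^ 3 := by
      intro k hk
      have h1 := comb x h k hk
      have h2 := comb x h (-k) (by rwa [norm_neg])
      simp only [map_neg, LinearMap.neg_apply, neg_neg] at h2
      simp only [hll, LinearMap.sub_apply]
      rw [abs_le] at h1 h2 ⊢
      constructor <;> linarith [h1.1, h1.2, h2.1, h2.2]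
    have h1 := ct_lin_scale ll hr hsmall k
    have h2 : 19 * K * (‖x‖ + ‖h‖) * ‖h‖ ^ 3 / ‖h‖ = 19 * K * (‖x‖ + ‖h‖) * ‖h‖ ^ 2 := by
      field_simp
    rw [h2] at h1
    have h3 : ll k = L (x + h) k - L x k - B x h k := by
      simp only [hll, LinearMap.sub_apply]
    rw [h3] at h1
    refine h1.trans ?_
    have : 0 ≤ K * (‖x‖ + ‖h‖) * ‖h‖ ^ 2 * ‖k‖ := by positivity
    nlinarith

end

end Pool.Agent.US
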