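import Pool.Agent.Helper91.US.ConvTaylor

set_option autoImplicit false

namespace Pool.Agent.US

open Finset Filter Topology
open scoped ContDiff

namespace ExtQ

/-- if `|t^4 a - t b - t^2 c| ≤ K t^4 d` for all `t > 0` and all `t < 0`, then `b = 0`, `c = 0`. -/
theorem coef_zero {a b c d : ℝ} (h : ∀ t : ℝ, |t ^ 4 * a - t * b - t ^ 2 * c| ≤ t ^ 4 * d) :
    b = 0 ∧ c = 0 := by
  have h1 : ∀ t : ℝ, |t ^ 2 * c| ≤ t ^ 4 * (|a| + d) := by
    intro t
    have e1 := h t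
    have e2 := h (-t)
    have e3 : (-t) ^ 4 = t ^ 4 := by ring
    have e4 : (-t) ^ 2 = t ^ 2 := by ring
    rw [e3, e4] at e2
    have ha : t ^ 4 * a ≤ t ^ 4 * |a| := mul_le_mul_of_nonneg_left (le_abs_self a) (by positivity)
    have ha' : t ^ 4 * (-a) ≤ t ^ 4 * |a| :=
      mul_le_mul_of_nonneg_left (neg_le_abs a) (by positivity)
    rw [abs_le] at e1 e2 ⊢
    constructor <;> nlinarith [e1.1, e1.2, e2.1, e2.2]
  have h2 : ∀ t : ℝ, |t * b| ≤ t ^ 4 * d := by
    intro t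
    have e1 := h t
    have e2 := h (-t)
    have e3 : (-t) ^ 4 = t ^ 4 := by ring
    have e4 : (-t) ^ 2 = t ^ 2 := by ring
    rw [e3, e4] at e2
    rw [abs_le] at e1 e2 ⊢
    constructor <;> nlinarith [e1.1, e1.2, e2.1, e2.2]
  constructor
  · by_contra hb
    have hpos : 0 < |b| := abs_pos.2 hb
    have hd : 0 ≤ d := by
      have := h2 1
      have h0 := abs_nonneg ((1 : ℝ) * b)
      norm_num at this
      linarith [abs_nonneg b]
    -- take t with t^3 d < |b|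
    have key : ∀ t : ℝ, 0 < t → |b| ≤ t ^ 3 * d := by
      intro t ht
      have := h2 t
      rw [abs_mul, abs_of_pos ht] at this
      have h3 : t ^ 4 * d = t * (t ^ 3 * d) := by ring
      rw [h3] at this
      exact le_of_mul_le_mul_left this ht
    have hlim : Tendsto (fun t : ℝ => t ^ 3 * d) (𝓝[>] 0) (𝓝 0) := by
      have : Tendsto (fun t : ℝ => t ^ 3 * d) (𝓝 0) (𝓝 (0 ^ 3 * d)) :=
        ((continuous_pow 3).mul continuous_const).tendsto 0
      rw [zero_pow (by norm_num), zero_mul] at this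
      exact this.mono_left nhdsWithin_le_nhds
    have := ge_of_tendsto hlim (eventually_nhdsWithin_of_forall (fun t ht => key t ht))
    linarith
  · by_contra hc
    have hpos : 0 < |c| := abs_pos.2 hc
    have key : ∀ t : ℝ, 0 < t → |c| ≤ t ^ 2 * (|a| + d) := by
      intro t ht
      have := h1 t
      rw [abs_mul, abs_of_pos (by positivity : 0 < t ^ 2)] at this
      have h3 : t ^ 4 * (|a| + d) = t ^ 2 * (t ^ 2 * (|a| + d)) := by ring
      rw [h3] at this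
      exact le_of_mul_le_mul_left this (by positivity)
    have hlim : Tendsto (fun t : ℝ => t ^ 2 * (|a| + d)) (𝓝[>] 0) (𝓝 0) := by
      have : Tendsto (fun t : ℝ => t ^ 2 * (|a| + d)) (𝓝 0) (𝓝 (0 ^ 2 * (|a| + d))) :=
        ((continuous_pow 2).mul continuous_const).tendsto 0
      rw [zero_pow (by norm_num), zero_mul] at this
      exact this.mono_left nhdsWithin_le_nhds
    have := ge_of_tendsto hlim (eventually_nhdsWithin_of_forall (fun t ht => key t ht))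
    linarith

variable {E : Type} [NormedAddCommGroup E] [NormedSpace ℝ E]

/-- the embedding of `E` into its completion. -/
noncomputable abbrev em : E →L[ℝ] UniformSpace.Completion E := UniformSpace.Completion.toComplL

theorem em_apply (x : E) : em x = (x : UniformSpace.Completion E) := rfl

theorem em_dense : DenseRange (em (E := E)) := UniformSpace.Completion.denseRange_coe

theorem em_unif : IsUniformInducing (em (E := E)) :=
  UniformSpace.Completion.isUniformInducing_coe E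

/-- extension of a functional. -/
noncomputable def ex {F : Type} [NormedAddCommGroup F] [NormedSpace ℝ F] [CompleteSpace F]
    (f : E →L[ℝ] F) : UniformSpace.Completion E →L[ℝ] F := f.extend em

theorem ex_apply {F : Type} [NormedAddCommGroup F] [NormedSpace ℝ F] [CompleteSpace F]
    (f : E →L[ℝ] F) (x : E) : ex f (x : UniformSpace.Completion E) = f x :=
  ContinuousLinearMap.extend_eq f em_dense em_unif x

/-- extension of a bilinear form. -/
noncomputable def ex2 (b : E →L[ℝ] E →L[ℝ] ℝ) :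
    UniformSpace.Completion E →L[ℝ] UniformSpace.Completion E →L[ℝ] ℝ :=
  ex ((ex b).flip)

theorem ex2_apply (b : E →L[ℝ] E →L[ℝ] ℝ) (x y : E) :
    ex2 b (x : UniformSpace.Completion E) (y : UniformSpace.Completion E) = b y x := by
  unfold ex2
  rw [ex_apply, ContinuousLinearMap.flip_apply, ex_apply]

theorem norm_le_of_dense {f : UniformSpace.Completion E →L[ℝ] ℝ} {C : ℝ} (hC : 0 ≤ C)
    (h : ∀ x : E, |f x| ≤ C * ‖x‖) : ‖f‖ ≤ C := by
  refine f.opNorm_le_bound hC (fun x => ?_)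
  induction x using UniformSpace.Completion.induction_on with
  | hp => exact isClosed_le (by fun_prop) (by fun_prop)
  | ih a =>
    rw [UniformSpace.Completion.norm_coe]
    exact h a

theorem norm_le_of_dense₂ {f : UniformSpace.Completion E →L[ℝ] UniformSpace.Completion E →L[ℝ] ℝ}
    {C : ℝ} (hC : 0 ≤ C)
    (h : ∀ x y : E, |f x y| ≤ C * ‖x‖ * ‖y‖) : ‖f‖ ≤ C := by
  refine f.opNorm_le_bound hC (fun x => ?_)
  induction x using UniformSpace.Completion.induction_on with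
  | hp => exact isClosed_le (by fun_prop) (by fun_prop)
  | ih a =>
    rw [UniformSpace.Completion.norm_coe]
    exact norm_le_of_dense (by positivity) (h a)

theorem tendsto_clm {F G : Type} [NormedAddCommGroup F] [NormedSpace ℝ F] [NormedAddCommGroup G]
    [NormedSpace ℝ G] {f : ℕ → F →L[ℝ] G} {g : ℕ → F} {f0 : F →L[ℝ] G} {g0 : F}
    (hf : Tendsto f atTop (𝓝 f0)) (hg : Tendsto g atTop (𝓝 g0)) :
    Tendsto (fun n => f n (g n)) atTop (𝓝 (f0 g0)) :=
  (isBoundedBilinearMap_apply (𝕜 := ℝ) (E := F) (F := G)).continuous.continuousAt.tendsto.comp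
    (hf.prodMk_nhds hg)

omit [NormedSpace ℝ E] in
theorem exists_seq (x : UniformSpace.Completion E) :
    ∃ s : ℕ → E, Tendsto (fun n => (s n : UniformSpace.Completion E)) atTop (𝓝 x) := by
  have hx : x ∈ closure (Set.range (fun y : E => (y : UniformSpace.Completion E))) :=
    UniformSpace.Completion.denseRange_coe x
  obtain ⟨u, hu, hlim⟩ := mem_closure_iff_seq_limit.1 hx
  choose s hs using hu
  exact ⟨s, by simpa [hs] using hlim⟩

omit [NormedSpace ℝ E] in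
/-- a map into a complete space, Lipschitz on bounded sets, converges along a sequence converging
in the completion. -/
theorem tendsto_of_lip {F : Type} [NormedAddCommGroup F] [CompleteSpace F] (T : E → F)
    (om : ℝ → ℝ) (hom1 : ∀ R, 0 ≤ om R)
    (hT : ∀ R x y, ‖x‖ ≤ R → ‖y‖ ≤ R → ‖T x - T y‖ ≤ om R * ‖x - y‖) (s : ℕ → E)
    (x : UniformSpace.Completion E)
    (hs : Tendsto (fun n => (s n : UniformSpace.Completion E)) atTop (𝓝 x)) :
    ∃ z, Tendsto (fun n => T (s n)) atTop (𝓝 z) := by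
  have hcs : CauchySeq (fun n => (s n : UniformSpace.Completion E)) := hs.cauchySeq
  obtain ⟨R, hR⟩ : ∃ R : ℝ, ∀ n, ‖s n‖ ≤ R := by
    obtain ⟨R, hR⟩ := hcs.norm_bddAbove
    refine ⟨R, fun n => ?_⟩
    have := hR ⟨n, rfl⟩
    simpa [UniformSpace.Completion.norm_coe] using this
  refine cauchySeq_tendsto_of_complete ?_
  rw [Metric.cauchySeq_iff]
  intro ε hε
  obtain ⟨N, hN⟩ := Metric.cauchySeq_iff.1 hcs (ε / (om R + 1)) (by have := hom1 R; positivity)
  refine ⟨N, fun m hm n hn => ?_⟩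
  have h1 := hN m hm n hn
  rw [UniformSpace.Completion.dist_eq, dist_eq_norm] at h1
  rw [dist_eq_norm]
  have h2 := hT R (s m) (s n) (hR m) (hR n)
  have h3 : 0 < om R + 1 := by have := hom1 R; positivity
  rw [lt_div_iff₀ h3] at h1
  have h4 : 0 ≤ ‖s m - s n‖ := norm_nonneg _
  nlinarith

end ExtQ

open ExtQ in
/-- D2, with the conclusion of D1 (`converse_taylor`) as a hypothesis. -/
theorem extend_Q_of {E : Type} [NormedAddCommGroup E] [NormedSpace ℝ E]
    (L : E → E →ₗ[ℝ] ℝ) (B : E → E →ₗ[ℝ] E →ₗ[ℝ] ℝ) (K : ℝ)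
    (hB : ∀ x h k, B x h k = B x k h)
    (hQ : ∀ x h : E, |‖x + h‖ ^ 4 - ‖x‖ ^ 4 - L x h - 1 / 2 * B x h h| ≤
      K * (‖x‖ + ‖h‖) * ‖h‖ ^ 3)
    (hD1 : ∃ K' : ℝ, 0 ≤ K' ∧
      (∀ x h k l, |B (x + h) k l - B x k l| ≤ K' * (‖x‖ + ‖h‖) * ‖h‖ * ‖k‖ * ‖l‖) ∧
      (∀ x h k, |L (x + h) k - L x k - B x h k| ≤ K' * (‖x‖ + ‖h‖) * ‖h‖ ^ 2 * ‖k‖)) :
    ∃ (L' : UniformSpace.Completion E → UniformSpace.Completion E →L[ℝ] ℝ)
      (B' : UniformSpace.Completion E →
        UniformSpace.Completion E →L[ℝ] UniformSpace.Completion E →L[ℝ] ℝ),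
      (∀ x h k, B' x h k = B' x k h) ∧
      ∀ x h : UniformSpace.Completion E,
        |‖x + h‖ ^ 4 - ‖x‖ ^ 4 - L' x h - 1 / 2 * B' x h h| ≤ K * (‖x‖ + ‖h‖) * ‖h‖ ^ 3 := by
  obtain ⟨K', hK', hBl, hLl⟩ := hD1
  -- values at 0
  have h0 : ∀ h : E, L 0 h = 0 ∧ B 0 h h = 0 := by
    intro h
    have := coef_zero (a := ‖h‖ ^ 4) (b := L 0 h) (c := 1 / 2 * B 0 h h) (d := K * ‖h‖ ^ 4)
      (fun t => by
        have h1 := hQ 0 (t • h)
        simp only [zero_add, norm_zero, map_smul, LinearMap.smul_apply, smul_eq_mul,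
          norm_smul, Real.norm_eq_abs] at h1
        have e1 : (|t| * ‖h‖) ^ 4 = t ^ 4 * ‖h‖ ^ 4 := by
          rw [mul_pow]; congr 1
          have : |t| ^ 4 = (|t| ^ 2) ^ 2 := by ring
          rw [this, sq_abs]; ring
        have e2 : K * (|t| * ‖h‖) * (|t| * ‖h‖) ^ 3 = t ^ 4 * (K * ‖h‖ ^ 4) := by
          calc K * (|t| * ‖h‖) * (|t| * ‖h‖) ^ 3 = K * (|t| * ‖h‖) ^ 4 := by ring
            _ = t ^ 4 * (K * ‖h‖ ^ 4) := by rw [e1]; ring
        rw [e1, e2] at h1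
        have e3 : t ^ 4 * ‖h‖ ^ 4 - t * L 0 h - t ^ 2 * (1 / 2 * B 0 h h)
            = t ^ 4 * ‖h‖ ^ 4 - 0 ^ 4 - t * L 0 h - 1 / 2 * (t * (t * B 0 h h)) := by ring
        rw [e3]
        exact h1)
    exact ⟨this.1, by linarith [this.2]⟩
  have hB0 : ∀ h k : E, B 0 h k = 0 := by
    intro h k
    have h1 := (h0 (h + k)).2
    simp only [map_add, LinearMap.add_apply] at h1
    rw [(h0 h).2, (h0 k).2, hB 0 k h] at h1
    linarith
  have hBb : ∀ x k l : E, |B x k l| ≤ K' * ‖x‖ ^ 2 * ‖k‖ * ‖l‖ := by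
    intro x k l
    have h1 := hBl 0 x k l
    rw [zero_add, hB0, norm_zero, zero_add, sub_zero] at h1
    calc |B x k l| ≤ K' * ‖x‖ * ‖x‖ * ‖k‖ * ‖l‖ := h1
      _ = K' * ‖x‖ ^ 2 * ‖k‖ * ‖l‖ := by ring
  have hLb : ∀ x k : E, |L x k| ≤ K' * ‖x‖ ^ 3 * ‖k‖ := by
    intro x k
    have h1 := hLl 0 x k
    rw [zero_add, hB0, (h0 k).1, norm_zero, zero_add, sub_zero, sub_zero] at h1
    calc |L x k| ≤ K' * ‖x‖ * ‖x‖ ^ 2 * ‖k‖ := h1
      _ = K' * ‖x‖ ^ 3 * ‖k‖ := by ring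
  -- bundled versions
  let Lc : E → E →L[ℝ] ℝ := fun x => (L x).mkContinuous (K' * ‖x‖ ^ 3) (fun k => hLb x k)
  let Bc : E → E →L[ℝ] E →L[ℝ] ℝ :=
    fun x => (B x).mkContinuous₂ (K' * ‖x‖ ^ 2) (fun k l => hBb x k l)
  have hLc : ∀ x k, Lc x k = L x k := fun x k => rfl
  have hBc : ∀ x k l, Bc x k l = B x k l := fun x k l => rfl
  let L1 : E → UniformSpace.Completion E →L[ℝ] ℝ := fun x => ex (Lc x)
  let B1 : E → UniformSpace.Completion E →L[ℝ] UniformSpace.Completion E →L[ℝ] ℝ :=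
    fun x => ex2 (Bc x)
  have hL1 : ∀ x k : E, L1 x (k : UniformSpace.Completion E) = L x k := fun x k => ex_apply _ _
  have hB1 : ∀ x k l : E, B1 x (k : UniformSpace.Completion E) (l : UniformSpace.Completion E)
      = B x k l := fun x k l => by
    show ex2 (Bc x) _ _ = _
    rw [ex2_apply, hBc, hB]
  -- Lipschitz bounds
  have hB1l : ∀ R x y, ‖x‖ ≤ R → ‖y‖ ≤ R → ‖B1 x - B1 y‖ ≤ (3 * K' * |R|) * ‖x - y‖ := by
    intro R x y hx hy
    refine norm_le_of_dense₂ (by positivity) (fun k l => ?_)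
    rw [_root_.sub_apply, _root_.sub_apply, hB1, hB1]
    have h1 := hBl y (x - y) k l
    rw [add_sub_cancel] at h1
    refine h1.trans ?_
    have hR : 0 ≤ R := (norm_nonneg x).trans hx
    rw [abs_of_nonneg hR]
    have h2 : ‖y‖ + ‖x - y‖ ≤ 3 * R := by
      have := norm_sub_le x y
      linarith
    have h3 : K' * (‖y‖ + ‖x - y‖) ≤ 3 * K' * R := by nlinarith
    gcongr
  have hL1l : ∀ R x y, ‖x‖ ≤ R → ‖y‖ ≤ R → ‖L1 x - L1 y‖ ≤ (7 * K' * R ^ 2) * ‖x - y‖ := by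
    intro R x y hx hy
    refine norm_le_of_dense (by positivity) (fun k => ?_)
    rw [_root_.sub_apply, hL1, hL1]
    have h1 := hLl y (x - y) k
    rw [add_sub_cancel] at h1
    have hR : 0 ≤ R := (norm_nonneg x).trans hx
    have h2 : ‖x - y‖ ≤ 2 * R := by
      have := norm_sub_le x y
      linarith
    have h3 := hBb y (x - y) k
    have h4 : |L x k - L y k| ≤ K' * (‖y‖ + ‖x - y‖) * ‖x - y‖ ^ 2 * ‖k‖
        + K' * ‖y‖ ^ 2 * ‖x - y‖ * ‖k‖ := by
      calc |L x k - L y k| = |(L x k - L y k - B y (x - y) k) + B y (x - y) k| := by ring_nf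
        _ ≤ |L x k - L y k - B y (x - y) k| + |B y (x - y) k| := abs_add_le _ _
        _ ≤ _ := add_le_add h1 h3
    refine h4.trans ?_
    have h5 : K' * (‖y‖ + ‖x - y‖) * ‖x - y‖ ^ 2 * ‖k‖ + K' * ‖y‖ ^ 2 * ‖x - y‖ * ‖k‖
        = (K' * ((‖y‖ + ‖x - y‖) * ‖x - y‖ + ‖y‖ ^ 2)) * ‖x - y‖ * ‖k‖ := by ring
    rw [h5]
    have h6 : (‖y‖ + ‖x - y‖) * ‖x - y‖ + ‖y‖ ^ 2 ≤ 7 * R ^ 2 := by
      have ha : (‖y‖ + ‖x - y‖) * ‖x - y‖ ≤ (3 * R) * (2 * R) := by
        apply mul_le_mul (by linarith) h2 (norm_nonneg _) (by positivity)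
      have hb : ‖y‖ ^ 2 ≤ R ^ 2 := by gcongr
      nlinarith
    have h7 : K' * ((‖y‖ + ‖x - y‖) * ‖x - y‖ + ‖y‖ ^ 2) ≤ 7 * K' * R ^ 2 := by
      nlinarith
    gcongr
  -- choose sequences and limits
  have hseq : ∀ x : UniformSpace.Completion E, ∃ (s : ℕ → E) (l : UniformSpace.Completion E →L[ℝ] ℝ)
      (b : UniformSpace.Completion E →L[ℝ] UniformSpace.Completion E →L[ℝ] ℝ),
      Tendsto (fun n => (s n : UniformSpace.Completion E)) atTop (𝓝 x) ∧
      Tendsto (fun n => L1 (s n)) atTop (𝓝 l) ∧ Tendsto (fun n => B1 (s n)) atTop (𝓝 b) := by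
    intro x
    obtain ⟨s, hs⟩ := exists_seq x
    obtain ⟨l, hl⟩ := tendsto_of_lip L1 (fun R => 7 * K' * R ^ 2) (fun R => by positivity)
      hL1l s x hs
    obtain ⟨b, hb⟩ := tendsto_of_lip B1 (fun R => 3 * K' * |R|) (fun R => by positivity)
      hB1l s x hs
    exact ⟨s, l, b, hs, hl, hb⟩
  choose s L' B' hs hL' hB' using hseq
  refine ⟨L', B', fun x h k => ?_, fun x h => ?_⟩
  · obtain ⟨u, hu⟩ := exists_seq h
    obtain ⟨v, hv⟩ := exists_seq k
    have h1 : Tendsto (fun n => B1 (s x n) (u n) (v n)) atTop (𝓝 (B' x h k)) :=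
      tendsto_clm (tendsto_clm (hB' x) hu) hv
    have h2 : Tendsto (fun n => B1 (s x n) (v n) (u n)) atTop (𝓝 (B' x k h)) :=
      tendsto_clm (tendsto_clm (hB' x) hv) hu
    refine tendsto_nhds_unique h1 (h2.congr (fun n => ?_))
    rw [hB1, hB1, hB]
  · obtain ⟨u, hu⟩ := exists_seq h
    have h1 : Tendsto (fun n => |‖(s x n : UniformSpace.Completion E) + u n‖ ^ 4
        - ‖(s x n : UniformSpace.Completion E)‖ ^ 4 - L1 (s x n) (u n)
        - 1 / 2 * B1 (s x n) (u n) (u n)|) atTop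
        (𝓝 |‖x + h‖ ^ 4 - ‖x‖ ^ 4 - L' x h - 1 / 2 * B' x h h|) := by
      refine Tendsto.abs ?_
      refine ((((((hs x).add hu).norm).pow 4).sub (((hs x).norm).pow 4)).sub
        (tendsto_clm (hL' x) hu)).sub ?_
      exact (tendsto_clm (tendsto_clm (hB' x) hu) hu).const_mul _
    have h2 : Tendsto (fun n => K * (‖(s x n : UniformSpace.Completion E)‖
        + ‖(u n : UniformSpace.Completion E)‖) * ‖(u n : UniformSpace.Completion E)‖ ^ 3) atTop
        (𝓝 (K * (‖x‖ + ‖h‖) * ‖h‖ ^ 3)) :=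
      ((((hs x).norm).add hu.norm).const_mul K).mul ((hu.norm).pow 3)
    refine le_of_tendsto_of_tendsto' h1 h2 (fun n => ?_)
    rw [hL1, hB1, ← UniformSpace.Completion.coe_add, UniformSpace.Completion.norm_coe,
      UniformSpace.Completion.norm_coe, UniformSpace.Completion.norm_coe]
    exact hQ (s x n) (u n)

theorem extend_Q {E : Type} [NormedAddCommGroup E] [NormedSpace ℝ E]
    (L : E → E →ₗ[ℝ] ℝ) (B : E → E →ₗ[ℝ] E →ₗ[ℝ] ℝ) (K : ℝ) (hK : 0 ≤ K)
    (hB : ∀ x h k, B x h k = B x k h)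
    (hQ : ∀ x h : E, |‖x + h‖ ^ 4 - ‖x‖ ^ 4 - L x h - 1 / 2 * B x h h| ≤
      K * (‖x‖ + ‖h‖) * ‖h‖ ^ 3) :
    ∃ (L' : UniformSpace.Completion E → UniformSpace.Completion E →L[ℝ] ℝ)
      (B' : UniformSpace.Completion E →
        UniformSpace.Completion E →L[ℝ] UniformSpace.Completion E →L[ℝ] ℝ),
      (∀ x h k, B' x h k = B' x k h) ∧
      ∀ x h : UniformSpace.Completion E,
        |‖x + h‖ ^ 4 - ‖x‖ ^ 4 - L' x h - 1 / 2 * B' x h h| ≤ K * (‖x‖ + ‖h‖) * ‖h‖ ^ 3 :=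
  extend_Q_of L B K hB hQ (converse_taylor (fun x => ‖x‖ ^ 4) L B K hK hB hQ)

end Pool.Agent.US
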