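import Pool.Agent.Helper91.US.GapCore
import Pool.Agent.Helper91.US.NNBasic

/-!
# The gap estimate, final form
-/

set_option autoImplicit false

namespace Pool.Agent.US

open Finset

theorem NN_gap {β : ℝ} (hβ : 0 < β) (hβ' : β ≤ 1 / 4) : ∃ δ : ℝ, 0 < δ ∧ ∀ M : ℕ, ∃ r : ℕ, 0 < r ∧
    ∀ (N : ℕ → ℕ) (u₀ : ℕ → ℝ) (z : ℕ → ℕ → ℝ), StrictMono N → M < N 0 →
      (∀ i, 0 ≤ u₀ i) → (∀ i, u₀ i ≠ 0 → i < M) → (∀ j i, 0 ≤ z j i) →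
      (∀ j i, z j i ≠ 0 → N j ≤ i ∧ i < N (j + 1)) → NN β u₀ ≤ 1 → (∀ j < r, NN β (z j) ≤ 1) →
      NN β (fun i => u₀ i / 2 + ∑ j ∈ range r, z j i / (2 * r)) ≤ 1 - δ :=
  NN_gap_core hβ (fun _ _ _ hz h => NN_le_of hz h)
    (fun _ _ _ hz0 hz hm => le_NN hβ.le hz0 hz hm)
    (fun _ hm _ _ hai hi => V_mono_tail hm hai hi)
    (fun _ hm _ _ _ hMa hai hi h1 h2 => V_gain hm hMa hai hi h1 h2)

end Pool.Agent.US
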