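import Pool.Agent.Helper91.US.Defs2

/-!
# Gliding hump
-/

set_option autoImplicit false

namespace Pool.Agent.US

open Finset Filter Topology
open scoped ContDiff

/-- norm of a combination of unit vectors -/
theorem lp_norm_comb (p : ENNReal) (hp1 : 1 < p) (hp2 : p < ⊤) (k : ℕ → ℕ)
    (hk : Function.Injective k) (n : ℕ) (s : ℕ → ℝ) :
    ‖∑ j ∈ range n, s j • lp.single (E := fun _ : ℕ => ℝ) p (k j) (1 : ℝ)‖ =
      (∑ j ∈ range n, |s j| ^ p.toReal) ^ (1 / p.toReal) := by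
  have hq : 0 < p.toReal := ENNReal.toReal_pos (by positivity) hp2.ne
  have h1 := lp.norm_sum_single (E := fun _ : ℕ => ℝ) (p := p) hq (Function.extend k s 0)
    ((range n).image k)
  rw [Finset.sum_image (fun _ _ _ _ h => hk h), Finset.sum_image (fun _ _ _ _ h => hk h)] at h1
  simp only [hk.extend_apply, Real.norm_eq_abs] at h1
  have h2 : ∑ j ∈ range n, s j • lp.single (E := fun _ : ℕ => ℝ) p (k j) (1 : ℝ) =
      ∑ j ∈ range n, lp.single (E := fun _ : ℕ => ℝ) p (k j) (s j) := by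
    refine Finset.sum_congr rfl fun j _ => ?_
    rw [← lp.single_smul]
    simp
  rw [h2, ← h1, one_div, Real.rpow_rpow_inv (lp.norm_nonneg' _) hq.ne']

theorem abs_le_rpow_sum {q : ℝ} (hq : 0 < q) (n : ℕ) (s : ℕ → ℝ) {j : ℕ} (hj : j ∈ range n) :
    |s j| ≤ (∑ j ∈ range n, |s j| ^ q) ^ (1 / q) := by
  have h1 : |s j| ^ q ≤ ∑ j ∈ range n, |s j| ^ q :=
    Finset.single_le_sum (f := fun j => |s j| ^ q)
      (fun i _ => Real.rpow_nonneg (abs_nonneg _) _) hj
  have h2 := Real.rpow_le_rpow (Real.rpow_nonneg (abs_nonneg (s j)) q) h1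
    (by positivity : 0 ≤ 1 / q)
  rwa [one_div, Real.rpow_rpow_inv (abs_nonneg _) hq.ne', ← one_div] at h2

section

variable {E : Type} [NormedAddCommGroup E] [NormedSpace ℝ E]

/-- perturbation -/
theorem comb_perturb (n : ℕ) (s : ℕ → ℝ) (x : ℕ → UniformSpace.Completion E) (u : ℕ → E)
    (ε : ℕ → ℝ) (h : ∀ j, ‖x j - (u j : UniformSpace.Completion E)‖ ≤ ε j) :
    |‖∑ j ∈ range n, s j • u j‖ - ‖∑ j ∈ range n, s j • x j‖| ≤ ∑ j ∈ range n, |s j| * ε j := by
  have h1 : ‖∑ j ∈ range n, s j • u j‖ =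
      ‖∑ j ∈ range n, s j • (u j : UniformSpace.Completion E)‖ := by
    rw [← UniformSpace.Completion.norm_coe (∑ j ∈ range n, s j • u j)]
    congr 1
    show UniformSpace.Completion.toComplₗᵢ (𝕜 := ℝ) (E := E) (∑ j ∈ range n, s j • u j) = _
    rw [map_sum]
    refine Finset.sum_congr rfl fun j _ => ?_
    rw [map_smul]
    rfl
  rw [h1]
  refine (abs_norm_sub_norm_le _ _).trans ?_
  rw [← Finset.sum_sub_distrib]
  refine (norm_sum_le _ _).trans (Finset.sum_le_sum fun j _ => ?_)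
  rw [← smul_sub, norm_smul, Real.norm_eq_abs, norm_sub_rev]
  exact mul_le_mul_of_nonneg_left (h j) (abs_nonneg _)

theorem half_pow_sum_le (n : ℕ) : ∑ j ∈ range n, (1 / 2 : ℝ) ^ j ≤ 2 := by
  have := sum_geometric_two_le n
  simpa using this

/-- the coordinates tend to zero -/
theorem coord_tendsto (e : E ≃ₗ[ℝ] (ℕ →₀ ℝ))
    (hcoord : ∀ x i, |e x i| ≤ ‖x‖) (p : ENNReal) (hp1 : 1 < p) (hp2 : p < ⊤)
    (T : lp (fun _ : ℕ => ℝ) p →ₗ[ℝ] UniformSpace.Completion E) (b : ℝ) (hb : 0 < b)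
    (hT : ∀ x : lp (fun _ : ℕ => ℝ) p, ‖T x‖ ≤ b * ‖x‖) (v : ℕ → E) (d : ℝ) (hd : 0 < d)
    (hv : ∀ n, ‖T (lp.single p n (1 : ℝ)) - (v n : UniformSpace.Completion E)‖ ≤
      d * (1 / 2) ^ n) (i : ℕ) : Tendsto (fun n => e (v n) i) atTop (𝓝 0) := by
  have hq : 0 < p.toReal := ENNReal.toReal_pos (by positivity) hp2.ne
  have hq1 : 1 < p.toReal := by
    rw [← ENNReal.toReal_one]
    exact (ENNReal.toReal_lt_toReal ENNReal.one_ne_top hp2.ne).2 hp1
  by_contra hcon
  rw [Metric.tendsto_atTop] at hcon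
  push Not at hcon
  obtain ⟨δ, hδ, hδ'⟩ := hcon
  have hfr : ∃ᶠ n in atTop, δ ≤ |e (v n) i| := by
    rw [frequently_atTop]
    intro N
    obtain ⟨n, hn, h⟩ := hδ' N
    exact ⟨n, hn, by simpa [Real.dist_eq] using h⟩
  obtain ⟨k, hk, hk'⟩ := Filter.extraction_of_frequently_atTop hfr
  -- signs
  set σ : ℕ → ℝ := fun j => if 0 ≤ e (v (k j)) i then 1 else -1 with hσ
  have hσ1 : ∀ j, |σ j| = 1 := by
    intro j; simp only [hσ]; split_ifs <;> simp
  have hσ2 : ∀ j, σ j * e (v (k j)) i = |e (v (k j)) i| := by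
    intro j; simp only [hσ]
    split_ifs with h
    · rw [abs_of_nonneg h, one_mul]
    · rw [abs_of_neg (not_le.1 h)]; ring
  have main : ∀ K : ℕ, (K : ℝ) * δ ≤ b * (K : ℝ) ^ (1 / p.toReal) + 2 * d := by
    intro K
    have h1 : (K : ℝ) * δ ≤ ∑ j ∈ range K, σ j * e (v (k j)) i := by
      have : ∑ _j ∈ range K, δ ≤ ∑ j ∈ range K, σ j * e (v (k j)) i :=
        Finset.sum_le_sum fun j _ => by rw [hσ2]; exact hk' j
      simpa using this
    have h2 : ∑ j ∈ range K, σ j * e (v (k j)) i = e (∑ j ∈ range K, σ j • v (k j)) i := by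
      rw [map_sum, Finsupp.finsetSum_apply]
      refine Finset.sum_congr rfl fun j _ => ?_
      simp
    have h3 := hcoord (∑ j ∈ range K, σ j • v (k j)) i
    have h4 := comb_perturb K σ (fun j => T (lp.single p (k j) (1 : ℝ))) (fun j => v (k j))
      (fun j => d * (1 / 2) ^ (k j)) (fun j => hv (k j))
    have h5 : ‖∑ j ∈ range K, σ j • T (lp.single p (k j) (1 : ℝ))‖ ≤
        b * (K : ℝ) ^ (1 / p.toReal) := by
      have e1 : ∑ j ∈ range K, σ j • T (lp.single p (k j) (1 : ℝ)) =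
          T (∑ j ∈ range K, σ j • lp.single p (k j) (1 : ℝ)) := by
        rw [map_sum]; simp
      rw [e1]
      refine (hT _).trans ?_
      rw [lp_norm_comb p hp1 hp2 k hk.injective K σ]
      simp [hσ1]
    have h6 : ∑ j ∈ range K, |σ j| * (d * (1 / 2) ^ (k j)) ≤ 2 * d := by
      have e1 : ∀ j ∈ range K, |σ j| * (d * (1 / 2 : ℝ) ^ (k j)) ≤ d * (1 / 2) ^ j := by
        intro j _
        rw [hσ1, one_mul]
        exact mul_le_mul_of_nonneg_left
          (pow_le_pow_of_le_one (by norm_num) (by norm_num) (hk.le_apply)) hd.le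
      refine (Finset.sum_le_sum e1).trans ?_
      rw [← Finset.mul_sum]
      nlinarith [half_pow_sum_le K]
    have h7 := le_abs_self (e (∑ j ∈ range K, σ j • v (k j)) i)
    have h8 := (abs_le.1 h4).2
    rw [h2] at h1
    linarith
  -- growth contradiction
  have hlim : Tendsto (fun K : ℕ => b * (K : ℝ) ^ (1 / p.toReal - 1) + 2 * d / K) atTop
      (𝓝 (b * 0 + 0)) := by
    refine Tendsto.add (Tendsto.const_mul b ?_) ?_
    · have h1 : Tendsto (fun x : ℝ => x ^ (-(1 - 1 / p.toReal))) atTop (𝓝 0) :=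
        tendsto_rpow_neg_atTop (by
          rw [sub_pos, div_lt_one hq]; exact hq1)
      have h2 := h1.comp tendsto_natCast_atTop_atTop
      refine h2.congr fun K => ?_
      simp only [Function.comp]
      congr 1
      ring
    · exact tendsto_const_div_atTop_nhds_zero_nat _
  rw [mul_zero, add_zero] at hlim
  have hev := (hlim.eventually (gt_mem_nhds hδ)).and (eventually_gt_atTop 0)
  obtain ⟨K, hK, hK0⟩ := hev.exists
  have hK0' : (0 : ℝ) < K := by exact_mod_cast hK0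
  have h1 := main K
  have h2 : (K : ℝ) * (b * (K : ℝ) ^ (1 / p.toReal - 1) + 2 * d / K) =
      b * (K : ℝ) ^ (1 / p.toReal) + 2 * d := by
    rw [Real.rpow_sub_one hK0'.ne']
    field_simp
  have h3 := mul_lt_mul_of_pos_left hK hK0'
  linarith

end

theorem glide {E : Type} [NormedAddCommGroup E] [NormedSpace ℝ E] (e : E ≃ₗ[ℝ] (ℕ →₀ ℝ))
    (hcoord : ∀ x i, |e x i| ≤ ‖x‖) (p : ENNReal) (hp1 : 1 < p) (hp2 : p < ⊤)
    (T : lp (fun _ : ℕ => ℝ) p →ₗ[ℝ] UniformSpace.Completion E) (a b : ℝ) (ha : 0 < a)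
    (hb : 0 < b) (hT : ∀ x : lp (fun _ : ℕ => ℝ) p, a * ‖x‖ ≤ ‖T x‖ ∧ ‖T x‖ ≤ b * ‖x‖) :
    ∃ (N : ℕ → ℕ) (u : ℕ → E) (c C : ℝ), StrictMono N ∧ 0 < c ∧ 0 < C ∧
      (∀ j i, e (u j) i ≠ 0 → N j ≤ i ∧ i < N (j + 1)) ∧
      ∀ (n : ℕ) (s : ℕ → ℝ),
        c * (∑ j ∈ range n, |s j| ^ p.toReal) ^ (1 / p.toReal) ≤ ‖∑ j ∈ range n, s j • u j‖ ∧
        ‖∑ j ∈ range n, s j • u j‖ ≤ C * (∑ j ∈ range n, |s j| ^ p.toReal) ^ (1 / p.toReal) := by
  classical
  have hq : 0 < p.toReal := ENNReal.toReal_pos (by positivity) hp2.ne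
  set d : ℝ := a / 8 with hd_def
  have hd : 0 < d := by positivity
  have hv : ∀ n, ∃ v : E, ‖T (lp.single p n (1 : ℝ)) - (v : UniformSpace.Completion E)‖ ≤
      d * (1 / 2) ^ n := by
    intro n
    obtain ⟨v, hv⟩ := (UniformSpace.Completion.denseRange_coe).exists_dist_lt
      (T (lp.single p n (1 : ℝ))) (show 0 < d * (1 / 2) ^ n by positivity)
    exact ⟨v, by rw [← dist_eq_norm]; exact hv.le⟩
  choose v hv using hv
  have hco := coord_tendsto e hcoord p hp1 hp2 T b hb (fun x => (hT x).2) v d hd hv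
  let w : ℕ → E := fun i => e.symm (Finsupp.single i 1)
  have hchoice : ∀ (N m j : ℕ), ∃ n, m < n ∧
      ∑ i ∈ range N, |e (v n) i| * ‖w i‖ ≤ d * (1 / 2) ^ j := by
    intro N m j
    have h1 : Tendsto (fun n => ∑ i ∈ range N, |e (v n) i| * ‖w i‖) atTop (𝓝 0) := by
      have : Tendsto (fun n => ∑ i ∈ range N, |e (v n) i| * ‖w i‖) atTop
          (𝓝 (∑ i ∈ range N, |(0 : ℝ)| * ‖w i‖)) :=
        tendsto_finsetSum _ fun i _ => ((hco i).abs).mul_const _
      simpa using this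
    obtain ⟨n, hn, hn'⟩ := ((h1.eventually
      (gt_mem_nhds (show (0 : ℝ) < d * (1 / 2) ^ j by positivity))).and
      (eventually_gt_atTop m)).exists
    exact ⟨n, hn', hn.le⟩
  choose ch hch1 hch2 using hchoice
  have hbd : ∀ (N n : ℕ), ∃ N', N < N' ∧ ∀ i, e (v n) i ≠ 0 → i < N' := by
    intro N n
    refine ⟨max (N + 1) ((e (v n)).support.sup id + 1), by omega, fun i hi => ?_⟩
    have : id i ≤ (e (v n)).support.sup id := Finset.le_sup (Finsupp.mem_support_iff.2 hi)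
    simp only [id] at this
    omega
  choose bd hbd1 hbd2 using hbd
  let S : ℕ → ℕ × ℕ := fun j =>
    Nat.rec (0, 0) (fun j q => (bd q.1 (ch q.1 q.2 j), ch q.1 q.2 j)) j
  have hS : ∀ j, S (j + 1) = (bd (S j).1 (ch (S j).1 (S j).2 j), ch (S j).1 (S j).2 j) :=
    fun j => rfl
  let N : ℕ → ℕ := fun j => (S j).1
  let k : ℕ → ℕ := fun j => (S (j + 1)).2
  have hN : StrictMono N := strictMono_nat_of_lt_succ fun j => by
    show (S j).1 < (S (j + 1)).1
    rw [hS]; exact hbd1 _ _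
  have hk : StrictMono k := strictMono_nat_of_lt_succ fun j => by
    show (S (j + 1)).2 < (S (j + 1 + 1)).2
    rw [hS (j + 1)]; exact hch1 _ _ _
  have hk2 : ∀ j, ∑ i ∈ range (N j), |e (v (k j)) i| * ‖w i‖ ≤ d * (1 / 2) ^ j := fun j =>
    hch2 _ _ _
  have hk3 : ∀ j i, e (v (k j)) i ≠ 0 → i < N (j + 1) := fun j i hi => hbd2 _ _ i hi
  let g : ℕ → E := fun j => ∑ i ∈ range (N j), (e (v (k j)) i) • w i
  have hg : ∀ j i, e (g j) i = if i < N j then e (v (k j)) i else 0 := by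
    intro j i
    simp only [g, w]
    rw [map_sum, Finsupp.finsetSum_apply]
    have : ∀ l ∈ range (N j), (e ((e (v (k j)) l) • e.symm (Finsupp.single l 1))) i =
        if l = i then e (v (k j)) l else 0 := by
      intro l _
      rw [map_smul, LinearEquiv.apply_symm_apply, Finsupp.smul_apply, Finsupp.single_apply]
      split_ifs <;> simp
    rw [Finset.sum_congr rfl this, Finset.sum_ite_eq']
    simp [Finset.mem_range]
  have hgn : ∀ j, ‖g j‖ ≤ d * (1 / 2) ^ j := by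
    intro j
    refine (norm_sum_le _ _).trans (le_trans (le_of_eq ?_) (hk2 j))
    refine Finset.sum_congr rfl fun i _ => ?_
    rw [norm_smul, Real.norm_eq_abs]
  let u : ℕ → E := fun j => v (k j) - g j
  have hu : ∀ j i, e (u j) i ≠ 0 → N j ≤ i ∧ i < N (j + 1) := by
    intro j i hi
    have h1 : e (u j) i = e (v (k j)) i - (if i < N j then e (v (k j)) i else 0) := by
      simp only [u]
      rw [map_sub, Finsupp.sub_apply, hg]
    by_cases hlt : i < N j
    · rw [if_pos hlt, sub_self] at h1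
      exact absurd h1 hi
    · rw [if_neg hlt, sub_zero] at h1
      exact ⟨not_lt.1 hlt, hk3 j i (h1 ▸ hi)⟩
  have hTu : ∀ j, ‖T (lp.single p (k j) (1 : ℝ)) - (u j : UniformSpace.Completion E)‖ ≤
      2 * d * (1 / 2) ^ j := by
    intro j
    have h1 : T (lp.single p (k j) (1 : ℝ)) - (u j : UniformSpace.Completion E) =
        (T (lp.single p (k j) (1 : ℝ)) - (v (k j) : UniformSpace.Completion E)) +
          (g j : UniformSpace.Completion E) := by
      simp only [u, UniformSpace.Completion.coe_sub]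
      abel
    rw [h1]
    refine (norm_add_le _ _).trans ?_
    rw [UniformSpace.Completion.norm_coe]
    have h2 := hv (k j)
    have h3 := hgn j
    have h4 : (1 / 2 : ℝ) ^ k j ≤ (1 / 2) ^ j :=
      pow_le_pow_of_le_one (by norm_num) (by norm_num) hk.le_apply
    nlinarith
  refine ⟨N, u, a / 2, b + a / 2, hN, by positivity, by positivity, hu, fun n s => ?_⟩
  have h1 := comb_perturb n s (fun j => T (lp.single p (k j) (1 : ℝ))) u
      (fun j => 2 * d * (1 / 2) ^ j) hTu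
  have h2 : ∑ j ∈ range n, s j • T (lp.single p (k j) (1 : ℝ)) =
      T (∑ j ∈ range n, s j • lp.single p (k j) (1 : ℝ)) := by
    rw [map_sum]; simp
  have h3 := hT (∑ j ∈ range n, s j • lp.single p (k j) (1 : ℝ))
  rw [lp_norm_comb p hp1 hp2 k hk.injective n s, ← h2] at h3
  set Qs : ℝ := (∑ j ∈ range n, |s j| ^ p.toReal) ^ (1 / p.toReal) with hQs
  have hQ0 : 0 ≤ Qs := Real.rpow_nonneg
    (Finset.sum_nonneg fun i _ => Real.rpow_nonneg (abs_nonneg _) _) _
  have h4 : ∑ j ∈ range n, |s j| * (2 * d * (1 / 2) ^ j) ≤ a / 2 * Qs := by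
    have e1 : ∀ j ∈ range n, |s j| * (2 * d * (1 / 2) ^ j) ≤ Qs * (2 * d) * (1 / 2) ^ j := by
      intro j hj
      have := abs_le_rpow_sum hq n s hj
      have h5 : 0 ≤ 2 * d * (1 / 2 : ℝ) ^ j := by positivity
      calc |s j| * (2 * d * (1 / 2) ^ j) ≤ Qs * (2 * d * (1 / 2) ^ j) :=
            mul_le_mul_of_nonneg_right this h5
        _ = _ := by ring
    refine (Finset.sum_le_sum e1).trans ?_
    rw [← Finset.mul_sum]
    have h6 := half_pow_sum_le n
    have h7 : 0 ≤ Qs * (2 * d) := by positivity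
    calc Qs * (2 * d) * ∑ j ∈ range n, (1 / 2 : ℝ) ^ j ≤ Qs * (2 * d) * 2 :=
          mul_le_mul_of_nonneg_left h6 h7
      _ = a / 2 * Qs := by rw [hd_def]; ring
  have h5 := abs_le.1 h1
  constructor
  · linarith [h3.1, h5.1]
  · linarith [h3.2, h5.2]

end Pool.Agent.US
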