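import Pool.Agent.Helper91.US.Gap
import Pool.Agent.Helper79.US.SubLower

set_option autoImplicit false

/-! # Module F2 (NOLQ): no `ℓ_q` lower/upper estimates on a block sequence -/

namespace Pool.Agent.US

open Finset Filter Topology
open scoped ContDiff

namespace NoLq

/-- block structure -/
def Blk (N : ℕ → ℕ) (z : ℕ → ℕ → ℝ) : Prop := ∀ j i, z j i ≠ 0 → N j ≤ i ∧ i < N (j + 1)

theorem Blk.unique {N : ℕ → ℕ} (hN : StrictMono N) {z : ℕ → ℕ → ℝ} (hz : Blk N z) {i j k : ℕ}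
    (h1 : z j i ≠ 0) (h2 : z k i ≠ 0) : j = k := by
  obtain ⟨a1, a2⟩ := hz j i h1
  obtain ⟨b1, b2⟩ := hz k i h2
  by_contra hne
  rcases Nat.lt_or_gt_of_ne hne with h | h
  · have : N (j + 1) ≤ N k := hN.monotone (by omega)
    omega
  · have : N (k + 1) ≤ N j := hN.monotone (by omega)
    omega

theorem pow_four_sum {N : ℕ → ℕ} (hN : StrictMono N) {u : ℕ → ℕ → ℝ} (hu : Blk N u)
    (n : ℕ) (s : ℕ → ℝ) (i : ℕ) :
    (∑ j ∈ range n, s j * u j i) ^ 4 = ∑ j ∈ range n, s j ^ 4 * u j i ^ 4 := by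
  by_cases h : ∃ j ∈ range n, u j i ≠ 0
  · obtain ⟨j, hj, hji⟩ := h
    have hz : ∀ k ∈ range n, k ≠ j → u k i = 0 := by
      intro k _ hkj
      by_contra hk
      exact hkj (hu.unique hN hk hji)
    rw [Finset.sum_eq_single_of_mem j hj (fun k hk hkj => by rw [hz k hk hkj]; ring),
      Finset.sum_eq_single_of_mem j hj (fun k hk hkj => by rw [hz k hk hkj]; ring)]
    ring
  · push Not at h
    rw [Finset.sum_eq_zero (fun j hj => by rw [h j hj]; ring),
      Finset.sum_eq_zero (fun j hj => by rw [h j hj]; ring)]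
    ring

theorem blk_sum_zero {N : ℕ → ℕ} (hN : StrictMono N) {z : ℕ → ℕ → ℝ} (hz : Blk N z) (n : ℕ)
    (b : ℕ → ℝ) (i : ℕ) (hi : N n ≤ i) : ∑ j ∈ range n, b j * z j i = 0 := by
  refine Finset.sum_eq_zero (fun j hj => ?_)
  have : z j i = 0 := by
    by_contra h
    have h1 := (hz j i h).2
    have h2 : N (j + 1) ≤ N n := hN.monotone (by have := Finset.mem_range.1 hj; omega)
    omega
  rw [this, mul_zero]

/-- the two-sided estimate for the depth functional -/
def Est (β : ℝ) (z : ℕ → ℕ → ℝ) (σ c C : ℝ) : Prop :=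
  ∀ (n : ℕ) (b : ℕ → ℝ), (∀ j, 0 ≤ b j) →
    c * (∑ j ∈ range n, b j ^ σ) ^ (1 / σ) ≤ NN β (fun i => ∑ j ∈ range n, b j * z j i) ∧
    NN β (fun i => ∑ j ∈ range n, b j * z j i) ≤ C * (∑ j ∈ range n, b j ^ σ) ^ (1 / σ)

theorem est_of {β : ℝ} (hβ : 0 < β) (N : ℕ → ℕ) (hN : StrictMono N)
    (u : ℕ → ℕ → ℝ) (hu : Blk N u) (q : ℝ) (hq : 0 < q)
    (c C : ℝ) (hc : 0 < c)
    (h : ∀ (n : ℕ) (s : ℕ → ℝ),
      c * (∑ j ∈ range n, |s j| ^ q) ^ (1 / q) ≤ nrm β (fun i => ∑ j ∈ range n, s j * u j i) ∧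
      nrm β (fun i => ∑ j ∈ range n, s j * u j i) ≤ C * (∑ j ∈ range n, |s j| ^ q) ^ (1 / q)) :
    Est β (fun j i => u j i ^ 4) (q / 4) (c ^ 4) (C ^ 4) := by
  intro n b hb
  have h1 := h n (fun j => b j ^ (1 / 4 : ℝ))
  have e1 : ∀ j, |b j ^ (1 / 4 : ℝ)| ^ q = b j ^ (q / 4) := by
    intro j
    rw [abs_of_nonneg (Real.rpow_nonneg (hb j) _), ← Real.rpow_mul (hb j)]
    congr 1; ring
  have e2 : ∀ j, (b j ^ (1 / 4 : ℝ)) ^ 4 = b j := by
    intro j
    rw [← Real.rpow_natCast, ← Real.rpow_mul (hb j)]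
    norm_num
  have e3 : nrm β (fun i => ∑ j ∈ range n, b j ^ (1 / 4 : ℝ) * u j i) ^ 4
      = NN β (fun i => ∑ j ∈ range n, b j * u j i ^ 4) := by
    rw [nrm_pow_four hβ.le _ ⟨N n, fun i hi => blk_sum_zero hN hu n _ i hi⟩]
    congr 1
    ext i
    rw [pow_four_sum hN hu]
    refine Finset.sum_congr rfl (fun j _ => ?_)
    rw [e2]
  simp only [e1] at h1
  set S : ℝ := ∑ j ∈ range n, b j ^ (q / 4) with hS
  have hS0 : 0 ≤ S := Finset.sum_nonneg (fun j _ => Real.rpow_nonneg (hb j) _)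
  have e4 : (S ^ (1 / q)) ^ 4 = S ^ (1 / (q / 4)) := by
    rw [← Real.rpow_natCast, ← Real.rpow_mul hS0]
    congr 1
    field_simp
    norm_num
  have hSq : 0 ≤ S ^ (1 / q) := Real.rpow_nonneg hS0 _
  constructor
  · have := pow_le_pow_left₀ (by positivity) h1.1 4
    rw [e3, mul_pow, e4] at this
    exact this
  · have := pow_le_pow_left₀ (nrm_nonneg _ _) h1.2 4
    rw [e3, mul_pow, e4] at this
    exact this

/-- `N` eventually: `n ≤ K n^θ` fails for `θ < 1`. -/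
theorem growth (K θ : ℝ) (hθ : θ < 1) : ∃ n : ℕ, K * (n : ℝ) ^ θ < n := by
  have h1 : Tendsto (fun x : ℝ => x ^ (1 - θ)) atTop atTop := tendsto_rpow_atTop (by linarith)
  have h2 : Tendsto (fun n : ℕ => (n : ℝ) ^ (1 - θ)) atTop atTop :=
    h1.comp tendsto_natCast_atTop_atTop
  obtain ⟨n, hn1, hn2⟩ := ((h2.eventually_gt_atTop K).and (eventually_gt_atTop 0)).exists
  refine ⟨n, ?_⟩
  have hn0 : (0 : ℝ) < n := by exact_mod_cast hn2
  calc K * (n : ℝ) ^ θ < (n : ℝ) ^ (1 - θ) * (n : ℝ) ^ θ :=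
        mul_lt_mul_of_pos_right hn1 (Real.rpow_pos_of_pos hn0 _)
    _ = n := by rw [← Real.rpow_add hn0]; simp

section
variable {β : ℝ} {N : ℕ → ℕ} {z : ℕ → ℕ → ℝ} {σ c C : ℝ}

theorem est_single (hE : Est β z σ c C) (hσ : 0 < σ) (j : ℕ) :
    c ≤ NN β (z j) ∧ NN β (z j) ≤ C := by
  have h := hE (j + 1) (fun k => if k = j then 1 else 0)
    (fun k => by split_ifs <;> norm_num)
  have e1 : ∑ k ∈ range (j + 1), (if k = j then (1 : ℝ) else 0) ^ σ = 1 := by
    rw [Finset.sum_eq_single_of_mem j (by simp) (fun k _ hk => by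
      rw [if_neg hk, Real.zero_rpow hσ.ne'])]
    simp
  have e2 : (fun i => ∑ k ∈ range (j + 1), (if k = j then (1 : ℝ) else 0) * z k i) = z j := by
    ext i
    rw [Finset.sum_eq_single_of_mem j (by simp) (fun k _ hk => by
      rw [if_neg hk, zero_mul])]
    simp
  simp only [e1, e2, Real.one_rpow, mul_one] at h
  exact h

/-- sums of consecutive blocks -/
theorem est_block (hE : Est β z σ c C) (hσ : 0 < σ) (J n : ℕ) :
    c * (n : ℝ) ^ (1 / σ) ≤ NN β (fun i => ∑ j ∈ range n, z (J + j) i) ∧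
    NN β (fun i => ∑ j ∈ range n, z (J + j) i) ≤ C * (n : ℝ) ^ (1 / σ) := by
  have h := hE (J + n) (fun k => if J ≤ k then 1 else 0)
    (fun k => by split_ifs <;> norm_num)
  have e1 : ∑ k ∈ range (J + n), (if J ≤ k then (1 : ℝ) else 0) ^ σ = n := by
    rw [Finset.sum_range_add]
    rw [Finset.sum_eq_zero (s := range J) (fun k hk => by
      rw [if_neg (by have := Finset.mem_range.1 hk; omega), Real.zero_rpow hσ.ne'])]
    simp
  have e2 : (fun i => ∑ k ∈ range (J + n), (if J ≤ k then (1 : ℝ) else 0) * z k i)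
      = (fun i => ∑ j ∈ range n, z (J + j) i) := by
    ext i
    rw [Finset.sum_range_add]
    rw [Finset.sum_eq_zero (s := range J) (fun k hk => by
      rw [if_neg (by have := Finset.mem_range.1 hk; omega), zero_mul])]
    simp
  simp only [e1, e2] at h
  exact h

theorem NN_zero (hβ : 0 ≤ β) : NN β (fun _ => 0) = 0 := by
  refine le_antisymm ?_ (NN_nonneg _ _)
  have := NN_le_sum (β := β) hβ (n := 0) (z := fun _ => 0) (fun _ => le_refl _) (fun _ _ => rfl)
  simpa using this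

theorem sum_zero_of_le (hN : StrictMono N) (hz : Blk N z) (n : ℕ) (i : ℕ) (hi : N n ≤ i) :
    ∑ j ∈ range n, z j i = 0 := by
  have := blk_sum_zero hN hz n (fun _ => 1) i hi
  simpa using this

theorem NN_sum_le (hβ : 0 ≤ β) (hN : StrictMono N) (hz : Blk N z) (hz0 : ∀ j i, 0 ≤ z j i)
    (n : ℕ) (hC : ∀ j, NN β (z j) ≤ C) :
    NN β (fun i => ∑ j ∈ range n, z j i) ≤ n * C := by
  induction n with
  | zero => simp [NN_zero hβ]
  | succ n ih =>
    have e : (fun i => ∑ j ∈ range (n + 1), z j i) = fun i => (∑ j ∈ range n, z j i) + z n i := by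
      ext i; rw [Finset.sum_range_succ]
    rw [e]
    have h := NN_add_le hβ (z := fun i => ∑ j ∈ range n, z j i) (z' := z n)
      (fun i => Finset.sum_nonneg (fun j _ => hz0 j i)) (hz0 n) (N n) (N (n + 1))
      (fun i hi => sum_zero_of_le hN hz n i hi)
      (fun i hi => by
        by_contra hne
        have := (hz n i hne).1
        omega)
      (fun i hi => by
        by_contra hne
        have := (hz n i hne).2
        omega)
    have h2 := hC n
    push_cast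
    linarith

/-- case `σ < 1` -/
theorem case_lt (hβ : 0 ≤ β) (hN : StrictMono N) (hz : Blk N z) (hz0 : ∀ j i, 0 ≤ z j i)
    (hE : Est β z σ c C) (hσ : 0 < σ) (hσ1 : σ < 1) (hc : 0 < c) : False := by
  have hC : ∀ j, NN β (z j) ≤ C := fun j => (est_single hE hσ j).2
  have hle : ∀ m : ℕ, c * (m : ℝ) ^ (1 / σ) ≤ m * C := by
    intro m
    have h1 := (est_block hE hσ 0 m).1
    simp only [zero_add] at h1
    exact h1.trans (NN_sum_le hβ hN hz hz0 m hC)
  have h1σ : 1 < 1 / σ := by rw [lt_div_iff₀ hσ]; linarith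
  -- m^(1/σ - 1) ≤ C / c for all m ≥ 1
  have h1 : Tendsto (fun m : ℕ => (m : ℝ) ^ (1 / σ - 1)) atTop atTop :=
    (tendsto_rpow_atTop (by linarith)).comp tendsto_natCast_atTop_atTop
  obtain ⟨m, hm1, hm2⟩ := ((h1.eventually_gt_atTop (C / c)).and (eventually_gt_atTop 0)).exists
  have hm0 : (0 : ℝ) < m := by exact_mod_cast hm2
  have h2 := hle m
  have h3 : (m : ℝ) ^ (1 / σ) = (m : ℝ) ^ (1 / σ - 1) * m := by
    rw [← Real.rpow_add_one hm0.ne']; congr 1; ring
  rw [h3] at h2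
  have h4 : C < c * (m : ℝ) ^ (1 / σ - 1) := by
    rw [div_lt_iff₀ hc] at hm1; linarith
  nlinarith

/-- case `σ > 1` -/
theorem case_gt (hβ : 0 ≤ β) (hβ' : β ≤ 1 / 4) (hN : StrictMono N) (hz : Blk N z)
    (hz0 : ∀ j i, 0 ≤ z j i)
    (hE : Est β z σ c C) (hσ1 : 1 < σ) (hc : 0 < c) : False := by
  have hσ : 0 < σ := by linarith
  obtain ⟨n, hn⟩ := growth (4 * (C / c)) (1 / σ) (by rw [div_lt_one hσ]; exact hσ1)
  obtain ⟨L, hL⟩ := NN_lower hβ hβ' n
  have h1 := hL (fun j => N (L + j)) (fun j i => c⁻¹ * z (L + j) i)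
    (fun a b hab => hN (by omega)) (by simpa using hN.id_le L)
    (fun j i => mul_nonneg (inv_nonneg.2 hc.le) (hz0 _ _))
    (fun j i hne => by
      have : z (L + j) i ≠ 0 := fun h => hne (by rw [h, mul_zero])
      exact hz (L + j) i this)
    (fun j _ => by
      rw [NN_smul hβ (inv_nonneg.2 hc.le) (hz0 (L + j)) ⟨N (L + j + 1), fun i hi => by
        by_contra hne
        have := (hz _ i hne).2
        omega⟩]
      rw [inv_mul_eq_div, le_div_iff₀ hc, one_mul]
      exact (est_single hE hσ (L + j)).1)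
  have e : (fun i => ∑ j ∈ range n, c⁻¹ * z (L + j) i)
      = (fun i => c⁻¹ * ∑ j ∈ range n, z (L + j) i) := by
    ext i; rw [Finset.mul_sum]
  rw [e, NN_smul hβ (inv_nonneg.2 hc.le)
    (fun i => Finset.sum_nonneg (fun j _ => hz0 _ i)) ⟨N (L + n), fun i hi => by
      refine Finset.sum_eq_zero (fun j hj => ?_)
      by_contra hne
      have h1 := (hz _ i hne).2
      have h2 : N (L + j + 1) ≤ N (L + n) := hN.monotone (by
        have := Finset.mem_range.1 hj; omega)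
      omega⟩] at h1
  have h2 := (est_block hE hσ L n).2
  have h3 : c⁻¹ * NN β (fun i => ∑ j ∈ range n, z (L + j) i) ≤ C / c * (n : ℝ) ^ (1 / σ) := by
    rw [inv_mul_eq_div, div_mul_eq_mul_div]
    exact div_le_div_of_nonneg_right h2 hc.le
  nlinarith

/-- the convex set of normalized combinations of blocks from `m` on. -/
def K (z : ℕ → ℕ → ℝ) (m : ℕ) : Set (ℕ → ℝ) :=
  {w | ∃ (n : ℕ) (b : ℕ → ℝ), (∀ j, 0 ≤ b j) ∧ (∀ j < m, b j = 0) ∧ (∀ j, n ≤ j → b j = 0) ∧
    ∑ j ∈ range n, b j = 1 ∧ w = fun i => ∑ j ∈ range n, b j * z j i}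

theorem K_anti {m m' : ℕ} (h : m ≤ m') : K z m' ⊆ K z m := by
  rintro w ⟨n, b, h1, h2, h3, h4, h5⟩
  exact ⟨n, b, h1, fun j hj => h2 j (by omega), h3, h4, h5⟩

theorem K_convex (m : ℕ) : Convex ℝ (K z m) := by
  rintro w ⟨n, b, h1, h2, h3, h4, h5⟩ w' ⟨n', b', h1', h2', h3', h4', h5'⟩ s t hs ht hst
  have ext1 : ∀ (n k : ℕ) (f : ℕ → ℝ), n ≤ k → (∀ j, n ≤ j → f j = 0) →
      ∑ j ∈ range k, f j = ∑ j ∈ range n, f j := by
    intro n k f hnk hf
    refine (Finset.sum_subset (Finset.range_subset_range.2 hnk) (fun j _ hj => ?_)).symm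
    exact hf j (by simpa using hj)
  refine ⟨max n n', fun j => s * b j + t * b' j, fun j => by
    have := h1 j; have := h1' j; positivity, fun j hj => by simp [h2 j hj, h2' j hj],
    fun j hj => by
      have e1 : b j = 0 := h3 j (by omega)
      have e2 : b' j = 0 := h3' j (by omega)
      simp [e1, e2], ?_, ?_⟩
  · rw [Finset.sum_add_distrib, ← Finset.mul_sum, ← Finset.mul_sum,
      ext1 n (max n n') b (le_max_left _ _) h3, ext1 n' (max n n') b' (le_max_right _ _) h3', h4,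
      h4']
    linarith
  · rw [h5, h5']
    ext i
    have e1 := ext1 n (max n n') (fun j => b j * z j i) (le_max_left _ _)
      (fun j hj => by simp [h3 j hj])
    have e2 := ext1 n' (max n n') (fun j => b' j * z j i) (le_max_right _ _)
      (fun j hj => by simp [h3' j hj])
    simp only [Pi.add_apply, Pi.smul_apply, smul_eq_mul]
    rw [← e1, ← e2, Finset.mul_sum, Finset.mul_sum, ← Finset.sum_add_distrib]
    refine Finset.sum_congr rfl (fun j _ => ?_)
    ring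

theorem K_bounds (hE : Est β z 1 c C) {m : ℕ} {w : ℕ → ℝ} (hw : w ∈ K z m) :
    c ≤ NN β w ∧ NN β w ≤ C := by
  obtain ⟨n, b, h1, h2, h3, h4, h5⟩ := hw
  have h := hE n b h1
  simp only [Real.rpow_one, h4, div_one, mul_one] at h
  rw [h5]
  exact h

theorem K_nonempty (m : ℕ) : z m ∈ K z m := by
  refine ⟨m + 1, fun j => if j = m then 1 else 0, fun j => by
      change (0 : ℝ) ≤ if j = m then 1 else 0
      split_ifs <;> norm_num,
    fun j hj => if_neg (by omega), fun j hj => if_neg (by omega), ?_, ?_⟩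
  · rw [Finset.sum_eq_single_of_mem m (by simp) (fun k _ hk => if_neg hk)]
    simp
  · ext i
    rw [Finset.sum_eq_single_of_mem m (by simp) (fun k _ hk => by simp [hk])]
    simp

theorem K_nonneg (hz0 : ∀ j i, 0 ≤ z j i) {m : ℕ} {w : ℕ → ℝ} (hw : w ∈ K z m) (i : ℕ) :
    0 ≤ w i := by
  obtain ⟨n, b, h1, h2, h3, h4, h5⟩ := hw
  rw [h5]
  exact Finset.sum_nonneg (fun j _ => mul_nonneg (h1 j) (hz0 j i))

theorem K_supp (hN : StrictMono N) (hz : Blk N z) {m : ℕ} {w : ℕ → ℝ} (hw : w ∈ K z m) :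
    ∃ n, m < n ∧ ∀ i, w i ≠ 0 → N m ≤ i ∧ i < N n := by
  obtain ⟨n, b, h1, h2, h3, h4, h5⟩ := hw
  have hmn : m < n := by
    by_contra hle
    have : ∑ j ∈ range n, b j = 0 := Finset.sum_eq_zero (fun j hj => h2 j (by
      have := Finset.mem_range.1 hj; omega))
    rw [this] at h4
    norm_num at h4
  refine ⟨n, hmn, fun i hi => ?_⟩
  rw [h5] at hi
  obtain ⟨j, hj, hji⟩ := Finset.exists_ne_zero_of_sum_ne_zero hi
  have hzj : z j i ≠ 0 := fun h => hji (by rw [h, mul_zero])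
  have hbj : b j ≠ 0 := fun h => hji (by rw [h, zero_mul])
  have hmj : m ≤ j := by
    by_contra hlt
    exact hbj (h2 j (by omega))
  obtain ⟨a1, a2⟩ := hz j i hzj
  have b1 : N m ≤ N j := hN.monotone hmj
  have b2 : N (j + 1) ≤ N n := hN.monotone (by have := Finset.mem_range.1 hj; omega)
  omega

/-- case `σ = 1` -/
theorem case_eq (hβ : 0 < β) (hβ' : β ≤ 1 / 4) (hN : StrictMono N) (hz : Blk N z)
    (hz0 : ∀ j i, 0 ≤ z j i)
    (hE : Est β z 1 c C) (hc : 0 < c) : False := by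
  obtain ⟨δ, hδ, hgap⟩ := NN_gap hβ hβ'
  set φ : ℕ → ℝ := fun m => sInf (NN β '' K z m) with hφdef
  have hbdd : ∀ m, BddBelow (NN β '' K z m) := fun m => ⟨c, by
    rintro x ⟨w, hw, rfl⟩
    exact (K_bounds hE hw).1⟩
  have hne : ∀ m, (NN β '' K z m).Nonempty := fun m => ⟨_, _, K_nonempty m, rfl⟩
  have hφle : ∀ m, φ m ≤ C := fun m =>
    (csInf_le (hbdd m) ⟨_, K_nonempty m, rfl⟩).trans (K_bounds hE (K_nonempty m)).2
  have hcφ : ∀ m, c ≤ φ m := fun m => le_csInf (hne m) (by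
    rintro x ⟨w, hw, rfl⟩
    exact (K_bounds hE hw).1)
  have hφbdd : BddAbove (Set.range φ) := ⟨C, by rintro _ ⟨m, rfl⟩; exact hφle m⟩
  set Φ : ℝ := ⨆ m, φ m with hΦ
  have hφΦ : ∀ m, φ m ≤ Φ := fun m => le_ciSup hφbdd m
  have hΦ0 : 0 < Φ := lt_of_lt_of_le hc ((hcφ 0).trans (hφΦ 0))
  -- choice of η and m
  set η : ℝ := δ / 4 with hη
  have hη0 : 0 < η := by positivity
  obtain ⟨m, hm⟩ : ∃ m, (1 - η) * Φ < φ m := exists_lt_of_lt_ciSup (by
    change (1 - η) * Φ < Φ; nlinarith)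
  have hex : ∀ k, ∃ w, w ∈ K z k ∧ NN β w < (1 + η) * Φ := by
    intro k
    have h1 : φ k < (1 + η) * Φ := lt_of_le_of_lt (hφΦ k) (by nlinarith)
    obtain ⟨x, ⟨w, hw, rfl⟩, hx⟩ := exists_lt_of_csInf_lt (hne k) h1
    exact ⟨w, hw, hx⟩
  choose w hwK hwlt using hex
  choose nx hnx hsupp using fun k => K_supp hN hz (hwK k)
  set A : ℝ := (1 + η) * Φ with hA
  have hA0 : 0 < A := by positivity
  obtain ⟨r, hr, hgap'⟩ := hgap (N (nx m))
  -- the sequence of starting points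
  set μ : ℕ → ℕ := fun j => nx^[j] (nx m + 1) with hμ
  have hμs : ∀ j, μ (j + 1) = nx (μ j) := fun j => by
    simp only [hμ, Function.iterate_succ_apply']
  have hμmono : StrictMono μ := strictMono_nat_of_lt_succ (fun j => by rw [hμs]; exact hnx _)
  have hsc : ∀ k, NN β (fun i => A⁻¹ * w k i) ≤ 1 := by
    intro k
    rw [NN_smul hβ.le (inv_nonneg.2 hA0.le) (K_nonneg hz0 (hwK k)) ⟨N (nx k), fun i hi => by
      by_contra hne
      have := (hsupp k i hne).2
      omega⟩]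
    rw [inv_mul_eq_div, div_le_one hA0]
    exact (hwlt k).le
  have hne' : ∀ k i, A⁻¹ * w k i ≠ 0 → w k i ≠ 0 := fun k i h h0 => h (by rw [h0, mul_zero])
  have hg := hgap' (fun j => N (μ j)) (fun i => A⁻¹ * w m i) (fun j i => A⁻¹ * w (μ j) i)
    (fun a b hab => hN (hμmono hab))
    (by
      have : μ 0 = nx m + 1 := rfl
      simp only [this]
      exact hN (by omega))
    (fun i => mul_nonneg (inv_nonneg.2 hA0.le) (K_nonneg hz0 (hwK m) i))
    (fun i hi => (hsupp m i (hne' _ _ hi)).2)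
    (fun j i => mul_nonneg (inv_nonneg.2 hA0.le) (K_nonneg hz0 (hwK _) i))
    (fun j i hi => by
      have := hsupp (μ j) i (hne' _ _ hi)
      simp only [hμs]
      exact this)
    (hsc m) (fun j _ => hsc (μ j))
  -- the convex combination
  have hr0 : (0 : ℝ) < r := by exact_mod_cast hr
  set W : ℕ → ℝ := fun i => 1 / 2 * w m i + 1 / 2 * ∑ j ∈ range r, (1 / (r : ℝ)) * w (μ j) i with hW
  have hWK : W ∈ K z m := by
    have h1 : (∑ j ∈ range r, (1 / (r : ℝ)) • w (μ j)) ∈ K z m := by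
      refine (K_convex m).sum_mem (fun j _ => by positivity) ?_ (fun j _ => ?_)
      · rw [Finset.sum_const, Finset.card_range, nsmul_eq_mul]
        field_simp
      · refine K_anti ?_ (hwK (μ j))
        have h2 : μ 0 ≤ μ j := hμmono.monotone (Nat.zero_le j)
        have h3 : μ 0 = nx m + 1 := rfl
        have h4 := hnx m
        omega
    have h2 := K_convex (z := z) m (hwK m) h1 (a := 1 / 2) (b := 1 / 2) (by norm_num) (by norm_num)
      (by norm_num)
    have e : W = (1 / 2 : ℝ) • w m + (1 / 2 : ℝ) • ∑ j ∈ range r, (1 / (r : ℝ)) • w (μ j) := by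
      ext i
      simp only [hW, Pi.add_apply, Pi.smul_apply, smul_eq_mul, Finset.sum_apply]
    rw [e]
    exact h2
  have eW : (fun i => A⁻¹ * w m i / 2 + ∑ j ∈ range r, A⁻¹ * w (μ j) i / (2 * r))
      = (fun i => A⁻¹ * W i) := by
    ext i
    simp only [hW]
    rw [mul_add, Finset.mul_sum, Finset.mul_sum]
    congr 1
    · ring
    · refine Finset.sum_congr rfl (fun j _ => ?_)
      field_simp
  rw [eW, NN_smul hβ.le (inv_nonneg.2 hA0.le) (K_nonneg hz0 hWK) (by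
    obtain ⟨n, _, hn⟩ := K_supp hN hz hWK
    exact ⟨N n, fun i hi => by
      by_contra hne
      have := (hn i hne).2
      omega⟩), inv_mul_eq_div, div_le_iff₀ hA0] at hg
  have hφW : φ m ≤ NN β W := csInf_le (hbdd m) ⟨W, hWK, rfl⟩
  have : (1 - η) * Φ < (1 - δ) * ((1 + η) * Φ) := lt_of_lt_of_le hm (hφW.trans hg)
  have h1 : (1 - η) < (1 - δ) * (1 + η) := by
    by_contra hcon
    push Not at hcon
    have := mul_le_mul_of_nonneg_right hcon hΦ0.le
    nlinarith
  nlinarith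

end

end NoLq

theorem no_lq {β : ℝ} (hβ : 0 < β) (hβ' : β ≤ 1 / 4) (N : ℕ → ℕ) (hN : StrictMono N)
    (u : ℕ → ℕ → ℝ) (hu : ∀ j i, u j i ≠ 0 → N j ≤ i ∧ i < N (j + 1)) (q : ℝ) (hq : 0 < q)
    (c C : ℝ) (hc : 0 < c) (hC : 0 < C)
    (h : ∀ (n : ℕ) (s : ℕ → ℝ),
      c * (∑ j ∈ range n, |s j| ^ q) ^ (1 / q) ≤ nrm β (fun i => ∑ j ∈ range n, s j * u j i) ∧
      nrm β (fun i => ∑ j ∈ range n, s j * u j i) ≤ C * (∑ j ∈ range n, |s j| ^ q) ^ (1 / q)) :
    False := by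
  have hE := NoLq.est_of hβ N hN u hu q hq c C hc h
  have hz : NoLq.Blk N (fun j i => u j i ^ 4) := by
    intro j i hne
    exact hu j i (fun h0 => hne (by simp only [h0]; norm_num))
  have hz0 : ∀ j i, 0 ≤ (fun j i => u j i ^ 4) j i := by
    intro j i
    positivity
  rcases lt_trichotomy (q / 4) 1 with hlt | heq | hgt
  · exact NoLq.case_lt hβ.le hN hz hz0 hE (by positivity) hlt (by positivity)
  · rw [heq] at hE
    exact NoLq.case_eq hβ hβ' hN hz hz0 hE (by positivity)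
  · exact NoLq.case_gt hβ.le hβ' hN hz hz0 hE hgt (by positivity)

end Pool.Agent.US
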