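import Pool.Agent.Helper91.US.ConvTaylor

/-!
# Module D3 SMOOTHQ: the norm is C^2 off the origin with uniformly continuous second
derivative on the unit sphere, as soon as its fourth power has a quadratic Taylor expansion with
remainder `K (‖x‖ + ‖h‖) ‖h‖ ^ 3`.
-/

set_option autoImplicit false

namespace Pool.Agent.US

open Finset Filter Topology Asymptotics
open scoped ContDiff

section SmoothQ

variable {X : Type} [NormedAddCommGroup X] [NormedSpace ℝ X]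

/-- a quadratic bound on the remainder gives the derivative. -/
theorem sq_hasFDerivAt {F : Type} [NormedAddCommGroup F] [NormedSpace ℝ F] {f : X → F}
    {f' : X →L[ℝ] F} {x : X} {C : ℝ}
    (h : ∀ h : X, ‖h‖ ≤ 1 → ‖f (x + h) - f x - f' h‖ ≤ C * ‖h‖ ^ 2) : HasFDerivAt f f' x := by
  rw [hasFDerivAt_iff_isLittleO_nhds_zero]
  have h1 : (fun h : X => f (x + h) - f x - f' h) =O[𝓝 0] (fun h : X => ‖h‖ ^ 2) := by
    refine IsBigO.of_bound C ?_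
    have hb : Metric.closedBall (0 : X) 1 ∈ 𝓝 (0 : X) := Metric.closedBall_mem_nhds _ one_pos
    filter_upwards [hb] with k hk
    have hk1 : ‖k‖ ≤ 1 := by simpa [Metric.mem_closedBall, dist_zero_right] using hk
    have h2 := h k hk1
    rwa [Real.norm_of_nonneg (by positivity : (0:ℝ) ≤ ‖k‖ ^ 2)]
  exact h1.trans_isLittleO (isLittleO_norm_pow_id one_lt_two)

omit [NormedSpace ℝ X] in
theorem contAt_sub' {F : Type} [NormedAddCommGroup F] {f g : X → F} {x : X}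
    (hf : ContinuousAt f x) (hg : ContinuousAt g x) : ContinuousAt (fun y => f y - g y) x :=
  hf.sub hg

/-- the second derivative of the norm. -/
noncomputable def D2 (L : X → X →L[ℝ] ℝ) (B : X → X →L[ℝ] X →L[ℝ] ℝ) (x : X) :
    X →L[ℝ] X →L[ℝ] ℝ :=
  ((1 / 4 : ℝ) * (‖x‖ ^ 3)⁻¹) • B x -
    ((3 / 16 : ℝ) * (‖x‖ ^ 7)⁻¹) • ((L x).smulRight (L x))

theorem D2_apply (L : X → X →L[ℝ] ℝ) (B : X → X →L[ℝ] X →L[ℝ] ℝ) (x k l : X) :
    D2 L B x k l = (1 / 4 : ℝ) * (‖x‖ ^ 3)⁻¹ * B x k l -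
      (3 / 16 : ℝ) * (‖x‖ ^ 7)⁻¹ * (L x k * L x l) := by
  simp [D2]

/-- derivative of the norm from the derivative of its fourth power. -/
theorem norm_hasFDerivAt {l : X →L[ℝ] ℝ} {x : X} (hx : x ≠ 0)
    (h : HasFDerivAt (fun x : X => ‖x‖ ^ 4) l x) :
    HasFDerivAt (fun x : X => ‖x‖) (((1 / 4 : ℝ) * (‖x‖ ^ 3)⁻¹) • l) x := by
  have hx0 : 0 < ‖x‖ := norm_pos_iff.2 hx
  have h4 : (0:ℝ) < ‖x‖ ^ 4 := by positivity
  have hs : HasFDerivAt (fun x : X => Real.sqrt (‖x‖ ^ 4))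
      ((1 / (2 * Real.sqrt (‖x‖ ^ 4))) • l) x := h.sqrt h4.ne'
  have e1 : ∀ y : X, Real.sqrt (‖y‖ ^ 4) = ‖y‖ ^ 2 := by
    intro y
    rw [show ‖y‖ ^ 4 = (‖y‖ ^ 2) ^ 2 by ring, Real.sqrt_sq (by positivity)]
  simp only [e1] at hs
  have h2 : (0:ℝ) < ‖x‖ ^ 2 := by positivity
  have ht : HasFDerivAt (fun x : X => Real.sqrt (‖x‖ ^ 2))
      ((1 / (2 * Real.sqrt (‖x‖ ^ 2))) • (1 / (2 * ‖x‖ ^ 2)) • l) x := hs.sqrt h2.ne'
  have e2 : ∀ y : X, Real.sqrt (‖y‖ ^ 2) = ‖y‖ := fun y => Real.sqrt_sq (norm_nonneg y)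
  simp only [e2] at ht
  convert ht using 1
  rw [smul_smul]
  congr 1
  field_simp
  norm_num

theorem smooth_of_Q
    (L : X → X →L[ℝ] ℝ) (B : X → X →L[ℝ] X →L[ℝ] ℝ) (K : ℝ) (hK : 0 ≤ K)
    (hB : ∀ x h k, B x h k = B x k h)
    (hQ : ∀ x h : X, |‖x + h‖ ^ 4 - ‖x‖ ^ 4 - L x h - 1 / 2 * B x h h| ≤
      K * (‖x‖ + ‖h‖) * ‖h‖ ^ 3) :
    ContDiffOn ℝ 2 (fun x : X => ‖x‖) {x : X | x ≠ 0} ∧
      UniformContinuousOn (iteratedFDeriv ℝ 2 (fun x : X => ‖x‖)) {x : X | ‖x‖ = 1} := by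
  obtain ⟨K', hK', hBL, hLL⟩ := converse_taylor (fun x : X => ‖x‖ ^ 4)
    (fun x => (L x : X →ₗ[ℝ] ℝ)) (fun x => LinearMap.mk₂ ℝ (fun h k => B x h k)
      (fun a b c => by simp) (fun c a b => by simp) (fun a b c => by simp)
      (fun c a b => by simp)) K hK (fun x h k => by simpa using hB x h k)
      (fun x h => by simpa using hQ x h)
  replace hBL : ∀ x h k l : X, |B (x + h) k l - B x k l| ≤
      K' * (‖x‖ + ‖h‖) * ‖h‖ * ‖k‖ * ‖l‖ := fun x h k l => by simpa using hBL x h k l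
  replace hLL : ∀ x h k : X, |L (x + h) k - L x k - B x h k| ≤
      K' * (‖x‖ + ‖h‖) * ‖h‖ ^ 2 * ‖k‖ := fun x h k => by simpa using hLL x h k
  -- norm forms
  have hBn : ∀ x h : X, ‖B (x + h) - B x‖ ≤ K' * (‖x‖ + ‖h‖) * ‖h‖ := by
    intro x h
    refine ContinuousLinearMap.opNorm_le_bound _ (by positivity) fun k => ?_
    refine ContinuousLinearMap.opNorm_le_bound _ (by positivity) fun l => ?_
    simpa using hBL x h k l
  have hLn : ∀ x h : X, ‖L (x + h) - L x - B x h‖ ≤ K' * (‖x‖ + ‖h‖) * ‖h‖ ^ 2 := by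
    intro x h
    refine ContinuousLinearMap.opNorm_le_bound _ (by positivity) fun k => ?_
    simpa using hLL x h k
  -- derivative of the fourth power
  have hΦ : ∀ x : X, HasFDerivAt (fun x : X => ‖x‖ ^ 4) (L x) x := by
    intro x
    refine sq_hasFDerivAt (C := 1 / 2 * ‖B x‖ + K * (‖x‖ + 1)) fun h hh => ?_
    have h1 := hQ x h
    have h2 : |B x h h| ≤ ‖B x‖ * ‖h‖ ^ 2 := by
      have := (B x).le_opNorm₂ h h
      rw [Real.norm_eq_abs] at this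
      nlinarith [this]
    have h3 : K * (‖x‖ + ‖h‖) * ‖h‖ ^ 3 ≤ K * (‖x‖ + 1) * ‖h‖ ^ 2 := by
      have e : ‖h‖ ^ 3 ≤ ‖h‖ ^ 2 := pow_le_pow_of_le_one (norm_nonneg _) hh (by norm_num)
      gcongr
    rw [Real.norm_eq_abs]
    have h4 : |‖x + h‖ ^ 4 - ‖x‖ ^ 4 - L x h| ≤
        |‖x + h‖ ^ 4 - ‖x‖ ^ 4 - L x h - 1 / 2 * B x h h| + 1 / 2 * |B x h h| := by
      have e : ‖x + h‖ ^ 4 - ‖x‖ ^ 4 - L x h =
        (‖x + h‖ ^ 4 - ‖x‖ ^ 4 - L x h - 1 / 2 * B x h h) + 1 / 2 * B x h h := by ring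
      calc |‖x + h‖ ^ 4 - ‖x‖ ^ 4 - L x h| =
          |(‖x + h‖ ^ 4 - ‖x‖ ^ 4 - L x h - 1 / 2 * B x h h) + 1 / 2 * B x h h| := by rw [← e]
        _ ≤ |‖x + h‖ ^ 4 - ‖x‖ ^ 4 - L x h - 1 / 2 * B x h h| + |1 / 2 * B x h h| :=
          abs_add_le _ _
        _ = _ := by rw [abs_mul (1/2 : ℝ), abs_of_pos (by norm_num : (0:ℝ) < 1 / 2)]
    calc |‖x + h‖ ^ 4 - ‖x‖ ^ 4 - L x h| ≤ K * (‖x‖ + 1) * ‖h‖ ^ 2 + 1 / 2 * (‖B x‖ * ‖h‖ ^ 2) := by
          linarith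
      _ = _ := by ring
  have hLd : ∀ x : X, HasFDerivAt L (B x) x := by
    intro x
    refine sq_hasFDerivAt (C := K' * (‖x‖ + 1)) fun h hh => ?_
    refine (hLn x h).trans ?_
    gcongr
  have hBc : Continuous B := by
    rw [continuous_iff_continuousAt]
    intro x
    refine (tendsto_iff_norm_sub_tendsto_zero (f := B) (b := B x)).2 ?_
    have hb : Tendsto (fun y : X => K' * (‖x‖ + ‖y - x‖) * ‖y - x‖) (𝓝 x) (𝓝 0) := by
      have hc : Continuous (fun y : X => K' * (‖x‖ + ‖y - x‖) * ‖y - x‖) := by fun_prop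
      have := hc.tendsto x
      simpa using this
    refine squeeze_zero (fun y => norm_nonneg (B y - B x)) (fun y => ?_) hb
    have := hBn x (y - x)
    simpa using this
  -- the norm
  have hN : ∀ x : X, x ≠ 0 → HasFDerivAt (fun x : X => ‖x‖)
      (((1 / 4 : ℝ) * (‖x‖ ^ 3)⁻¹) • L x) x := fun x hx => norm_hasFDerivAt hx (hΦ x)
  have hN2 : ∀ x : X, x ≠ 0 → HasFDerivAt
      (fun x : X => ((1 / 4 : ℝ) * (‖x‖ ^ 3)⁻¹) • L x) (D2 L B x) x := by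
    intro x hx
    have hx0 : 0 < ‖x‖ := norm_pos_iff.2 hx
    have h3 : HasFDerivAt (fun x : X => ‖x‖ ^ 3)
        ((3 * ‖x‖ ^ 2) • (((1 / 4 : ℝ) * (‖x‖ ^ 3)⁻¹) • L x)) x := by
      have := (hN x hx).pow 3
      convert! this using 1
      simp
    have h4 : HasFDerivAt (fun x : X => (‖x‖ ^ 3)⁻¹)
        ((-((‖x‖ ^ 3) ^ 2)⁻¹) • ((3 * ‖x‖ ^ 2) • (((1 / 4 : ℝ) * (‖x‖ ^ 3)⁻¹) • L x))) x :=
      (hasDerivAt_inv (pow_pos hx0 3).ne').comp_hasFDerivAt x h3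
    have h5 := h4.const_mul (1 / 4 : ℝ)
    have h6 := h5.smul (hLd x)
    convert! h6 using 1
    ext k l
    simp only [D2_apply, add_apply, smul_apply,
      ContinuousLinearMap.smulRight_apply, smul_eq_mul]
    field_simp
    ring
  have hopen : IsOpen {x : X | x ≠ 0} := isOpen_ne
  have hN2c : ∀ x : X, x ≠ 0 → ContinuousAt (D2 L B) x := by
    intro x hx
    have hx0 : ‖x‖ ≠ 0 := (norm_pos_iff.2 hx).ne'
    have hLc : ContinuousAt L x := (hLd x).continuousAt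
    have hBc' : ContinuousAt B x := hBc.continuousAt
    have hn : ContinuousAt (fun x : X => ‖x‖) x := continuous_norm.continuousAt
    have hA : ContinuousAt (fun x : X => ((1 / 4 : ℝ) * (‖x‖ ^ 3)⁻¹) • B x) x :=
      ((continuousAt_const.mul ((hn.pow 3).inv₀ (pow_ne_zero 3 hx0)))).smul hBc'
    have hD : ContinuousAt (fun x : X => ((3 / 16 : ℝ) * (‖x‖ ^ 7)⁻¹) •
        ((L x).smulRight (L x))) x := by
      refine ((continuousAt_const.mul ((hn.pow 7).inv₀ (pow_ne_zero 7 hx0)))).smul ?_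
      have : Continuous (fun p : (X →L[ℝ] ℝ) × (X →L[ℝ] ℝ) =>
          (ContinuousLinearMap.smulRightL ℝ X (X →L[ℝ] ℝ) p.1) p.2) := by fun_prop
      exact this.continuousAt.comp (hLc.prodMk hLc)
    exact contAt_sub' (F := X →L[ℝ] X →L[ℝ] ℝ) hA hD
  have hC : ∀ x : X, x ≠ 0 → ContDiffAt ℝ 2 (fun x : X => ‖x‖) x := by
    intro x hx
    have h21 : (2 : WithTop ℕ∞) = ((1 : ℕ) : WithTop ℕ∞) + 1 := by norm_num
    rw [h21, contDiffAt_succ_iff_hasFDerivAt]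
    refine ⟨fun x : X => ((1 / 4 : ℝ) * (‖x‖ ^ 3)⁻¹) • L x,
      ⟨{x : X | x ≠ 0}, hopen.mem_nhds hx, fun y hy => hN y hy⟩, ?_⟩
    have h10 : ((1 : ℕ) : WithTop ℕ∞) = ((0 : ℕ) : WithTop ℕ∞) + 1 := by norm_num
    rw [h10, contDiffAt_succ_iff_hasFDerivAt]
    refine ⟨D2 L B, ⟨{x : X | x ≠ 0}, hopen.mem_nhds hx, fun y hy => hN2 y hy⟩, ?_⟩
    have h00 : ((0 : ℕ) : WithTop ℕ∞) = 0 := by norm_num
    rw [h00, contDiffAt_zero]
    refine ⟨{x : X | x ≠ 0}, hopen.mem_nhds hx, fun y hy => (hN2c y hy).continuousWithinAt⟩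
  refine ⟨fun x hx => (hC x hx).contDiffWithinAt, ?_⟩
  -- the second iterated derivative
  have hit : ∀ x : X, x ≠ 0 → ∀ m : Fin 2 → X,
      iteratedFDeriv ℝ 2 (fun x : X => ‖x‖) x m = D2 L B x (m 0) (m 1) := by
    intro x hx m
    rw [iteratedFDeriv_two_apply]
    have he : fderiv ℝ (fun x : X => ‖x‖) =ᶠ[𝓝 x]
        (fun x : X => ((1 / 4 : ℝ) * (‖x‖ ^ 3)⁻¹) • L x) := by
      filter_upwards [hopen.mem_nhds hx] with y hy
      exact (hN y hy).fderiv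
    rw [he.fderiv_eq, (hN2 x hx).fderiv]
  -- bounds on the sphere
  set CB : ℝ := ‖B 0‖ + K' with hCB
  set CL : ℝ := ‖L 0‖ + ‖B 0‖ + K' with hCL
  have hCB0 : 0 ≤ CB := by positivity
  have hCL0 : 0 ≤ CL := by positivity
  have hBb : ∀ x : X, ‖x‖ = 1 → ‖B x‖ ≤ CB := by
    intro x hx
    have h1 := hBn 0 x
    rw [zero_add, norm_zero, zero_add, hx, mul_one, mul_one] at h1
    calc ‖B x‖ = ‖B 0 + (B x - B 0)‖ := by congr 1; abel
      _ ≤ ‖B 0‖ + ‖B x - B 0‖ := norm_add_le (B 0) (B x - B 0)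
      _ ≤ CB := by linarith
  have hLb : ∀ x : X, ‖x‖ = 1 → ‖L x‖ ≤ CL := by
    intro x hx
    have h1 := hLn 0 x
    rw [zero_add, norm_zero, zero_add, hx, one_pow, mul_one, mul_one] at h1
    have h2 : ‖B 0 x‖ ≤ ‖B 0‖ := by
      have := (B 0).le_opNorm x
      rwa [hx, mul_one] at this
    calc ‖L x‖ = ‖L 0 + (B 0 x + (L x - L 0 - B 0 x))‖ := by congr 1; abel
      _ ≤ ‖L 0‖ + (‖B 0 x‖ + ‖L x - L 0 - B 0 x‖) :=
        (norm_add_le _ _).trans (by gcongr; exact norm_add_le _ _)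
      _ ≤ CL := by linarith
  have hLlip : ∀ x y : X, ‖x‖ = 1 → ‖y‖ = 1 → ‖L y - L x‖ ≤ (CB + 6 * K') * ‖y - x‖ := by
    intro x y hx hy
    have hyx : ‖y - x‖ ≤ 2 := by
      calc ‖y - x‖ ≤ ‖y‖ + ‖x‖ := norm_sub_le _ _
        _ = 2 := by rw [hx, hy]; norm_num
    have h1 := hLn x (y - x)
    rw [add_sub_cancel, hx] at h1
    have h2 : ‖B x (y - x)‖ ≤ CB * ‖y - x‖ := by
      refine ((B x).le_opNorm _).trans ?_
      gcongr
      exact hBb x hx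
    have h3 : K' * (1 + ‖y - x‖) * ‖y - x‖ ^ 2 ≤ 6 * K' * ‖y - x‖ := by
      have e : K' * (1 + ‖y - x‖) * ‖y - x‖ ^ 2 =
          (1 + ‖y - x‖) * ‖y - x‖ * (K' * ‖y - x‖) := by ring
      rw [e, show 6 * K' * ‖y - x‖ = 6 * (K' * ‖y - x‖) by ring]
      refine mul_le_mul_of_nonneg_right ?_ (by positivity)
      nlinarith [norm_nonneg (y - x)]
    calc ‖L y - L x‖ = ‖B x (y - x) + (L y - L x - B x (y - x))‖ := by congr 1; abel
      _ ≤ ‖B x (y - x)‖ + ‖L y - L x - B x (y - x)‖ := norm_add_le _ _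
      _ ≤ (CB + 6 * K') * ‖y - x‖ := by linarith
  have hBlip : ∀ x y : X, ‖x‖ = 1 → ‖y‖ = 1 → ‖B y - B x‖ ≤ 3 * K' * ‖y - x‖ := by
    intro x y hx hy
    have hyx : ‖y - x‖ ≤ 2 := by
      calc ‖y - x‖ ≤ ‖y‖ + ‖x‖ := norm_sub_le _ _
        _ = 2 := by rw [hx, hy]; norm_num
    have h1 := hBn x (y - x)
    rw [add_sub_cancel, hx] at h1
    refine h1.trans ?_
    rw [show K' * (1 + ‖y - x‖) * ‖y - x‖ = (1 + ‖y - x‖) * (K' * ‖y - x‖) by ring,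
      show 3 * K' * ‖y - x‖ = 3 * (K' * ‖y - x‖) by ring]
    refine mul_le_mul_of_nonneg_right (by linarith) (by positivity)
  set C : ℝ := 1 / 4 * (3 * K') + 3 / 16 * (2 * CL * (CB + 6 * K')) with hCdef
  have hC0 : 0 ≤ C := by positivity
  have hmain : ∀ x ∈ {x : X | ‖x‖ = 1}, ∀ y ∈ {x : X | ‖x‖ = 1},
      dist (iteratedFDeriv ℝ 2 (fun x : X => ‖x‖) x) (iteratedFDeriv ℝ 2 (fun x : X => ‖x‖) y) ≤
        (⟨C, hC0⟩ : NNReal) * dist x y := by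
    intro x hx y hy
    have hx : ‖x‖ = 1 := hx
    have hy : ‖y‖ = 1 := hy
    have hx0 : x ≠ 0 := fun h => by rw [h, norm_zero] at hx; exact zero_ne_one hx
    have hy0 : y ≠ 0 := fun h => by rw [h, norm_zero] at hy; exact zero_ne_one hy
    rw [dist_comm, dist_comm x y, dist_eq_norm, dist_eq_norm]
    show _ ≤ C * ‖y - x‖
    refine ContinuousMultilinearMap.opNorm_le_bound (by positivity) fun m => ?_
    rw [sub_apply, hit x hx0, hit y hy0, D2_apply, D2_apply, hx, hy]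
    simp only [one_pow, inv_one, mul_one, Fin.prod_univ_two, Real.norm_eq_abs]
    have e1 : |B y (m 0) (m 1) - B x (m 0) (m 1)| ≤ 3 * K' * ‖y - x‖ * (‖m 0‖ * ‖m 1‖) := by
      have := (B y - B x).le_opNorm₂ (m 0) (m 1)
      simp only [sub_apply, Real.norm_eq_abs] at this
      calc |B y (m 0) (m 1) - B x (m 0) (m 1)| ≤ ‖B y - B x‖ * ‖m 0‖ * ‖m 1‖ := this
        _ = ‖B y - B x‖ * (‖m 0‖ * ‖m 1‖) := by ring
        _ ≤ _ := by gcongr; exact hBlip x y hx hy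
    have e2 : ∀ k : X, |L y k - L x k| ≤ (CB + 6 * K') * ‖y - x‖ * ‖k‖ := by
      intro k
      have := (L y - L x).le_opNorm k
      simp only [sub_apply, Real.norm_eq_abs] at this
      refine this.trans ?_
      gcongr
      exact hLlip x y hx hy
    have e3 : ∀ z : X, ‖z‖ = 1 → ∀ k : X, |L z k| ≤ CL * ‖k‖ := by
      intro z hz k
      have := (L z).le_opNorm k
      rw [Real.norm_eq_abs] at this
      refine this.trans ?_
      gcongr
      exact hLb z hz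
    have e4 : |L y (m 0) * L y (m 1) - L x (m 0) * L x (m 1)| ≤
        2 * CL * (CB + 6 * K') * ‖y - x‖ * (‖m 0‖ * ‖m 1‖) := by
      have e : L y (m 0) * L y (m 1) - L x (m 0) * L x (m 1) =
          (L y (m 0) - L x (m 0)) * L y (m 1) + L x (m 0) * (L y (m 1) - L x (m 1)) := by ring
      rw [e]
      refine (abs_add_le _ _).trans ?_
      rw [abs_mul, abs_mul]
      have f1 : |L y (m 0) - L x (m 0)| * |L y (m 1)| ≤
          ((CB + 6 * K') * ‖y - x‖ * ‖m 0‖) * (CL * ‖m 1‖) :=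
        mul_le_mul (e2 _) (e3 y hy _) (abs_nonneg _) (by positivity)
      have f2 : |L x (m 0)| * |L y (m 1) - L x (m 1)| ≤
          (CL * ‖m 0‖) * ((CB + 6 * K') * ‖y - x‖ * ‖m 1‖) :=
        mul_le_mul (e3 x hx _) (e2 _) (abs_nonneg _) (by positivity)
      calc _ ≤ ((CB + 6 * K') * ‖y - x‖ * ‖m 0‖) * (CL * ‖m 1‖) +
          (CL * ‖m 0‖) * ((CB + 6 * K') * ‖y - x‖ * ‖m 1‖) := add_le_add f1 f2
        _ = _ := by ring
    have e5 : 1 / 4 * B y (m 0) (m 1) - 3 / 16 * (L y (m 0) * L y (m 1)) -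
        (1 / 4 * B x (m 0) (m 1) - 3 / 16 * (L x (m 0) * L x (m 1))) =
        1 / 4 * (B y (m 0) (m 1) - B x (m 0) (m 1)) -
          3 / 16 * (L y (m 0) * L y (m 1) - L x (m 0) * L x (m 1)) := by ring
    rw [e5]
    refine (abs_sub _ _).trans ?_
    rw [abs_mul, abs_mul, abs_of_pos (by norm_num : (0:ℝ) < 1 / 4),
      abs_of_pos (by norm_num : (0:ℝ) < 3 / 16)]
    calc _ ≤ 1 / 4 * (3 * K' * ‖y - x‖ * (‖m 0‖ * ‖m 1‖)) +
        3 / 16 * (2 * CL * (CB + 6 * K') * ‖y - x‖ * (‖m 0‖ * ‖m 1‖)) := by gcongr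
      _ = _ := by rw [hCdef]; ring
  exact (LipschitzOnWith.of_dist_le_mul hmain).uniformContinuousOn

end SmoothQ

end Pool.Agent.US
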