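import Pool.Agent.Helper91.US.NNBasic
import Pool.Agent.Helper20.US.RecDer
import Pool.Agent.Helper69.US.Lim
import Pool.Agent.Helper74.US.Dbar1
import Pool.Agent.Helper79.US.SubLower
import Pool.Agent.Helper91.US.ConvTaylor
import Pool.Agent.Helper91.US.ExtendQ
import Pool.Agent.Helper91.US.Gap
import Pool.Agent.Helper91.US.Glide
import Pool.Agent.Helper91.US.LegA
import Pool.Agent.Helper91.US.LegB
import Pool.Agent.Helper98.US.LegC
import Pool.Agent.Helper91.US.MaxIneq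
import Pool.Agent.Helper91.US.Triangle
import Pool.Agent.Helper91.US.VLine
import Pool.Agent.Helper91.US.NoLq
import Pool.Agent.Helper91.US.SmoothQ
import Pool.Agent.Helper51.US.ABound
import Pool.Agent.Helper68.US.LocTaylor

set_option autoImplicit false

namespace Pool.Agent.US

open Finset Filter Topology
open scoped ContDiff

/-! ## G assembly -/

theorem Q_E0 {β C : ℝ} (hβ : 0 ≤ β) (hβC : β * C ≤ 1 / 3) (hG : ∀ n, Good n (DF n) C) :
    ∃ (K : ℝ) (L : (ℕ →₀ ℝ) → ((ℕ →₀ ℝ) →ₗ[ℝ] ℝ))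
        (B : (ℕ →₀ ℝ) → ((ℕ →₀ ℝ) →ₗ[ℝ] (ℕ →₀ ℝ) →ₗ[ℝ] ℝ)), 0 ≤ K ∧
        (∀ x h k, B x h k = B x k h) ∧
        ∀ x h : ℕ →₀ ℝ,
          |nrm β (⇑(x + h)) ^ 4 - nrm β x ^ 4 - L x h - 1 / 2 * B x h h| ≤
          K * (nrm β x + nrm β h) * nrm β h ^ 3 := by
  obtain ⟨K, hK, hloc⟩ := local_taylor hβ hβC hG
  choose L B hBs hQ using fun n : ℕ => hloc n (1 / ((n : ℝ) + 1) ^ 8) (by positivity)
  have hfin : ∀ x : ℕ →₀ ℝ, ∃ n, ∀ i, n ≤ i → x i = 0 := by
    intro x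
    obtain ⟨n, hn⟩ := x.support.bddAbove
    refine ⟨n + 1, fun i hi => ?_⟩
    by_contra hne
    have := hn (Finset.mem_coe.2 (Finsupp.mem_support_iff.2 hne))
    omega
  obtain ⟨L', B', hB', hQ'⟩ := lim_taylor
    (fun n (x : ℕ →₀ ℝ) => NN β (fun i => if i < n then x i ^ 4 + 1 / ((n : ℝ) + 1) ^ 8 else 0))
    (fun x => NN β (fun i => x i ^ 4)) L B
    (fun x h => K * (nrm β x + nrm β h) * nrm β h ^ 3)
    (fun n x h => K * (nrm β x + nrm β h + n * (1 / ((n : ℝ) + 1) ^ 8) ^ (1 / 4 : ℝ))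
      * nrm β h ^ 3)
    (fun x => NN_tendsto hβ hβC hG x (hfin x)) hBs
    (by
      intro x h
      obtain ⟨n1, h1⟩ := hfin x
      obtain ⟨n2, h2⟩ := hfin h
      filter_upwards [eventually_ge_atTop (max n1 n2)] with n hn
      exact hQ n x h (fun i hi => h1 i (by omega)) (fun i hi => h2 i (by omega)))
    (by
      intro x h
      have hlim : Tendsto (fun n : ℕ => (n : ℝ) * (1 / ((n : ℝ) + 1) ^ 8) ^ (1 / 4 : ℝ)) atTop
          (𝓝 0) := by
        have e1 : ∀ n : ℕ, (n : ℝ) * (1 / ((n : ℝ) + 1) ^ 8) ^ (1 / 4 : ℝ)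
            = (n : ℝ) / ((n : ℝ) + 1) ^ 2 := by
          intro n
          have : (1 / ((n : ℝ) + 1) ^ 8) ^ (1 / 4 : ℝ) = 1 / ((n : ℝ) + 1) ^ 2 := by
            have e2 : (1 / ((n : ℝ) + 1) ^ 8) = (1 / ((n : ℝ) + 1) ^ 2) ^ (4 : ℕ) := by
              field_simp
            rw [e2, ← Real.rpow_natCast, ← Real.rpow_mul (by positivity)]
            norm_num
          rw [this]; ring
        simp only [e1]
        refine squeeze_zero (fun n => by positivity) (fun n => ?_)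
          (tendsto_one_div_add_atTop_nhds_zero_nat)
        rw [div_le_div_iff₀ (by positivity) (by positivity)]
        nlinarith [(Nat.cast_nonneg n : (0 : ℝ) ≤ n)]
      have h2 := (((tendsto_const_nhds (x := nrm β x + nrm β h)).add hlim).const_mul K).mul_const
        (nrm β h ^ 3)
      rw [add_zero] at h2
      exact h2)
  refine ⟨K, L', B', hK, hB', fun x h => ?_⟩
  rw [nrm_pow_four hβ _ (hfin _), nrm_pow_four hβ _ (hfin _)]
  exact hQ' x h


theorem finsupp_fin (x : ℕ →₀ ℝ) : ∃ n, ∀ i, n ≤ i → x i = 0 := by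
  obtain ⟨n, hn⟩ := x.support.bddAbove
  refine ⟨n + 1, fun i hi => ?_⟩
  by_contra hne
  have := hn (Finset.mem_coe.2 (Finsupp.mem_support_iff.2 hne))
  omega

/-- the normed space `(c_00, nrm β)`. -/
theorem exists_space {β C : ℝ} (hβ : 0 ≤ β) (hβC : β * C ≤ 1 / 3) (hG : ∀ n, Good n (DF n) C) :
    ∃ (E : Type) (_ : NormedAddCommGroup E) (_ : NormedSpace ℝ E) (e : E ≃ₗ[ℝ] (ℕ →₀ ℝ)),
      ∀ x : E, ‖x‖ = nrm β (⇑(e x)) := by
  have h0 : nrm β (⇑(0 : ℕ →₀ ℝ)) = 0 := nrm_zero β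
  letI nn : Norm (ℕ →₀ ℝ) := ⟨fun x => nrm β (⇑x)⟩
  have core : NormedSpace.Core ℝ (ℕ →₀ ℝ) := by
    refine { norm_nonneg := ?_, norm_smul := ?_, norm_triangle := ?_, norm_eq_zero_iff := ?_ }
    · intro x; exact nrm_nonneg β _
    · intro c x
      exact nrm_smul hβ c (⇑x) (finsupp_fin x)
    · intro x y
      exact nrm_add_le hβ hβC hG _ _ (finsupp_fin x) (finsupp_fin y)
    · intro x
      constructor
      · intro h
        ext i
        have h1 := abs_le_nrm hβ (⇑x) (finsupp_fin x) i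
        have h2 : nrm β (⇑x) = 0 := h
        rw [h2] at h1
        simpa using abs_nonpos_iff.1 h1
      · rintro rfl
        exact h0
  letI i1 : NormedAddCommGroup (ℕ →₀ ℝ) := NormedAddCommGroup.ofCore core
  letI i2 : NormedSpace ℝ (ℕ →₀ ℝ) := NormedSpace.ofCore core
  exact ⟨ℕ →₀ ℝ, i1, i2, LinearEquiv.refl ℝ _, fun x => rfl⟩

theorem main :
    ¬ (∀ (X : Type) [NormedAddCommGroup X] [NormedSpace ℝ X] [CompleteSpace X]
      [TopologicalSpace.SeparableSpace X],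
      ¬ FiniteDimensional ℝ X →
      (∃ N : X → ℝ,
        (∀ x y : X, N (x + y) ≤ N x + N y) ∧
        (∀ (c : ℝ) (x : X), N (c • x) = |c| * N x) ∧
        (∃ a b : ℝ, 0 < a ∧ 0 < b ∧ ∀ x : X, a * ‖x‖ ≤ N x ∧ N x ≤ b * ‖x‖) ∧
        ContDiffOn ℝ 2 N {x : X | x ≠ 0} ∧
        UniformContinuousOn (iteratedFDeriv ℝ 2 N) {x : X | N x = 1}) →
      ∃ p : ENNReal, 1 < p ∧ p < ⊤ ∧
        ∃ T : lp (fun _ : ℕ => ℝ) p →ₗ[ℝ] X, ∃ a b : ℝ, 0 < a ∧ 0 < b ∧
          ∀ x : lp (fun _ : ℕ => ℝ) p, a * ‖x‖ ≤ ‖T x‖ ∧ ‖T x‖ ≤ b * ‖x‖) := by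
  intro hall
  obtain ⟨C, hC, hG⟩ := DF_good
  set β : ℝ := min (1 / 4) (1 / (3 * C)) with hβdef
  have hβ : 0 < β := lt_min (by norm_num) (by positivity)
  have hβ4 : β ≤ 1 / 4 := min_le_left _ _
  have hβC : β * C ≤ 1 / 3 := by
    have : β * C ≤ 1 / (3 * C) * C := mul_le_mul_of_nonneg_right (min_le_right _ _) hC.le
    refine this.trans (le_of_eq ?_)
    field_simp
  obtain ⟨E, i1, i2, e, hnorm⟩ := exists_space hβ.le hβC hG
  obtain ⟨K, L, B, hK, hBs, hQ⟩ := Q_E0 hβ.le hβC hG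
  -- transport of the Taylor estimate to `E`
  have hQE : ∀ x h : E, |‖x + h‖ ^ 4 - ‖x‖ ^ 4 - (L (e x) ∘ₗ (e : E →ₗ[ℝ] (ℕ →₀ ℝ))) h
      - 1 / 2 * ((B (e x)).compl₁₂ (e : E →ₗ[ℝ] (ℕ →₀ ℝ)) (e : E →ₗ[ℝ] (ℕ →₀ ℝ))) h h| ≤
      K * (‖x‖ + ‖h‖) * ‖h‖ ^ 3 := by
    intro x h
    have := hQ (e x) (e h)
    simp only [hnorm, map_add, LinearMap.comp_apply, LinearMap.compl₁₂_apply, LinearEquiv.coe_coe]
    exact this
  obtain ⟨L', B', hBs', hQ'⟩ := extend_Q
    (fun x => L (e x) ∘ₗ (e : E →ₗ[ℝ] (ℕ →₀ ℝ)))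
    (fun x => (B (e x)).compl₁₂ (e : E →ₗ[ℝ] (ℕ →₀ ℝ)) (e : E →ₗ[ℝ] (ℕ →₀ ℝ))) K hK
    (by intro x h k; simp only [LinearMap.compl₁₂_apply]; exact hBs _ _ _) hQE
  obtain ⟨hs1, hs2⟩ := smooth_of_Q L' B' K hK hBs' hQ'
  have hcoord : ∀ (x : E) i, |e x i| ≤ ‖x‖ := fun x i => by
    rw [hnorm]; exact abs_le_nrm hβ.le _ (finsupp_fin _) i
  -- separability
  haveI : TopologicalSpace.SeparableSpace E := by
    let v : ℕ → E := fun i => e.symm (Finsupp.single i 1)
    have hspan : (Submodule.span ℝ (Set.range v)) = ⊤ := by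
      rw [eq_top_iff]
      have key : ∀ f : ℕ →₀ ℝ, e.symm f ∈ Submodule.span ℝ (Set.range v) := by
        intro f
        induction f using Finsupp.induction_linear with
        | zero => simp
        | add f g hf hg => rw [map_add]; exact Submodule.add_mem _ hf hg
        | single i a =>
          have : (Finsupp.single i a : ℕ →₀ ℝ) = a • Finsupp.single i 1 := by simp
          rw [this, map_smul]
          exact Submodule.smul_mem _ _ (Submodule.subset_span ⟨i, rfl⟩)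
      intro x _
      have := key (e x)
      rwa [e.symm_apply_apply] at this
    have hsep : TopologicalSpace.IsSeparable ((Submodule.span ℝ (Set.range v) : Submodule ℝ E) : Set E) :=
      (Set.countable_range v).isSeparable.span
    rw [hspan] at hsep
    exact TopologicalSpace.isSeparable_univ_iff.1 (by simpa using hsep)
  haveI : TopologicalSpace.SeparableSpace (UniformSpace.Completion E) := inferInstance
  have hinf : ¬ FiniteDimensional ℝ (UniformSpace.Completion E) := by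
    intro hfd
    have hli : LinearIndependent ℝ (fun i : ℕ => (e.symm (Finsupp.single i 1) : E)) := by
      have h1 : LinearIndependent ℝ (fun i : ℕ => (Finsupp.single i 1 : ℕ →₀ ℝ)) :=
        Finsupp.linearIndependent_single_one ℝ ℕ
      exact h1.map' (e.symm : (ℕ →₀ ℝ) →ₗ[ℝ] E) (LinearEquiv.ker _)
    have hli2 : LinearIndependent ℝ
        (fun i : ℕ => ((e.symm (Finsupp.single i 1) : E) : UniformSpace.Completion E)) := by
      refine hli.map' (UniformSpace.Completion.toComplₗᵢ (𝕜 := ℝ) (E := E)).toLinearMap ?_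
      rw [LinearMap.ker_eq_bot]
      exact UniformSpace.Completion.coe_injective E
    exact (hli2.finite_of_isNoetherian).false
  obtain ⟨p, hp1, hp2, T, a, b, ha, hb, hT⟩ := hall (UniformSpace.Completion E) hinf
    ⟨fun x => ‖x‖, fun x y => norm_add_le x y, fun c x => norm_smul c x,
      ⟨1, 1, one_pos, one_pos, fun x => by simp⟩, hs1, hs2⟩
  obtain ⟨N, u, c, C', hN, hc, hC', hu, hest⟩ := glide e hcoord p hp1 hp2 T a b ha hb hT
  have hq : 0 < p.toReal := ENNReal.toReal_pos (by positivity) hp2.ne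
  refine no_lq hβ hβ4 N hN (fun j i => e (u j) i) hu p.toReal hq c C' hc hC' (fun n s => ?_)
  have h1 := hest n s
  have h2 : ‖∑ j ∈ range n, s j • u j‖ = nrm β (fun i => ∑ j ∈ range n, s j * e (u j) i) := by
    rw [hnorm]
    congr 1
    ext i
    simp [map_sum, Finsupp.finsetSum_apply]
  rw [h2] at h1
  exact h1

end Pool.Agent.US
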