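import Mathlib

set_option autoImplicit false

/-!
# A separable Banach space with a uniformly C² norm and no copy of ℓ_p: definitions

`sg` is a smooth cutoff, `D n y k`, `G n y k` are the (smoothed Tsirelson depth) recursion,
`V i m` is the depth of the atom `i` in the (nonnegative) mass distribution `m`,
`Dsum n m = ∑_{i<n} m_i V_i(m)`, `JJ` the functional and `NN β z` its supremum
(a positively homogeneous function of degree one of `z ≥ 0`); the norm of `x` is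
`(NN β (x^4))^{1/4}`.
-/

namespace Pool.Agent.US

open Finset

/-- smooth nonincreasing cutoff: `1` on `(-∞,1]`, `0` on `[2,∞)`. -/
noncomputable def sg (t : ℝ) : ℝ := 1 - Real.smoothTransition (t - 1)

noncomputable def lam (k : ℕ) : ℝ := 3 / 10 * 2 ^ k

noncomputable def Sk (k : ℕ) (y : ℝ) : ℝ := sg (y / lam k)

/-- the recursion `D_k = 1 - ∑_{k<j≤n} S_k(y_j) D_j`. -/
noncomputable def D (n : ℕ) (y : ℕ → ℝ) (k : ℕ) : ℝ :=
  1 - ∑ j ∈ (Finset.Ioc k n).attach, Sk k (y j.1) * D n y j.1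
  termination_by n - k
  decreasing_by
    have := Finset.mem_Ioc.1 j.2
    omega

theorem D_eq (n : ℕ) (y : ℕ → ℝ) (k : ℕ) :
    D n y k = 1 - ∑ j ∈ Finset.Ioc k n, Sk k (y j) * D n y j := by
  rw [D]
  congr 1
  exact Finset.sum_attach (Finset.Ioc k n) (fun j => Sk k (y j) * D n y j)

/-- `G_k = ∑_{k≤j≤n} D_j` (so `G_k = 0` for `k > n`). -/
noncomputable def G (n : ℕ) (y : ℕ → ℝ) (k : ℕ) : ℝ := ∑ j ∈ Finset.Icc k n, D n y j

/-- cumulative mass of `[0,k)`. -/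
noncomputable def F (m : ℕ → ℝ) (k : ℕ) : ℝ := ∑ j ∈ Finset.range k, m j

/-- `y_k(i) = log (m[0,i] / m[k,i])`. -/
noncomputable def Y (m : ℕ → ℝ) (i k : ℕ) : ℝ :=
  Real.log (F m (i + 1)) - Real.log (F m (i + 1) - F m k)

/-- the depth of the atom `i`. -/
noncomputable def V (i : ℕ) (m : ℕ → ℝ) : ℝ := G i (Y m i) 0 - 1

noncomputable def Dsum (n : ℕ) (m : ℕ → ℝ) : ℝ := ∑ i ∈ Finset.range n, m i * V i m

/-- the functional `J(m,z) = ⟨m, log z⟩ - ∑ (m log m - m) - β Dsum(m)` on `[0,n)`. -/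
noncomputable def JJ (β : ℝ) (n : ℕ) (m z : ℕ → ℝ) : ℝ :=
  ∑ i ∈ Finset.range n, (m i * Real.log (z i) - m i * Real.log (m i) + m i) - β * Dsum n m

/-- `m` is an admissible mass distribution for `z` on `[0,n)`. -/
def Adm (n : ℕ) (m z : ℕ → ℝ) : Prop :=
  (∀ i, 0 ≤ m i) ∧ (∀ i, z i = 0 → m i = 0) ∧ (∀ i, n ≤ i → m i = 0)

noncomputable def NN (β : ℝ) (z : ℕ → ℝ) : ℝ :=
  sSup {r : ℝ | ∃ (n : ℕ) (m : ℕ → ℝ), Adm n m z ∧ r = JJ β n m z}

/-- the norm. -/
noncomputable def nrm (β : ℝ) (x : ℕ → ℝ) : ℝ := (NN β (fun i => x i ^ 4)) ^ (1 / 4 : ℝ)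

/-- one-sided maximal function of `|g|` with respect to the weights `m`:
`max_{k ≤ i} (∑_{k≤j≤i} m_j |g_j|) / (∑_{k≤j≤i} m_j)`. -/
noncomputable def Mx (m g : ℕ → ℝ) (i : ℕ) : ℝ :=
  (Finset.range (i + 1)).sup' ⟨0, by simp⟩
    (fun k => (∑ j ∈ Finset.Icc k i, m j * |g j|) / (∑ j ∈ Finset.Icc k i, m j))

/-! ### basic facts on the cutoff -/

theorem sg_nonneg (t : ℝ) : 0 ≤ sg t := by
  unfold sg; linarith [Real.smoothTransition.le_one (t - 1)]

theorem sg_le_one (t : ℝ) : sg t ≤ 1 := by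
  unfold sg; linarith [Real.smoothTransition.nonneg (t - 1)]

theorem sg_eq_one {t : ℝ} (h : t ≤ 1) : sg t = 1 := by
  unfold sg; rw [Real.smoothTransition.zero_of_nonpos (by linarith)]; ring

theorem sg_eq_zero {t : ℝ} (h : 2 ≤ t) : sg t = 0 := by
  unfold sg; rw [Real.smoothTransition.one_of_one_le (by linarith)]; ring

theorem lam_pos (k : ℕ) : 0 < lam k := by unfold lam; positivity

theorem lam_succ (k : ℕ) : lam (k + 1) = 2 * lam k := by unfold lam; ring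

theorem lam_zero : lam 0 = 3 / 10 := by unfold lam; norm_num

theorem lam_mono : Monotone lam := by
  refine monotone_nat_of_le_succ (fun k => ?_)
  rw [lam_succ]; linarith [lam_pos k]

theorem three_tenths_le_lam (k : ℕ) : 3 / 10 ≤ lam k := by
  rw [← lam_zero]; exact lam_mono (Nat.zero_le k)

theorem Sk_nonneg (k : ℕ) (y : ℝ) : 0 ≤ Sk k y := sg_nonneg _

theorem Sk_le_one (k : ℕ) (y : ℝ) : Sk k y ≤ 1 := sg_le_one _

theorem Sk_eq_one {k : ℕ} {y : ℝ} (h : y ≤ lam k) : Sk k y = 1 := by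
  apply sg_eq_one
  rw [div_le_one (lam_pos k)]; exact h

theorem Sk_eq_zero {k : ℕ} {y : ℝ} (h : 2 * lam k ≤ y) : Sk k y = 0 := by
  apply sg_eq_zero
  rw [le_div_iff₀ (lam_pos k)]; exact h

end Pool.Agent.US
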