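import Pool.Agent.Helper91.US.Defs

set_option autoImplicit false

namespace Pool.Agent.US

open Finset Filter Topology
open scoped ContDiff

/-- restriction of the mass distribution to `[a,∞)`. -/
def tail (a : ℕ) (m : ℕ → ℝ) : ℕ → ℝ := fun j => if a ≤ j then m j else 0

/-- extension by zero. -/
def ext (n : ℕ) (m : Fin n → ℝ) : ℕ → ℝ := fun j => if h : j < n then m ⟨j, h⟩ else 0

/-- the depth functional on `ℝ^n`. -/
noncomputable def DF (n : ℕ) (m : Fin n → ℝ) : ℝ := Dsum n (ext n m)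

/-- hypotheses on a one-homogeneous function on the orthant of `ℝ^n`. -/
structure Good (n : ℕ) (Φ : (Fin n → ℝ) → ℝ) (C : ℝ) : Prop where
  nonneg : ∀ m, (∀ i, 0 ≤ m i) → 0 ≤ Φ m
  hom : ∀ m, (∀ i, 0 ≤ m i) → ∀ t : ℝ, 0 ≤ t → Φ (fun i => t * m i) = t * Φ m
  cont : ContinuousOn Φ {m | ∀ i, 0 ≤ m i}
  smooth : ContDiffOn ℝ ∞ Φ {m | ∀ i, 0 < m i}
  grad : ∃ K : ℝ, ∀ m, (∀ i, 0 < m i) → ∀ j, |fderiv ℝ Φ m (Pi.single j 1)| ≤ K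
  h2 : ∀ m, (∀ i, 0 < m i) → ∀ g : Fin n → ℝ,
    |fderiv ℝ (fderiv ℝ Φ) m (fun i => m i * g i) (fun i => m i * g i)| ≤ C * ∑ i, m i * g i ^ 2
  h3 : ∀ m, (∀ i, 0 < m i) → ∀ g : Fin n → ℝ,
    |fderiv ℝ (fderiv ℝ Φ) m (fun i => m i * g i) (fun i => m i * (g i * |g i|))|
      ≤ C * ∑ i, m i * |g i| ^ 3
  c3 : ∀ m, (∀ i, 0 < m i) → ∀ g : Fin n → ℝ,
    |fderiv ℝ (fderiv ℝ (fderiv ℝ Φ)) m (fun i => m i * g i) (fun i => m i * g i)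
      (fun i => m i * g i)| ≤ C * ∑ i, m i * |g i| ^ 3

/-- the entropy functional. -/
noncomputable def PP (β : ℝ) (n : ℕ) (Φ : (Fin n → ℝ) → ℝ) (m : Fin n → ℝ) : ℝ :=
  ∑ i, (m i * Real.log (m i) - m i) + β * Φ m

/-- `M` is a smooth selection of the maximizers. -/
structure IsLeg (β : ℝ) (n : ℕ) (Φ : (Fin n → ℝ) → ℝ) (M : (Fin n → ℝ) → (Fin n → ℝ)) : Prop where
  pos : ∀ u i, 0 < M u i
  smooth : ContDiff ℝ ∞ M
  crit : ∀ u a, fderiv ℝ (PP β n Φ) (M u) a = ∑ i, u i * a i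

end Pool.Agent.US
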