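import Pool.Agent.Helper91.US.Defs2

/-!
# Auxiliary facts for the gap estimate: scaling and blocks
-/

set_option autoImplicit false

namespace Pool.Agent.US.GapAux

open Finset Pool.Agent.US

theorem D_congr (n : ℕ) (y y' : ℕ → ℝ) : ∀ k : ℕ, (∀ j, k < j → j ≤ n → y j = y' j) →
    D n y k = D n y' k := by
  have main : ∀ d k : ℕ, n - k ≤ d → (∀ j, k < j → j ≤ n → y j = y' j) →
      D n y k = D n y' k := by
    intro d
    induction d with
    | zero =>
      intro k hk _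
      rw [D_eq, D_eq, Finset.Ioc_eq_empty (by omega), Finset.sum_empty, Finset.sum_empty]
    | succ d ih =>
      intro k hk h
      rw [D_eq, D_eq]
      congr 1
      refine Finset.sum_congr rfl fun j hj => ?_
      rw [Finset.mem_Ioc] at hj
      rw [h j hj.1 hj.2, ih j (by omega) fun j' h1 h2 => h j' (by omega) h2]
  exact fun k h => main (n - k) k le_rfl h

theorem G_congr (n : ℕ) (y y' : ℕ → ℝ) (h : ∀ j, j ≤ n → y j = y' j) :
    G n y 0 = G n y' 0 := by
  unfold G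
  exact Finset.sum_congr rfl fun k _ => D_congr n y y' k fun j _ hj => h j hj

theorem F_congr {m m' : ℕ → ℝ} {k : ℕ} (h : ∀ j < k, m j = m' j) : F m k = F m' k := by
  unfold F
  exact Finset.sum_congr rfl fun j hj => h j (Finset.mem_range.1 hj)

theorem V_congr {i : ℕ} {m m' : ℕ → ℝ} (h : ∀ j ≤ i, m j = m' j) : V i m = V i m' := by
  unfold V
  congr 1
  refine G_congr i _ _ fun j hj => ?_
  unfold Y
  rw [F_congr (m := m) (m' := m') (k := i + 1) fun l hl => h l (by omega),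
    F_congr (m := m) (m' := m') (k := j) fun l hl => h l (by omega)]

theorem F_smul (s : ℝ) (m : ℕ → ℝ) (k : ℕ) : F (fun j => s * m j) k = s * F m k := by
  unfold F; rw [Finset.mul_sum]

theorem F_mono {m : ℕ → ℝ} (hm : ∀ i, 0 ≤ m i) {k l : ℕ} (h : k ≤ l) : F m k ≤ F m l := by
  unfold F
  exact Finset.sum_le_sum_of_subset_of_nonneg (Finset.range_mono h) fun i _ _ => hm i

theorem F_nonneg {m : ℕ → ℝ} (hm : ∀ i, 0 ≤ m i) (k : ℕ) : 0 ≤ F m k :=
  Finset.sum_nonneg fun i _ => hm i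

theorem F_succ (m : ℕ → ℝ) (k : ℕ) : F m (k + 1) = F m k + m k := by
  unfold F; rw [Finset.sum_range_succ]

theorem V_smul {s : ℝ} (hs : 0 < s) {m : ℕ → ℝ} (hm : ∀ i, 0 ≤ m i) {i : ℕ} (hi : 0 < m i) :
    V i (fun j => s * m j) = V i m := by
  unfold V
  congr 1
  refine G_congr i _ _ fun k hk => ?_
  have h1 : F m k ≤ F m i := F_mono hm hk
  have h2 : F m (i + 1) = F m i + m i := F_succ m i
  have h3 : 0 < F m (i + 1) - F m k := by linarith
  have h4 : 0 < F m (i + 1) := by have := F_nonneg hm k; linarith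
  unfold Y
  rw [F_smul, F_smul, ← mul_sub, Real.log_mul hs.ne' h4.ne', Real.log_mul hs.ne' h3.ne']
  ring

theorem JJ_smul {β s : ℝ} (hs : 0 < s) {n : ℕ} {m z : ℕ → ℝ} (hm : ∀ i, 0 ≤ m i) :
    JJ β n (fun j => s * m j) z = s * JJ β n m z - s * Real.log s * ∑ i ∈ range n, m i := by
  have h1 : Dsum n (fun j => s * m j) = s * Dsum n m := by
    unfold Dsum
    rw [Finset.mul_sum]
    refine Finset.sum_congr rfl fun i _ => ?_
    rcases eq_or_lt_of_le (hm i) with h | h
    · simp only [← h, mul_zero, zero_mul]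
    · rw [V_smul hs hm h]; ring
  unfold JJ
  rw [h1, mul_sub, Finset.mul_sum, Finset.mul_sum]
  have h2 : ∀ i, s * m i * Real.log (z i) - s * m i * Real.log (s * m i) + s * m i =
      s * (m i * Real.log (z i) - m i * Real.log (m i) + m i) - s * Real.log s * m i := by
    intro i
    rcases eq_or_lt_of_le (hm i) with h | h
    · rw [← h]; simp
    · rw [Real.log_mul hs.ne' h.ne']; ring
  simp only [h2]
  rw [Finset.sum_sub_distrib]
  ring

/-- the mass bound -/
theorem JJ_le_mass {β : ℝ} {n : ℕ} {m u : ℕ → ℝ} (hJ : ∀ m', Adm n m' u → JJ β n m' u ≤ 1)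
    (hm : Adm n m u) :
    JJ β n m u ≤ (∑ i ∈ range n, m i) - (∑ i ∈ range n, m i) * Real.log (∑ i ∈ range n, m i) := by
  set t := ∑ i ∈ range n, m i with ht
  have ht0 : 0 ≤ t := Finset.sum_nonneg fun i _ => hm.1 i
  rcases eq_or_lt_of_le ht0 with h | h
  · have hz : ∀ i ∈ range n, m i = 0 := by
      intro i hi
      exact (Finset.sum_eq_zero_iff_of_nonneg (fun i _ => hm.1 i)).1 (by rw [← ht, ← h]) i hi
    have h1 : JJ β n m u = 0 := by
      unfold JJ Dsum
      rw [Finset.sum_eq_zero, Finset.sum_eq_zero]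
      · ring
      · intro i hi; rw [hz i hi]; ring
      · intro i hi; rw [hz i hi]; ring
    rw [h1, ← h]; simp
  · have hs : 0 < t⁻¹ := inv_pos.2 h
    have hadm : Adm n (fun j => t⁻¹ * m j) u :=
      ⟨fun i => mul_nonneg hs.le (hm.1 i),
        fun i hi => by show t⁻¹ * m i = 0; rw [hm.2.1 i hi, mul_zero],
        fun i hi => by show t⁻¹ * m i = 0; rw [hm.2.2 i hi, mul_zero]⟩
    have h1 := hJ _ hadm
    rw [JJ_smul hs hm.1, ← ht, Real.log_inv] at h1
    have h2 : t⁻¹ * JJ β n m u - t⁻¹ * -Real.log t * t = t⁻¹ * (JJ β n m u + t * Real.log t) := by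
      ring
    rw [h2, inv_mul_le_iff₀ h] at h1
    linarith

theorem real_ineq {t c : ℝ} (ht : 0 ≤ t) (hc : 0 < c) :
    t - t * Real.log t + t * Real.log c ≤ c - (√t - √c) ^ 2 := by
  have hc2 : √c ^ 2 = c := Real.sq_sqrt hc.le
  have ht2 : √t ^ 2 = t := Real.sq_sqrt ht
  rcases eq_or_lt_of_le ht with h | h
  · rw [← h]; simp [hc2]
  · have hst : 0 < √t := Real.sqrt_pos.2 h
    have hsc : 0 < √c := Real.sqrt_pos.2 hc
    have h1 : Real.log (√c / √t) ≤ √c / √t - 1 := Real.log_le_sub_one_of_pos (by positivity)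
    rw [Real.log_div hsc.ne' hst.ne', Real.log_sqrt hc.le, Real.log_sqrt ht] at h1
    have h2 : t * (Real.log c / 2 - Real.log t / 2) ≤ t * (√c / √t - 1) :=
      mul_le_mul_of_nonneg_left h1 ht
    have h3 : t * (√c / √t - 1) = √t * √c - t := by
      have : t * (√c / √t) = √t * √c := by
        rw [mul_div_assoc', div_eq_iff hst.ne']
        nlinarith
      rw [mul_sub, this, mul_one]
    nlinarith

/-- restriction to `[a,b)`. -/
def blk (a b : ℕ) (m : ℕ → ℝ) : ℕ → ℝ := fun i => if a ≤ i ∧ i < b then m i else 0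

theorem blk_of_mem {a b : ℕ} {m : ℕ → ℝ} {i : ℕ} (h : i ∈ Ico a b) : blk a b m i = m i := by
  rw [Finset.mem_Ico] at h
  exact if_pos h

theorem blk_of_notMem {a b : ℕ} {m : ℕ → ℝ} {i : ℕ} (h : i ∉ Ico a b) : blk a b m i = 0 := by
  rw [Finset.mem_Ico] at h
  exact if_neg h

theorem sum_range_eq_Ico {a b : ℕ} (f : ℕ → ℝ) (hf : ∀ i, i ∉ Ico a b → f i = 0) :
    ∑ i ∈ range b, f i = ∑ i ∈ Ico a b, f i := by
  symm
  apply Finset.sum_subset
  · intro i hi; rw [Finset.mem_Ico] at hi; exact Finset.mem_range.2 hi.2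
  · intro i _ hi; exact hf i hi

/-- the bound for one block -/
theorem block_bound {β : ℝ} {a b : ℕ} {m u : ℕ → ℝ} {c : ℝ} (hc : 0 < c)
    (hm : ∀ i, 0 ≤ m i) (hu : ∀ i, 0 ≤ u i) (hmu : ∀ i ∈ Ico a b, u i = 0 → m i = 0)
    (hJ : ∀ m', Adm b m' u → JJ β b m' u ≤ 1) :
    ∑ i ∈ Ico a b, (m i * Real.log (c * u i) - m i * Real.log (m i) + m i
      - β * (m i * V i (blk a b m))) ≤ c - (√(∑ i ∈ Ico a b, m i) - √c) ^ 2 := by
  have hadm : Adm b (blk a b m) u := by
    refine ⟨fun i => ?_, fun i hi => ?_, fun i hi => ?_⟩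
    · by_cases h : i ∈ Ico a b
      · rw [blk_of_mem h]; exact hm i
      · rw [blk_of_notMem h]
    · by_cases h : i ∈ Ico a b
      · rw [blk_of_mem h]; exact hmu i h hi
      · rw [blk_of_notMem h]
    · exact blk_of_notMem (by rw [Finset.mem_Ico]; omega)
  have hmass : ∑ i ∈ range b, blk a b m i = ∑ i ∈ Ico a b, m i := by
    rw [sum_range_eq_Ico _ fun i hi => blk_of_notMem hi]
    exact Finset.sum_congr rfl fun i hi => blk_of_mem hi
  have h1 := JJ_le_mass hJ hadm
  rw [hmass] at h1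
  set t := ∑ i ∈ Ico a b, m i with ht
  have ht0 : 0 ≤ t := Finset.sum_nonneg fun i _ => hm i
  have h2 : JJ β b (blk a b m) u = ∑ i ∈ Ico a b, (m i * Real.log (u i) - m i * Real.log (m i) +
      m i - β * (m i * V i (blk a b m))) := by
    unfold JJ Dsum
    rw [Finset.mul_sum, ← Finset.sum_sub_distrib, sum_range_eq_Ico (a := a)]
    · refine Finset.sum_congr rfl fun i hi => ?_
      rw [blk_of_mem hi]
    · intro i hi
      rw [blk_of_notMem hi]; ring
  have h3 : ∑ i ∈ Ico a b, (m i * Real.log (c * u i) - m i * Real.log (m i) + m i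
      - β * (m i * V i (blk a b m))) =
      ∑ i ∈ Ico a b, (m i * Real.log (u i) - m i * Real.log (m i) +
      m i - β * (m i * V i (blk a b m))) + t * Real.log c := by
    rw [ht, Finset.sum_mul, ← Finset.sum_add_distrib]
    refine Finset.sum_congr rfl fun i hi => ?_
    rcases eq_or_lt_of_le (hu i) with h | h
    · rw [hmu i hi h.symm]; ring
    · rw [Real.log_mul hc.ne' h.ne']; ring
  rw [h3, ← h2]
  have h4 := real_ineq ht0 hc
  linarith

theorem V_blk {a b i : ℕ} {m : ℕ → ℝ} (hi : i ∈ Ico a b) : V i (blk a b m) = V i (tail a m) := by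
  rw [Finset.mem_Ico] at hi
  refine V_congr fun j hj => ?_
  unfold blk tail
  by_cases h : a ≤ j
  · rw [if_pos ⟨h, by omega⟩, if_pos h]
  · rw [if_neg (fun h' => h h'.1), if_neg h]

theorem sum_blocks (N : ℕ → ℕ) (hN : Monotone N) (f : ℕ → ℝ) (r : ℕ) :
    ∑ i ∈ range (N r), f i = ∑ i ∈ range (N 0), f i +
      ∑ j ∈ range r, ∑ i ∈ Ico (N j) (N (j + 1)), f i := by
  induction r with
  | zero => simp
  | succ r ih =>
    rw [Finset.sum_range_succ, ← add_assoc, ← ih, ← Finset.sum_range_add_sum_Ico _ (hN (Nat.le_succ r))]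

theorem exp_bound : Real.exp (2 * lam 0) ≤ 19 / 10 := by
  have h1 : Real.exp (2 * lam 0) ^ 5 ≤ (19 / 10 : ℝ) ^ 5 := by
    rw [← Real.exp_nat_mul, lam_zero]
    have h2 : ((5 : ℕ) : ℝ) * (2 * (3 / 10)) = ((3 : ℕ) : ℝ) * 1 := by norm_num
    rw [h2, Real.exp_nat_mul]
    have h3 : Real.exp 1 ≤ 2.7182818286 := Real.exp_one_lt_d9.le
    calc Real.exp 1 ^ 3 ≤ (2.7182818286 : ℝ) ^ 3 := by gcongr
      _ ≤ (19 / 10 : ℝ) ^ 5 := by norm_num
  exact le_of_pow_le_pow_left₀ (by norm_num) (by norm_num) h1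

end Pool.Agent.US.GapAux
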