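import Pool.Agent.Helper91.US.GapAux

/-!
# The gap estimate
-/

set_option autoImplicit false

namespace Pool.Agent.US

open Finset GapAux

namespace GapAux

theorem abs_diff_le {t a : ℝ} (ht : 0 ≤ t) (ha : 0 ≤ a) :
    |t - a| ≤ 401 * (√t - √a) ^ 2 + a / 200 := by
  have h1 : √t ^ 2 = t := Real.sq_sqrt ht
  have h2 : √a ^ 2 = a := Real.sq_sqrt ha
  rw [abs_le]
  constructor
  · nlinarith [sq_nonneg (20 * (√t - √a) + √a / 20), sq_nonneg (√t - √a)]
  · nlinarith [sq_nonneg (20 * (√t - √a) - √a / 20), sq_nonneg (√t - √a)]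

end GapAux

theorem NN_gap_core {β : ℝ} (hβ : 0 < β)
    (hNNle : ∀ (n : ℕ) (z : ℕ → ℝ) (B : ℝ), (∀ i, n ≤ i → z i = 0) →
      (∀ m, Adm n m z → JJ β n m z ≤ B) → NN β z ≤ B)
    (hleNN : ∀ (n : ℕ) (m z : ℕ → ℝ), (∀ i, 0 ≤ z i) → (∀ i, n ≤ i → z i = 0) → Adm n m z →
      JJ β n m z ≤ NN β z)
    (hmono : ∀ m : ℕ → ℝ, (∀ i, 0 ≤ m i) → ∀ a i : ℕ, a ≤ i → 0 < m i →
      V i (tail a m) ≤ V i m)
    (hgain : ∀ m : ℕ → ℝ, (∀ i, 0 ≤ m i) → ∀ M a i : ℕ, M < a → a ≤ i → 0 < m i →
      2 * lam 0 ≤ Y m i M → 2 * lam M ≤ Y m i a → 1 + V i (tail a m) ≤ V i m) :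
    ∃ δ : ℝ, 0 < δ ∧ ∀ M : ℕ, ∃ r : ℕ, 0 < r ∧
    ∀ (N : ℕ → ℕ) (u₀ : ℕ → ℝ) (z : ℕ → ℕ → ℝ), StrictMono N → M < N 0 →
      (∀ i, 0 ≤ u₀ i) → (∀ i, u₀ i ≠ 0 → i < M) → (∀ j i, 0 ≤ z j i) →
      (∀ j i, z j i ≠ 0 → N j ≤ i ∧ i < N (j + 1)) → NN β u₀ ≤ 1 → (∀ j < r, NN β (z j) ≤ 1) →
      NN β (fun i => u₀ i / 2 + ∑ j ∈ range r, z j i / (2 * r)) ≤ 1 - δ := by
  refine ⟨min (1 / 100000) (2 * β / 5), lt_min (by norm_num) (by positivity), fun M => ?_⟩
  set τ : ℝ := 48 / 100 * Real.exp (-(2 * lam M)) with hτ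
  have hτ0 : 0 < τ := by positivity
  obtain ⟨r', hr'⟩ := exists_nat_ge (10 / τ)
  refine ⟨r' + 1, Nat.succ_pos _, ?_⟩
  set r : ℕ := r' + 1 with hrdef
  have hr0 : (0 : ℝ) < r := by rw [hrdef]; positivity
  have hrτ : 10 ≤ (r : ℝ) * τ := by
    rw [div_le_iff₀ hτ0] at hr'
    have : (r' : ℝ) * τ ≤ (r : ℝ) * τ := by
      rw [hrdef]; push_cast; nlinarith
    linarith
  intro N u₀ z hN hM hu₀ hu₀M hz hzN hNu₀ hNz
  have hNm : Monotone N := hN.monotone
  have hN0 : ∀ j, M < N j := fun j => lt_of_lt_of_le hM (hNm (Nat.zero_le j))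
  set Z : ℕ → ℝ := fun i => u₀ i / 2 + ∑ j ∈ range r, z j i / (2 * r) with hZ
  have hc : (0 : ℝ) < 1 / (2 * r) := by positivity
  -- values of `Z`
  have hu₀z : ∀ i, M ≤ i → u₀ i = 0 := by
    intro i hi
    by_contra h
    have := hu₀M i h
    omega
  have hzz : ∀ j i, ¬ (N j ≤ i ∧ i < N (j + 1)) → z j i = 0 := by
    intro j i h
    by_contra h'
    exact h (hzN j i h')
  have hZ0 : ∀ i, i < M → Z i = 1 / 2 * u₀ i := by
    intro i hi
    have : ∑ j ∈ range r, z j i / (2 * r) = 0 := by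
      refine Finset.sum_eq_zero fun j _ => ?_
      rw [hzz j i (by have := hN0 j; omega), zero_div]
    simp only [hZ, this]; ring
  have hZmid : ∀ i, M ≤ i → i < N 0 → Z i = 0 := by
    intro i hi hi'
    have : ∑ j ∈ range r, z j i / (2 * r) = 0 := by
      refine Finset.sum_eq_zero fun j _ => ?_
      rw [hzz j i (by have := hNm (Nat.zero_le j); omega), zero_div]
    simp only [hZ, this, hu₀z i hi]; ring
  have hZb : ∀ j ∈ range r, ∀ i ∈ Ico (N j) (N (j + 1)), Z i = 1 / (2 * r) * z j i := by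
    intro j hj i hi
    rw [Finset.mem_Ico] at hi
    have h1 : ∑ j' ∈ range r, z j' i / (2 * r) = z j i / (2 * r) := by
      refine Finset.sum_eq_single_of_mem j hj fun j' _ hne => ?_
      rw [hzz j' i, zero_div]
      rintro ⟨h2, h3⟩
      rcases lt_or_gt_of_ne hne with h | h
      · have := hNm (Nat.succ_le_of_lt h)
        simp only [Nat.succ_eq_add_one] at this
        omega
      · have := hNm (Nat.succ_le_of_lt h)
        simp only [Nat.succ_eq_add_one] at this
        omega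
    simp only [hZ, h1, hu₀z i (by have := hN0 j; omega)]
    ring
  have hZtop : ∀ i, N r ≤ i → Z i = 0 := by
    intro i hi
    have : ∑ j ∈ range r, z j i / (2 * r) = 0 := by
      refine Finset.sum_eq_zero fun j hj => ?_
      rw [Finset.mem_range] at hj
      have := hNm (Nat.succ_le_of_lt hj)
      simp only [Nat.succ_eq_add_one] at this
      rw [hzz j i (by omega), zero_div]
    simp only [hZ, this, hu₀z i (by have := hN0 r; omega)]
    ring
  refine hNNle (N r) Z _ hZtop fun m hm => ?_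
  obtain ⟨hm0, hmZ, hmtop⟩ := hm
  -- the density
  set h : ℕ → ℝ := fun i => m i * Real.log (Z i) - m i * Real.log (m i) + m i
    - β * (m i * V i m) with hh
  have hJ : JJ β (N r) m Z = ∑ i ∈ range (N r), h i := by
    unfold JJ Dsum
    rw [Finset.mul_sum, ← Finset.sum_sub_distrib]
  set t₀ : ℝ := ∑ i ∈ Ico 0 M, m i with ht₀
  set t : ℕ → ℝ := fun j => ∑ i ∈ Ico (N j) (N (j + 1)), m i with ht
  have ht₀0 : 0 ≤ t₀ := Finset.sum_nonneg fun i _ => hm0 i
  have ht0 : ∀ j, 0 ≤ t j := fun j => Finset.sum_nonneg fun i _ => hm0 i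
  have hmid : ∀ i, M ≤ i → i < N 0 → m i = 0 := fun i h1 h2 => hmZ i (hZmid i h1 h2)
  have hsplit : ∀ f : ℕ → ℝ, (∀ i, m i = 0 → f i = 0) → ∑ i ∈ range (N r), f i =
      ∑ i ∈ Ico 0 M, f i + ∑ j ∈ range r, ∑ i ∈ Ico (N j) (N (j + 1)), f i := by
    intro f hf
    rw [sum_blocks N hNm f r]
    congr 1
    rw [Finset.range_eq_Ico, ← Finset.sum_Ico_consecutive f (Nat.zero_le M) hM.le]
    have : ∑ i ∈ Ico M (N 0), f i = 0 := by
      refine Finset.sum_eq_zero fun i hi => ?_
      rw [Finset.mem_Ico] at hi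
      exact hf i (hmid i hi.1 hi.2)
    rw [this, add_zero]
  have hJ2 : JJ β (N r) m Z =
      ∑ i ∈ Ico 0 M, h i + ∑ j ∈ range r, ∑ i ∈ Ico (N j) (N (j + 1)), h i := by
    rw [hJ]
    refine hsplit h fun i hi => ?_
    simp only [hh, hi]; ring
  have hT : F m (N r) = t₀ + ∑ j ∈ range r, t j := hsplit m fun i hi => hi
  have hFM : F m M = t₀ := by rw [ht₀, ← Finset.range_eq_Ico]; rfl
  -- block 0
  have hb0 : ∑ i ∈ Ico 0 M, h i ≤ 1 / 2 - (√t₀ - √(1 / 2)) ^ 2 := by
    have h1 := block_bound (β := β) (a := 0) (b := M) (m := m) (u := u₀) (c := 1 / 2)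
      (by norm_num) hm0 hu₀
      (by
        intro i hi hui
        rw [Finset.mem_Ico] at hi
        apply hmZ
        rw [hZ0 i hi.2, hui, mul_zero])
      (fun m' hm' => le_trans (hleNN M m' u₀ hu₀ hu₀z hm') hNu₀)
    refine le_trans (le_of_eq (Finset.sum_congr rfl fun i hi => ?_)) h1
    have hi' := Finset.mem_Ico.1 hi
    have h2 : V i (blk 0 M m) = V i m := by
      refine V_congr fun j hj => blk_of_mem ?_
      rw [Finset.mem_Ico]; omega
    simp only [hh]
    rw [hZ0 i hi'.2, h2]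
  -- the other blocks
  have hbase : ∀ j ∈ range r, ∑ i ∈ Ico (N j) (N (j + 1)), (m i * Real.log (Z i) -
      m i * Real.log (m i) + m i - β * (m i * V i (tail (N j) m))) ≤
      1 / (2 * r) - (√(t j) - √(1 / (2 * r))) ^ 2 := by
    intro j hj
    have h1 := block_bound (β := β) (a := N j) (b := N (j + 1)) (m := m) (u := z j)
      (c := 1 / (2 * r)) hc hm0 (hz j)
      (by
        intro i hi hui
        apply hmZ
        rw [hZb j hj i hi, hui, mul_zero])
      (fun m' hm' => le_trans (hleNN (N (j + 1)) m' (z j) (hz j) (fun i hi => hzz j i (by omega))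
        hm') (hNz j (Finset.mem_range.1 hj)))
    refine le_trans (le_of_eq (Finset.sum_congr rfl fun i hi => ?_)) h1
    rw [hZb j hj i hi, V_blk hi]
  have hbj : ∀ j ∈ range r, ∑ i ∈ Ico (N j) (N (j + 1)), h i ≤
      1 / (2 * r) - (√(t j) - √(1 / (2 * r))) ^ 2 := by
    intro j hj
    refine le_trans (Finset.sum_le_sum fun i hi => ?_) (hbase j hj)
    rw [Finset.mem_Ico] at hi
    simp only [hh]
    rcases eq_or_lt_of_le (hm0 i) with h0 | h0
    · rw [← h0]; simp
    · have h1 := hmono m hm0 (N j) i hi.1 h0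
      have h2 : m i * V i (tail (N j) m) ≤ m i * V i m := mul_le_mul_of_nonneg_left h1 h0.le
      nlinarith
  set S : ℝ := (√t₀ - √(1 / 2)) ^ 2 + ∑ j ∈ range r, (√(t j) - √(1 / (2 * r))) ^ 2 with hS
  have hsumc : ∑ _j ∈ range r, (1 / (2 * (r : ℝ))) = 1 / 2 := by
    rw [Finset.sum_const, Finset.card_range, nsmul_eq_mul]; field_simp
  have hS0 : 0 ≤ S := by
    rw [hS]
    have : 0 ≤ ∑ j ∈ range r, (√(t j) - √(1 / (2 * (r : ℝ)))) ^ 2 :=
      Finset.sum_nonneg fun j _ => sq_nonneg _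
    positivity
  by_cases hcase : 1 / 100000 ≤ S
  · -- far from the weights
    have h1 : JJ β (N r) m Z ≤ 1 - S := by
      rw [hJ2]
      have h2 := Finset.sum_le_sum hbj
      rw [Finset.sum_sub_distrib, hsumc] at h2
      rw [hS]; linarith
    have h3 : min (1 / 100000) (2 * β / 5) ≤ 1 / 100000 := min_le_left _ _
    linarith
  · push Not at hcase
    -- near the weights
    have hd0 : |t₀ - 1 / 2| ≤ 401 * (√t₀ - √(1 / 2)) ^ 2 + 1 / 2 / 200 :=
      abs_diff_le ht₀0 (by norm_num)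
    have hdj : ∀ j ∈ range r, |t j - 1 / (2 * r)| ≤
        401 * (√(t j) - √(1 / (2 * r))) ^ 2 + 1 / (2 * r) / 200 :=
      fun j _ => abs_diff_le (ht0 j) hc.le
    have hdsum : |t₀ - 1 / 2| + ∑ j ∈ range r, |t j - 1 / (2 * r)| ≤ 1 / 100 := by
      have h1 := Finset.sum_le_sum hdj
      rw [Finset.sum_add_distrib, ← Finset.mul_sum, ← Finset.sum_div, hsumc] at h1
      have h2 : 401 * S ≤ 401 * (1 / 100000) := by linarith
      rw [hS] at h2
      linarith
    have hdnn : 0 ≤ ∑ j ∈ range r, |t j - 1 / (2 * (r : ℝ))| :=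
      Finset.sum_nonneg fun j _ => abs_nonneg _
    have ht₀lo : 49 / 100 ≤ t₀ := by
      have := neg_abs_le (t₀ - 1 / 2)
      linarith
    have hd1 : |∑ j ∈ range r, (t j - 1 / (2 * (r : ℝ)))| ≤
        ∑ j ∈ range r, |t j - 1 / (2 * (r : ℝ))| := Finset.abs_sum_le_sum_abs _ _
    rw [Finset.sum_sub_distrib, hsumc] at hd1
    have htsum := abs_le.1 hd1
    have hTle : F m (N r) ≤ 101 / 100 := by
      rw [hT]
      have h1 := le_abs_self (t₀ - 1 / 2)
      linarith [htsum.2]
    have habs0 : 0 ≤ |t₀ - 1 / 2| := abs_nonneg _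
    have htlo : 49 / 100 ≤ ∑ j ∈ range r, t j := by linarith [htsum.1]
    -- good blocks
    have hgood : ∀ j ∈ range r, t j ≤ τ → ∑ i ∈ Ico (N j) (N (j + 1)), h i ≤
        1 / (2 * r) - (√(t j) - √(1 / (2 * r))) ^ 2 - β * t j := by
      intro j hj htj
      have h1 : ∑ i ∈ Ico (N j) (N (j + 1)), h i ≤ ∑ i ∈ Ico (N j) (N (j + 1)),
          ((m i * Real.log (Z i) - m i * Real.log (m i) + m i
            - β * (m i * V i (tail (N j) m))) - β * m i) := by
        refine Finset.sum_le_sum fun i hi => ?_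
        rw [Finset.mem_Ico] at hi
        simp only [hh]
        rcases eq_or_lt_of_le (hm0 i) with h0 | h0
        · rw [← h0]; simp
        · -- the gain
          have hFi : F m (i + 1) = F m i + m i := F_succ m i
          have hMi : M ≤ i := by have := hN0 j; omega
          have hF1 : F m M ≤ F m i := F_mono hm0 hMi
          have hF2 : F m (N j) ≤ F m i := F_mono hm0 hi.1
          have hF3 : F m (i + 1) ≤ F m (N (j + 1)) := F_mono hm0 hi.2
          have hF4 : F m (N (j + 1)) = F m (N j) + t j := by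
            show ∑ i ∈ range (N (j + 1)), m i = ∑ i ∈ range (N j), m i + _
            rw [← Finset.sum_range_add_sum_Ico _ (hNm (Nat.le_succ j))]
          have hF5 : F m (N (j + 1)) ≤ F m (N r) :=
            F_mono hm0 (hNm (Nat.succ_le_of_lt (Finset.mem_range.1 hj)))
          have hA0 : 0 < F m (i + 1) := by linarith
          have hY1 : 2 * lam 0 ≤ Y m i M := by
            have hpos : 0 < F m (i + 1) - F m M := by linarith
            unfold Y
            rw [← Real.log_div hA0.ne' hpos.ne', Real.le_log_iff_exp_le (by positivity)]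
            refine le_trans exp_bound ?_
            rw [le_div_iff₀ hpos, hFM]
            linarith
          have hY2 : 2 * lam M ≤ Y m i (N j) := by
            have hpos : 0 < F m (i + 1) - F m (N j) := by linarith
            unfold Y
            rw [← Real.log_div hA0.ne' hpos.ne', Real.le_log_iff_exp_le (by positivity)]
            rw [le_div_iff₀ hpos]
            have h2 : F m (i + 1) - F m (N j) ≤ τ := by linarith
            have h3 : Real.exp (2 * lam M) * (F m (i + 1) - F m (N j)) ≤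
                Real.exp (2 * lam M) * τ := mul_le_mul_of_nonneg_left h2 (Real.exp_pos _).le
            have h4 : Real.exp (2 * lam M) * τ = 48 / 100 := by
              rw [hτ, Real.exp_neg]
              field_simp
            linarith
          have h5 := hgain m hm0 M (N j) i (hN0 j) hi.1 h0 hY1 hY2
          have h6 : m i * (1 + V i (tail (N j) m)) ≤ m i * V i m :=
            mul_le_mul_of_nonneg_left h5 h0.le
          nlinarith
      have h2 := hbase j hj
      have h3 : ∑ i ∈ Ico (N j) (N (j + 1)),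
          ((m i * Real.log (Z i) - m i * Real.log (m i) + m i
            - β * (m i * V i (tail (N j) m))) - β * m i) =
          ∑ i ∈ Ico (N j) (N (j + 1)), (m i * Real.log (Z i) -
            m i * Real.log (m i) + m i - β * (m i * V i (tail (N j) m))) - β * t j := by
        rw [Finset.sum_sub_distrib, ← Finset.mul_sum]
      linarith
    -- the bad set
    classical
    set Bd : Finset ℕ := (range r).filter fun j => τ < t j with hBd
    set Gd : Finset ℕ := (range r).filter fun j => ¬ τ < t j with hGd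
    have hcard : (Bd.card : ℝ) * τ ≤ 101 / 100 := by
      have h1 : (Bd.card : ℝ) * τ ≤ ∑ j ∈ Bd, t j := by
        rw [← nsmul_eq_mul]
        exact Finset.card_nsmul_le_sum _ _ _ fun j hj => (Finset.mem_filter.1 hj).2.le
      have h2 : ∑ j ∈ Bd, t j ≤ ∑ j ∈ range r, t j :=
        Finset.sum_le_sum_of_subset_of_nonneg (Finset.filter_subset _ _) fun j _ _ => ht0 j
      have h3 : ∑ j ∈ range r, t j ≤ F m (N r) := by rw [hT]; linarith
      linarith
    have hcard2 : (Bd.card : ℝ) * (1 / (2 * r)) ≤ 101 / 2000 := by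
      have h0 : (0 : ℝ) ≤ Bd.card := Nat.cast_nonneg _
      have h1 : (Bd.card : ℝ) * 10 ≤ Bd.card * (r * τ) := mul_le_mul_of_nonneg_left hrτ h0
      have h2 : (Bd.card : ℝ) * (r * τ) ≤ 101 / 100 * r := by
        have : (Bd.card : ℝ) * (r * τ) = (Bd.card * τ) * r := by ring
        rw [this]
        exact mul_le_mul_of_nonneg_right hcard hr0.le
      rw [mul_one_div, div_le_iff₀ (by positivity)]
      linarith
    have hBsum : ∑ j ∈ Bd, t j ≤ 101 / 2000 + 1 / 100 := by
      have h1 : ∑ j ∈ Bd, (t j - 1 / (2 * r)) ≤ ∑ j ∈ Bd, |t j - 1 / (2 * (r : ℝ))| :=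
        Finset.sum_le_sum fun j _ => le_abs_self _
      have h2 : ∑ j ∈ Bd, |t j - 1 / (2 * (r : ℝ))| ≤ ∑ j ∈ range r, |t j - 1 / (2 * (r : ℝ))| :=
        Finset.sum_le_sum_of_subset_of_nonneg (Finset.filter_subset _ _) fun j _ _ => abs_nonneg _
      rw [Finset.sum_sub_distrib, Finset.sum_const, nsmul_eq_mul] at h1
      linarith
    have hBG : ∀ f : ℕ → ℝ, ∑ j ∈ range r, f j = ∑ j ∈ Bd, f j + ∑ j ∈ Gd, f j := fun f =>
      (Finset.sum_filter_add_sum_filter_not (range r) (fun j => τ < t j) f).symm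
    have hGsum : 2 / 5 ≤ ∑ j ∈ Gd, t j := by
      have := hBG t
      linarith
    have hfinal : ∑ j ∈ range r, ∑ i ∈ Ico (N j) (N (j + 1)), h i ≤
        1 / 2 - ∑ j ∈ range r, (√(t j) - √(1 / (2 * (r : ℝ)))) ^ 2 - β * ∑ j ∈ Gd, t j := by
      rw [← hsumc, ← Finset.sum_sub_distrib]
      rw [hBG (fun j => ∑ i ∈ Ico (N j) (N (j + 1)), h i),
        hBG (fun j => 1 / (2 * (r : ℝ)) - (√(t j) - √(1 / (2 * (r : ℝ)))) ^ 2), add_sub_assoc,
        Finset.mul_sum, ← Finset.sum_sub_distrib]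
      refine add_le_add (Finset.sum_le_sum fun j hj => hbj j (Finset.mem_filter.1 hj).1)
        (Finset.sum_le_sum fun j hj => hgood j (Finset.mem_filter.1 hj).1
          (not_lt.1 (Finset.mem_filter.1 hj).2))
    have h3 : min (1 / 100000) (2 * β / 5) ≤ 2 * β / 5 := min_le_right _ _
    have h4 : β * (2 / 5) ≤ β * ∑ j ∈ Gd, t j := mul_le_mul_of_nonneg_left hGsum hβ.le
    rw [hJ2]
    rw [hS] at hS0
    linarith

end Pool.Agent.US
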