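import Pool.Agent.Helper91.US.Defs2

set_option autoImplicit false

namespace Pool.Agent.US

open Finset

theorem sg_antitone : Antitone sg := by
  intro s t h
  unfold sg
  have := Real.smoothTransition.monotone (show s - 1 ≤ t - 1 by linarith)
  linarith

theorem Sk_antitone (k : ℕ) : Antitone (Sk k) := by
  intro s t h
  unfold Sk
  exact sg_antitone (div_le_div_of_nonneg_right h (lam_pos k).le)

theorem Sk_le_Sk_of_le {k l : ℕ} (hkl : k ≤ l) (y : ℝ) : Sk k y ≤ Sk l y := by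
  rcases le_total 0 y with hy | hy
  · unfold Sk
    exact sg_antitone (div_le_div_of_nonneg_left hy (lam_pos k) (lam_mono hkl))
  · rw [Sk_eq_one (show y ≤ lam k by linarith [lam_pos k]),
      Sk_eq_one (show y ≤ lam l by linarith [lam_pos l])]

theorem Ioc_succ_insert {k n : ℕ} (h : k < n) :
    Finset.Ioc k n = insert (k + 1) (Finset.Ioc (k + 1) n) := by
  ext j
  simp only [Finset.mem_Ioc, Finset.mem_insert]
  omega

theorem sum_Ioc_succ {k n : ℕ} (h : k < n) (f : ℕ → ℝ) :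
    ∑ j ∈ Finset.Ioc k n, f j = f (k + 1) + ∑ j ∈ Finset.Ioc (k + 1) n, f j := by
  rw [Ioc_succ_insert h, Finset.sum_insert (by simp)]

theorem D_nonneg_aux (n : ℕ) (y : ℕ → ℝ) : ∀ d k : ℕ, n - k = d →
    0 ≤ D n y k ∧ ∑ j ∈ Finset.Ioc k n, Sk k (y j) * D n y j ≤ 1 := by
  intro d
  induction d using Nat.strong_induction_on with
  | _ d ih =>
    intro k hk
    have key : ∑ j ∈ Finset.Ioc k n, Sk k (y j) * D n y j ≤ 1 := by
      rcases lt_or_ge k n with h | h
      · rw [sum_Ioc_succ h]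
        have h1 := ih (n - (k + 1)) (by omega) (k + 1) rfl
        have h2 : ∑ j ∈ Finset.Ioc (k + 1) n, Sk k (y j) * D n y j ≤
            ∑ j ∈ Finset.Ioc (k + 1) n, Sk (k + 1) (y j) * D n y j := by
          refine Finset.sum_le_sum (fun j hj => ?_)
          rw [Finset.mem_Ioc] at hj
          have h3 := ih (n - j) (by omega) j rfl
          exact mul_le_mul_of_nonneg_right (Sk_le_Sk_of_le (by omega) _) h3.1
        have h4 : D n y (k + 1) = 1 - ∑ j ∈ Finset.Ioc (k + 1) n, Sk (k + 1) (y j) * D n y j :=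
          D_eq n y (k + 1)
        have h5 : Sk k (y (k + 1)) * D n y (k + 1) ≤ 1 * D n y (k + 1) :=
          mul_le_mul_of_nonneg_right (Sk_le_one _ _) h1.1
        linarith
      · rw [Finset.Ioc_eq_empty (by omega)]
        simp
    refine ⟨?_, key⟩
    rw [D_eq]
    linarith

theorem D_nonneg (n : ℕ) (y : ℕ → ℝ) (k : ℕ) : 0 ≤ D n y k := (D_nonneg_aux n y _ k rfl).1

theorem sum_SD_le_one (n : ℕ) (y : ℕ → ℝ) (k : ℕ) :
    ∑ j ∈ Finset.Ioc k n, Sk k (y j) * D n y j ≤ 1 := (D_nonneg_aux n y _ k rfl).2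

theorem D_le_one (n : ℕ) (y : ℕ → ℝ) (k : ℕ) : D n y k ≤ 1 := by
  rw [D_eq]
  have : 0 ≤ ∑ j ∈ Finset.Ioc k n, Sk k (y j) * D n y j :=
    Finset.sum_nonneg (fun j _ => mul_nonneg (Sk_nonneg _ _) (D_nonneg n y j))
  linarith

theorem D_self (n : ℕ) (y : ℕ → ℝ) : D n y n = 1 := by
  rw [D_eq]; simp

/-- `∑_{k<j≤n, y_j ≤ 2 λ_k} D_j ≤ 1`. -/
theorem sum_D_le_one (n : ℕ) (y : ℕ → ℝ) (k : ℕ) :
    ∑ j ∈ (Finset.Ioc k n).filter (fun j => y j ≤ 2 * lam k), D n y j ≤ 1 := by
  rcases lt_or_ge k n with h | h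
  · rw [Finset.sum_filter, sum_Ioc_succ h]
    have h1 : (if y (k + 1) ≤ 2 * lam k then D n y (k + 1) else 0) ≤ D n y (k + 1) := by
      split_ifs
      · exact le_rfl
      · exact D_nonneg n y _
    have h2 : ∑ j ∈ Finset.Ioc (k + 1) n, (if y j ≤ 2 * lam k then D n y j else 0) ≤
        ∑ j ∈ Finset.Ioc (k + 1) n, Sk (k + 1) (y j) * D n y j := by
      refine Finset.sum_le_sum (fun j _ => ?_)
      split_ifs with h3
      · rw [Sk_eq_one (by rw [lam_succ]; exact h3), one_mul]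
      · exact mul_nonneg (Sk_nonneg _ _) (D_nonneg n y j)
    have h4 := D_eq n y (k + 1)
    linarith
  · rw [Finset.Ioc_eq_empty (by omega)]
    simp

theorem G_of_lt {n : ℕ} (y : ℕ → ℝ) {k : ℕ} (h : n < k) : G n y k = 0 := by
  unfold G
  rw [Finset.Icc_eq_empty (by omega), Finset.sum_empty]

theorem G_succ {n : ℕ} (y : ℕ → ℝ) {k : ℕ} (h : k ≤ n) : G n y k = D n y k + G n y (k + 1) := by
  unfold G
  have : Finset.Icc k n = insert k (Finset.Icc (k + 1) n) := by
    ext j; simp only [Finset.mem_Icc, Finset.mem_insert]; omega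
  rw [this, Finset.sum_insert (by simp)]

theorem D_eq_sub {n : ℕ} (y : ℕ → ℝ) {k : ℕ} (h : k ≤ n) : D n y k = G n y k - G n y (k + 1) := by
  rw [G_succ y h]; ring

theorem G_antitone (n : ℕ) (y : ℕ → ℝ) : Antitone (G n y) := by
  refine antitone_nat_of_succ_le (fun k => ?_)
  rcases le_or_gt k n with h | h
  · rw [G_succ y h]; linarith [D_nonneg n y k]
  · rw [G_of_lt y h, G_of_lt y (by omega : n < k + 1)]

theorem G_nonneg (n : ℕ) (y : ℕ → ℝ) (k : ℕ) : 0 ≤ G n y k :=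
  Finset.sum_nonneg (fun j _ => D_nonneg n y j)

theorem G_le (n : ℕ) (y : ℕ → ℝ) (k : ℕ) : G n y k ≤ n + 1 - k ∨ n < k := by
  rcases le_or_gt k n with h | h
  · left
    unfold G
    refine (Finset.sum_le_sum (fun j _ => D_le_one n y j)).trans ?_
    rw [Finset.sum_const, Nat.card_Icc, nsmul_eq_mul, mul_one]
    rw [Nat.cast_sub (by omega)]
    push_cast
    linarith
  · right; exact h

/-- `G_k = 1 + G_{k+1} - ∑_{k<j≤n} S_k(y_j) D_j`. -/
theorem G_rec {n : ℕ} (y : ℕ → ℝ) {k : ℕ} (h : k ≤ n) :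
    G n y k = 1 + G n y (k + 1) - ∑ j ∈ Finset.Ioc k n, Sk k (y j) * D n y j := by
  rw [G_succ y h, D_eq]; ring

theorem G_rec' {n : ℕ} (y : ℕ → ℝ) {k : ℕ} (h : k ≤ n) :
    G n y k = 1 + (G n y (k + 1)
      - ∑ j ∈ Finset.Ioc k n, Sk k (y j) * (G n y j - G n y (j + 1))) := by
  rw [G_rec y h]
  have : ∑ j ∈ Finset.Ioc k n, Sk k (y j) * D n y j =
      ∑ j ∈ Finset.Ioc k n, Sk k (y j) * (G n y j - G n y (j + 1)) := by
    refine Finset.sum_congr rfl (fun j hj => ?_)
    rw [Finset.mem_Ioc] at hj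
    rw [D_eq_sub y hj.2]
  rw [this]; ring

/-- Abel summation inequality. -/
theorem abel_le {n : ℕ} (s a : ℕ → ℝ) {b : ℝ} (ha0 : a (n + 1) = 0) :
    ∀ (d k : ℕ), n - k = d → ∀ c : ℝ, 0 ≤ c → 
      (∀ j, k < j → j ≤ n → 0 ≤ s j) →
      (∀ j, k < j → j < n → s (j + 1) ≤ s j) → (k < n → s (k + 1) ≤ c) →
      (∀ j, k < j → j ≤ n → a j ≤ b) → 0 ≤ b → k ≤ n →
      c * a (k + 1) - ∑ j ∈ Finset.Ioc k n, s j * (a j - a (j + 1)) ≤ c * b := by
  intro d
  induction d with
  | zero =>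
    intro k hk c hc _ _ _ _ hb hkn
    have : k = n := by omega
    subst this
    rw [ha0]
    simp only [Finset.Ioc_self, Finset.sum_empty]
    nlinarith
  | succ d ih =>
    intro k hk c hc hs0 hs hsc ha hb hkn
    have hlt : k < n := by omega
    rw [sum_Ioc_succ hlt]
    have h1 := ih (k + 1) (by omega) (s (k + 1)) (hs0 _ (by omega) (by omega))
      (fun j h1 h2 => hs0 j (by omega) h2) (fun j h1 h2 => hs j (by omega) h2)
      (fun h2 => hs (k + 1) (by omega) h2)
      (fun j h1 h2 => ha j (by omega) h2) hb (by omega)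
    have h2 : (c - s (k + 1)) * a (k + 1) ≤ (c - s (k + 1)) * b :=
      mul_le_mul_of_nonneg_left (ha _ (by omega) (by omega)) (by linarith [hsc hlt])
    linarith

theorem abel_le' {n k : ℕ} (s a : ℕ → ℝ) {b : ℝ} (ha0 : a (n + 1) = 0) (hk : k ≤ n)
    (hs0 : ∀ j, k < j → j ≤ n → 0 ≤ s j) (hs : ∀ j, k < j → j < n → s (j + 1) ≤ s j)
    (hs1 : ∀ j, k < j → j ≤ n → s j ≤ 1) (ha : ∀ j, k < j → j ≤ n → a j ≤ b) (hb : 0 ≤ b) :
    a (k + 1) - ∑ j ∈ Finset.Ioc k n, s j * (a j - a (j + 1)) ≤ b := by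
  have := abel_le s a (b := b) ha0 _ k rfl 1 zero_le_one hs0 hs
    (fun h => hs1 _ (by omega) (by omega)) ha hb hk
  linarith

theorem abel_ge' {n k : ℕ} (s a : ℕ → ℝ) {b : ℝ} (ha0 : a (n + 1) = 0) (hk : k ≤ n)
    (hs0 : ∀ j, k < j → j ≤ n → 0 ≤ s j) (hs : ∀ j, k < j → j < n → s (j + 1) ≤ s j)
    (hs1 : ∀ j, k < j → j ≤ n → s j ≤ 1) (ha : ∀ j, k < j → j ≤ n → b ≤ a j) (hb : b ≤ 0) :
    b ≤ a (k + 1) - ∑ j ∈ Finset.Ioc k n, s j * (a j - a (j + 1)) := by
  have h := abel_le' s (fun j => - a j) (b := -b) (by simp [ha0]) hk hs0 hs hs1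
    (fun j h1 h2 => by simpa using ha j h1 h2) (by linarith)
  have h2 : ∑ j ∈ Finset.Ioc k n, s j * (-a j - -a (j + 1)) =
      - ∑ j ∈ Finset.Ioc k n, s j * (a j - a (j + 1)) := by
    rw [← Finset.sum_neg_distrib]
    exact Finset.sum_congr rfl (fun j _ => by ring)
  simp only [h2] at h
  linarith

theorem abel_abs {n k : ℕ} (s a : ℕ → ℝ) {b : ℝ} (ha0 : a (n + 1) = 0) (hk : k ≤ n)
    (hs0 : ∀ j, k < j → j ≤ n → 0 ≤ s j) (hs : ∀ j, k < j → j < n → s (j + 1) ≤ s j)
    (hs1 : ∀ j, k < j → j ≤ n → s j ≤ 1) (ha : ∀ j, k < j → j ≤ n → |a j| ≤ b) (hb : 0 ≤ b) :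
    |a (k + 1) - ∑ j ∈ Finset.Ioc k n, s j * (a j - a (j + 1))| ≤ b := by
  rw [abs_le]
  exact ⟨abel_ge' s a ha0 hk hs0 hs hs1 (fun j h1 h2 => (abs_le.1 (ha j h1 h2)).1) (by linarith),
    abel_le' s a ha0 hk hs0 hs hs1 (fun j h1 h2 => (abs_le.1 (ha j h1 h2)).2) hb⟩


theorem G_mono {n : ℕ} {y y' : ℕ → ℝ} (hyy : ∀ j ≤ n, y j ≤ y' j)
    (hy' : ∀ j < n, y' j ≤ y' (j + 1)) : ∀ (d k : ℕ), n - k = d → G n y k ≤ G n y' k := by
  intro d
  induction d using Nat.strong_induction_on with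
  | _ d ih =>
    intro k hk
    rcases lt_or_ge n k with h | h
    · rw [G_of_lt y h, G_of_lt y' h]
    · have hge : (0 : ℝ) ≤ (fun j => G n y' j - G n y j) (k + 1)
          - ∑ j ∈ Finset.Ioc k n, (fun j => Sk k (y' j)) j *
            ((fun j => G n y' j - G n y j) j - (fun j => G n y' j - G n y j) (j + 1)) := by
        refine abel_ge' (fun j => Sk k (y' j)) (fun j => G n y' j - G n y j) ?_ h
          (fun j _ _ => Sk_nonneg _ _) (fun j h1 h2 => Sk_antitone k (hy' j h2))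
          (fun j _ _ => Sk_le_one _ _) (fun j h1 h2 => ?_) le_rfl
        · simp only [G_of_lt y (Nat.lt_succ_self n), G_of_lt y' (Nat.lt_succ_self n), sub_self]
        · have := ih (n - j) (by omega) j rfl
          linarith
      simp only at hge
      rw [G_rec' y h, G_rec' y' h]
      have h1 : ∑ j ∈ Finset.Ioc k n, Sk k (y' j) * (G n y j - G n y (j + 1)) ≤
          ∑ j ∈ Finset.Ioc k n, Sk k (y j) * (G n y j - G n y (j + 1)) := by
        refine Finset.sum_le_sum (fun j hj => ?_)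
        rw [Finset.mem_Ioc] at hj
        refine mul_le_mul_of_nonneg_right (Sk_antitone k (hyy j hj.2)) ?_
        linarith [G_antitone n y (Nat.le_succ j)]
      have h2 : ∑ j ∈ Finset.Ioc k n, Sk k (y' j) *
            (G n y' j - G n y j - (G n y' (j + 1) - G n y (j + 1))) =
          ∑ j ∈ Finset.Ioc k n, Sk k (y' j) * (G n y' j - G n y' (j + 1)) -
          ∑ j ∈ Finset.Ioc k n, Sk k (y' j) * (G n y j - G n y (j + 1)) := by
        rw [← Finset.sum_sub_distrib]
        exact Finset.sum_congr rfl (fun j _ => by ring)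
      rw [h2] at hge
      linarith

theorem G_le_of_le {n : ℕ} {y y' : ℕ → ℝ} (hyy : ∀ j ≤ n, y j ≤ y' j)
    (hy' : ∀ j < n, y' j ≤ y' (j + 1)) (k : ℕ) : G n y k ≤ G n y' k :=
  G_mono hyy hy' _ k rfl

theorem sg_contDiff {n : ℕ∞} : ContDiff ℝ n sg := by
  unfold sg
  exact contDiff_const.sub (Real.smoothTransition.contDiff.comp (contDiff_id.sub contDiff_const))

theorem deriv_sg_of_lt {t : ℝ} (h : t < 1) : deriv sg t = 0 := by
  have : sg =ᶠ[nhds t] fun _ => 1 := by
    filter_upwards [Iio_mem_nhds h] with s hs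
    exact sg_eq_one (le_of_lt hs)
  rw [this.deriv_eq]; simp

theorem deriv_sg_of_gt {t : ℝ} (h : 2 < t) : deriv sg t = 0 := by
  have : sg =ᶠ[nhds t] fun _ => 0 := by
    filter_upwards [Ioi_mem_nhds h] with s hs
    exact sg_eq_zero (le_of_lt hs)
  rw [this.deriv_eq]; simp

theorem exists_sg_lip : ∃ σ : ℝ, 0 < σ ∧ ∀ s t, s ≤ t → sg s - sg t ≤ σ * (t - s) := by
  have hd : Differentiable ℝ sg := (sg_contDiff (n := 1)).differentiable (by norm_num)
  have hc : Continuous (deriv sg) := (sg_contDiff (n := 1)).continuous_deriv (by norm_num)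
  obtain ⟨C, hC⟩ := (isCompact_Icc (a := (1 : ℝ)) (b := 2)).exists_bound_of_continuousOn
    hc.continuousOn
  have hb : ∀ t, ‖deriv sg t‖ ≤ max C 1 := by
    intro t
    rcases lt_or_ge t 1 with h | h
    · rw [deriv_sg_of_lt h]; simp
    · rcases lt_or_ge 2 t with h' | h'
      · rw [deriv_sg_of_gt h']; simp
      · exact (hC t ⟨h, h'⟩).trans (le_max_left _ _)
  refine ⟨max C 1, by positivity, fun s t hst => ?_⟩
  have h := Convex.norm_image_sub_le_of_norm_deriv_le (f := sg) (C := max C 1) (s := Set.univ)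
    (x := s) (y := t) (fun x _ => hd x) (fun x _ => hb x) convex_univ trivial trivial
  rw [Real.norm_eq_abs, Real.norm_eq_abs, abs_of_nonneg (by linarith : 0 ≤ t - s)] at h
  have := (abs_le.1 h).1
  linarith

theorem G_shift_aux {σ : ℝ} (hσ : 0 < σ) (hlip : ∀ s t, s ≤ t → sg s - sg t ≤ σ * (t - s))
    {n : ℕ} {y y' : ℕ → ℝ} {s : ℝ} (hs : 0 ≤ s)
    (hyy : ∀ j ≤ n, y j ≤ y' j) (hyy' : ∀ j ≤ n, y' j ≤ y j + s)
    (hy' : ∀ j < n, y' j ≤ y' (j + 1)) : ∀ (d k : ℕ), n - k = d →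
      G n y' k - G n y k ≤ 2 * σ / lam k * s := by
  intro d
  induction d using Nat.strong_induction_on with
  | _ d ih =>
    intro k hk
    have hl := lam_pos k
    rcases lt_or_ge n k with h | h
    · rw [G_of_lt y h, G_of_lt y' h, sub_zero]
      positivity
    · have hge : (fun j => G n y' j - G n y j) (k + 1)
          - ∑ j ∈ Finset.Ioc k n, (fun j => Sk k (y' j)) j *
            ((fun j => G n y' j - G n y j) j - (fun j => G n y' j - G n y j) (j + 1)) ≤
            2 * σ / lam (k + 1) * s := by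
        refine abel_le' (fun j => Sk k (y' j)) (fun j => G n y' j - G n y j) ?_ h
          (fun j _ _ => Sk_nonneg _ _) (fun j h1 h2 => Sk_antitone k (hy' j h2))
          (fun j _ _ => Sk_le_one _ _) (fun j h1 h2 => ?_) (by have := lam_pos (k + 1); positivity)
        · simp only [G_of_lt y (Nat.lt_succ_self n), G_of_lt y' (Nat.lt_succ_self n), sub_self]
        · have h3 := ih (n - j) (by omega) j rfl
          refine h3.trans (mul_le_mul_of_nonneg_right ?_ hs)
          exact div_le_div_of_nonneg_left (by positivity) (lam_pos _) (lam_mono (by omega))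
      simp only at hge
      rw [G_rec' y h, G_rec' y' h]
      have h1 : ∑ j ∈ Finset.Ioc k n, (Sk k (y j) - Sk k (y' j)) * D n y j ≤ σ / lam k * s := by
        have h5 : ∑ j ∈ Finset.Ioc k n, (Sk k (y j) - Sk k (y' j)) * D n y j ≤
            ∑ j ∈ Finset.Ioc k n, (if y j ≤ 2 * lam k then (σ / lam k * s) * D n y j else 0) := by
          refine Finset.sum_le_sum (fun j hj => ?_)
          rw [Finset.mem_Ioc] at hj
          split_ifs with h6
          · refine mul_le_mul_of_nonneg_right ?_ (D_nonneg _ _ _)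
            have h7 := hlip (y j / lam k) (y' j / lam k)
              (div_le_div_of_nonneg_right (hyy j hj.2) hl.le)
            have h8 : y' j / lam k - y j / lam k ≤ s / lam k := by
              rw [← sub_div]
              exact div_le_div_of_nonneg_right (by linarith [hyy' j hj.2]) hl.le
            have h9 : σ * (y' j / lam k - y j / lam k) ≤ σ * (s / lam k) :=
              mul_le_mul_of_nonneg_left h8 hσ.le
            unfold Sk
            calc _ ≤ σ * (y' j / lam k - y j / lam k) := h7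
              _ ≤ σ * (s / lam k) := h9
              _ = σ / lam k * s := by ring
          · rw [Sk_eq_zero (by linarith), Sk_eq_zero (by linarith [hyy j hj.2])]
            simp
        refine h5.trans ?_
        rw [← Finset.sum_filter, ← Finset.mul_sum]
        have := sum_D_le_one n y k
        have h10 : 0 ≤ σ / lam k * s := by positivity
        nlinarith
      have h2 : ∑ j ∈ Finset.Ioc k n, Sk k (y' j) *
            (G n y' j - G n y j - (G n y' (j + 1) - G n y (j + 1))) =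
          ∑ j ∈ Finset.Ioc k n, Sk k (y' j) * (G n y' j - G n y' (j + 1)) -
          ∑ j ∈ Finset.Ioc k n, Sk k (y' j) * (G n y j - G n y (j + 1)) := by
        rw [← Finset.sum_sub_distrib]
        exact Finset.sum_congr rfl (fun j _ => by ring)
      have h3 : ∑ j ∈ Finset.Ioc k n, (Sk k (y j) - Sk k (y' j)) * D n y j =
          ∑ j ∈ Finset.Ioc k n, Sk k (y j) * (G n y j - G n y (j + 1)) -
          ∑ j ∈ Finset.Ioc k n, Sk k (y' j) * (G n y j - G n y (j + 1)) := by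
        rw [← Finset.sum_sub_distrib]
        refine Finset.sum_congr rfl (fun j hj => ?_)
        rw [Finset.mem_Ioc] at hj
        rw [D_eq_sub y hj.2]; ring
      rw [h2] at hge
      rw [h3] at h1
      have h4 : 2 * σ / lam (k + 1) * s = σ / lam k * s := by
        rw [lam_succ]; field_simp
      have h5 : 2 * σ / lam k * s = σ / lam k * s + σ / lam k * s := by ring
      linarith

theorem sum_D_eq {n : ℕ} (y : ℕ → ℝ) {k a : ℕ} (hka : k ≤ a) (ha : a ≤ n) :
    ∑ j ∈ Finset.Ioc k a, D n y j = G n y (k + 1) - G n y (a + 1) := by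
  induction a, hka using Nat.le_induction with
  | base => simp
  | succ a hka ih =>
    have h : Finset.Ioc k (a + 1) = insert (a + 1) (Finset.Ioc k a) := by
      ext j; simp only [Finset.mem_Ioc, Finset.mem_insert]; omega
    rw [h, Finset.sum_insert (by simp), ih (by omega), D_eq_sub y ha]
    ring

/-- if `y_j ≤ λ_0` for `1 ≤ j ≤ a` then `G_0 ≤ 1 + G_a`. -/
theorem G_zero_le {n : ℕ} {y : ℕ → ℝ} {a : ℕ} (ha : a ≤ n) (hy : ∀ j, 1 ≤ j → j ≤ a → y j ≤ lam 0) :
    G n y 0 ≤ 1 + G n y a := by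
  rw [G_rec y (Nat.zero_le n)]
  have h1 : ∑ j ∈ Finset.Ioc 0 a, D n y j ≤ ∑ j ∈ Finset.Ioc 0 n, Sk 0 (y j) * D n y j := by
    calc ∑ j ∈ Finset.Ioc 0 a, D n y j = ∑ j ∈ Finset.Ioc 0 a, Sk 0 (y j) * D n y j := by
          refine Finset.sum_congr rfl (fun j hj => ?_)
          rw [Finset.mem_Ioc] at hj
          rw [Sk_eq_one (hy j (by omega) hj.2), one_mul]
      _ ≤ _ := Finset.sum_le_sum_of_subset_of_nonneg (Finset.Ioc_subset_Ioc_right ha)
          (fun j _ _ => mul_nonneg (Sk_nonneg _ _) (D_nonneg _ _ _))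
  rw [sum_D_eq y (Nat.zero_le a) ha] at h1
  have := G_antitone n y (Nat.le_succ a)
  simp only [Nat.succ_eq_add_one] at this
  linarith

/-- if `S_k(y_j) = 0` for `a ≤ j ≤ n` and `k < a` then `G_k ≥ 1 + G_a`. -/
theorem le_G_of_zero {n : ℕ} {y : ℕ → ℝ} {k a : ℕ} (hka : k < a) (ha : a ≤ n)
    (hy : ∀ j, a ≤ j → j ≤ n → 2 * lam k ≤ y j) : 1 + G n y a ≤ G n y k := by
  rw [G_rec y (by omega : k ≤ n)]
  obtain ⟨b, rfl⟩ : ∃ b, a = b + 1 := ⟨a - 1, by omega⟩
  have h1 : ∑ j ∈ Finset.Ioc k n, Sk k (y j) * D n y j ≤ ∑ j ∈ Finset.Ioc k b, D n y j := by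
    have h2 : ∑ j ∈ Finset.Ioc k n, Sk k (y j) * D n y j =
        ∑ j ∈ Finset.Ioc k b, Sk k (y j) * D n y j := by
      symm
      refine Finset.sum_subset (Finset.Ioc_subset_Ioc_right (by omega)) (fun j hj hj' => ?_)
      rw [Finset.mem_Ioc] at hj hj'
      rw [Sk_eq_zero (hy j (by omega) hj.2), zero_mul]
    rw [h2]
    refine Finset.sum_le_sum (fun j _ => ?_)
    have := D_nonneg n y j
    nlinarith [Sk_le_one k (y j)]
  rw [sum_D_eq y (by omega) (by omega)] at h1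
  linarith

theorem one_le_G_zero (n : ℕ) (y : ℕ → ℝ) : 1 ≤ G n y 0 := by
  rw [G_rec y (Nat.zero_le n)]
  have h1 : ∑ j ∈ Finset.Ioc 0 n, Sk 0 (y j) * D n y j ≤ ∑ j ∈ Finset.Ioc 0 n, D n y j := by
    refine Finset.sum_le_sum (fun j _ => ?_)
    have := D_nonneg n y j
    nlinarith [Sk_le_one 0 (y j)]
  rw [sum_D_eq y (Nat.zero_le n) le_rfl, G_of_lt y (Nat.lt_succ_self n)] at h1
  linarith

end Pool.Agent.US
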